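import Pool.Agent.Lib.MP_9916e0_co.Game

set_option autoImplicit false
set_option linter.unusedSectionVars false

namespace Pool.Agent.Lib.MP_9916e0_co

variable {V : Type*} [Fintype V] [DecidableEq V]

/-- Breaker neighbours. -/
def nb (B : Finset (Sym2 V)) (v : V) : Finset V := Finset.univ.filter fun x => s(v, x) ∈ B

/-- Breaker degree. -/
def dg (B : Finset (Sym2 V)) (v : V) : ℕ := (nb B v).card

theorem mem_nb {B : Finset (Sym2 V)} {v x : V} : x ∈ nb B v ↔ s(v, x) ∈ B := by
  simp [nb]

theorem mem_nb' {B : Finset (Sym2 V)} {v x : V} : x ∈ nb B v ↔ s(x, v) ∈ B := by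
  rw [mem_nb, Sym2.eq_swap]

theorem card_sdiff_ext {m : ℕ} {M B M' B' : Finset (Sym2 V)} (h : Ext m M B M' B') :
    (B' \ B).card ≤ m := by
  have h1 := Finset.card_sdiff_add_card_eq_card h.subB
  have := h.card_le
  omega

theorem dg_mono {B B' : Finset (Sym2 V)} (h : B ⊆ B') (v : V) : dg B v ≤ dg B' v := by
  apply Finset.card_le_card
  intro x hx
  rw [mem_nb] at hx ⊢
  exact h hx

theorem nb_mono {B B' : Finset (Sym2 V)} (h : B ⊆ B') (v : V) : nb B v ⊆ nb B' v := by
  intro x hx
  rw [mem_nb] at hx ⊢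
  exact h hx

/-- The number of new Breaker neighbours is at most the number of new Breaker edges. -/
theorem dg_ext {m : ℕ} {M B M' B' : Finset (Sym2 V)} (h : Ext m M B M' B') (v : V) :
    dg B' v ≤ dg B v + m := by
  have h1 : (nb B' v \ nb B v).card ≤ (B' \ B).card := by
    apply Finset.card_le_card_of_injOn (fun x => s(v, x))
    · intro x hx
      rw [Finset.mem_coe, Finset.mem_sdiff, mem_nb, mem_nb] at hx
      rw [Finset.mem_coe, Finset.mem_sdiff]
      exact hx
    · intro x _ y _ hxy
      simp only [Sym2.eq_iff] at hxy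
      rcases hxy with ⟨_, h⟩ | ⟨h, h'⟩
      · exact h
      · rw [h', h]
  have h2 := card_sdiff_ext h
  have h3 : (nb B' v).card ≤ (nb B v).card + (nb B' v \ nb B v).card := by
    have := Finset.card_le_card (show nb B' v ⊆ nb B v ∪ (nb B' v \ nb B v) by
      intro x hx
      by_cases hx' : x ∈ nb B v
      · exact Finset.mem_union_left _ hx'
      · exact Finset.mem_union_right _ (Finset.mem_sdiff.mpr ⟨hx, hx'⟩))
    exact this.trans (Finset.card_union_le _ _)
  unfold dg
  omega

theorem card_pairs_le (B : Finset (Sym2 V)) :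
    (Finset.univ.filter fun p : V × V => s(p.1, p.2) ∈ B).card ≤ 2 * B.card := by
  apply Finset.card_le_mul_card_image_of_maps_to (f := fun p : V × V => s(p.1, p.2))
  · intro p hp
    exact (Finset.mem_filter.mp hp).2
  · intro e he
    induction e using Sym2.ind with
    | _ a b =>
      have hsub : (Finset.univ.filter fun p : V × V => s(p.1, p.2) ∈ B).filter
          (fun p : V × V => s(p.1, p.2) = s(a, b)) ⊆ {(a, b), (b, a)} := by
        intro p hp
        have := (Finset.mem_filter.mp hp).2
        rw [Sym2.eq_iff] at this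
        rw [Finset.mem_insert, Finset.mem_singleton]
        rcases this with ⟨h1, h2⟩ | ⟨h1, h2⟩
        · left; exact Prod.ext h1 h2
        · right; exact Prod.ext h1 h2
      exact (Finset.card_le_card hsub).trans Finset.card_le_two

theorem sum_dg_eq (B : Finset (Sym2 V)) :
    ∑ v, dg B v = (Finset.univ.filter fun p : V × V => s(p.1, p.2) ∈ B).card := by
  rw [Finset.card_filter, Fintype.sum_prod_type]
  apply Finset.sum_congr rfl
  intro v _
  unfold dg nb
  rw [Finset.card_filter]

theorem sum_dg_le (B : Finset (Sym2 V)) : ∑ v, dg B v ≤ 2 * B.card := by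
  rw [sum_dg_eq]
  exact card_pairs_le B

/-- Markov: few vertices of large weight. -/
theorem markov (s : Finset V) (w : V → ℕ) (t S : ℕ) (h : ∑ v ∈ s, w v ≤ S) :
    (s.filter fun v => t ≤ w v).card * t ≤ S := by
  calc (s.filter fun v => t ≤ w v).card * t = ∑ _v ∈ s.filter (fun v => t ≤ w v), t := by
        rw [Finset.sum_const, smul_eq_mul]
    _ ≤ ∑ v ∈ s.filter (fun v => t ≤ w v), w v :=
        Finset.sum_le_sum fun v hv => (Finset.mem_filter.mp hv).2
    _ ≤ ∑ v ∈ s, w v := Finset.sum_le_sum_of_subset (Finset.filter_subset _ _)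
    _ ≤ S := h

/-- The vertices of Breaker degree at least `t`. -/
def hvy (t : ℕ) (B : Finset (Sym2 V)) : Finset V := Finset.univ.filter fun v => t ≤ dg B v

theorem mem_hvy {t : ℕ} {B : Finset (Sym2 V)} {v : V} : v ∈ hvy t B ↔ t ≤ dg B v := by
  simp [hvy]

theorem card_hvy (t : ℕ) (B : Finset (Sym2 V)) : (hvy t B).card * t ≤ 2 * B.card :=
  markov Finset.univ (dg B) t _ (sum_dg_le B)

theorem hvy_mono {t : ℕ} {B B' : Finset (Sym2 V)} (h : B ⊆ B') : hvy t B ⊆ hvy t B' := by
  intro v hv
  rw [mem_hvy] at hv ⊢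
  exact hv.trans (dg_mono h v)

/-- Choose an element of `X` outside a small bad set. -/
theorem exists_avoid {α : Type*} [DecidableEq α] {X bad : Finset α} (h : bad.card < X.card) :
    ∃ y ∈ X, y ∉ bad := Finset.exists_mem_notMem_of_card_lt_card h

theorem card_brd : 2 * (brd V).card = Fintype.card V * (Fintype.card V - 1) := by
  have h : (brd V).card = (Fintype.card V).choose 2 := by
    have h1 := Sym2.card_subtype_not_diag (α := V)
    rw [Fintype.card_subtype] at h1
    exact h1
  rw [h, Nat.choose_two_right]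
  have : 2 ∣ Fintype.card V * (Fintype.card V - 1) := by
    rcases Nat.even_or_odd (Fintype.card V) with h | h
    · exact Dvd.dvd.mul_right (even_iff_two_dvd.mp h) _
    · apply Dvd.dvd.mul_left
      obtain ⟨k, hk⟩ := h
      exact ⟨k, by omega⟩
  omega

end Pool.Agent.Lib.MP_9916e0_co
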