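import Mathlib

set_option autoImplicit false

/-! # The (1:1) Maker-Breaker tree embedding game (Breaker moves first)

Definitions used by the statement of the main result. -/

namespace Pool.Agent.Lib.MP_9916e0_co

/-- `MakerWins board F t M B`: in the `(1:1)` Maker-Breaker game on the finite board `board` with
family of winning sets `F`, Maker can force a win from the position in which Maker owns `M` and
Breaker owns `B`; it is Maker's turn if `t = true` and Breaker's turn if `t = false`.

* `done`: Maker already owns all elements of some winning set, so he has won.
* `maker`: it is Maker's turn; he claims a previously unclaimed element `e` of the board and can force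
  a win from the new position.
* `breaker`: it is Breaker's turn, some element of the board is unclaimed (otherwise the game is over
  and Breaker has won), and whatever unclaimed element `e` Breaker claims, Maker can force a win from
  the new position. -/
inductive MakerWins {α : Type*} [DecidableEq α] (board : Finset α) (F : Set (Finset α)) :
    Bool → Finset α → Finset α → Prop
  | done (t : Bool) (M B A : Finset α) (hA : A ∈ F) (hAM : A ⊆ M) : MakerWins board F t M B
  | maker (M B : Finset α) (e : α) (he : e ∈ board) (heM : e ∉ M) (heB : e ∉ B)
      (h : MakerWins board F false (insert e M) B) : MakerWins board F true M B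
  | breaker (M B : Finset α) (hfree : ∃ e ∈ board, e ∉ M ∧ e ∉ B)
      (h : ∀ e ∈ board, e ∉ M → e ∉ B → MakerWins board F true M (insert e B)) :
      MakerWins board F false M B

/-- The board: the edge set of the complete graph on `Fin n` (all unordered pairs of distinct
vertices). -/
def board (n : ℕ) : Finset (Sym2 (Fin n)) := Finset.univ.filter fun e => ¬ e.IsDiag

/-- The winning sets: the edge sets of the copies of `T` in the complete graph on `Fin n`. -/
def copies {n : ℕ} (T : SimpleGraph (Fin n)) : Set (Finset (Sym2 (Fin n))) :=
  {A | ∃ σ : Equiv.Perm (Fin n), (A : Set (Sym2 (Fin n))) = Sym2.map σ '' T.edgeSet}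

/-- The `(1:1)` tree embedding game of `T`, in which Breaker moves first, is Maker's win. -/
def TreeGameWin {n : ℕ} (T : SimpleGraph (Fin n)) : Prop :=
  MakerWins (board n) (copies T) false ∅ ∅

/-- For every tree `T` on `n` vertices with maximum degree at most `d` the game is Maker's win. -/
def AllTreesWin (n d : ℕ) : Prop :=
  ∀ T : SimpleGraph (Fin n), T.IsTree → (∀ v, (T.neighborSet v).ncard ≤ d) → TreeGameWin T

/-- The degree threshold `d(n)`: the supremum (a maximum for `n ≥ 2`, as the main result shows) of
all `d` such that the game is Maker's win for every tree on `n` vertices with maximum degree at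
most `d`. -/
noncomputable def maxDeg (n : ℕ) : ℕ := sSup {d : ℕ | AllTreesWin n d}

end Pool.Agent.Lib.MP_9916e0_co
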