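import Pool.Agent.Lib.MP_9916e0_co.Count

set_option autoImplicit false
set_option linter.unusedSectionVars false

namespace Pool.Agent.Lib.MP_9916e0_co

variable {V : Type*} [Fintype V] [DecidableEq V]

/-- A rooted tree on `V`: every non-root has a parent one level higher. -/
structure RT (V : Type*) where
  r : V
  par : V → V
  dep : V → ℕ
  dep_par : ∀ v, v ≠ r → dep (par v) + 1 = dep v

namespace RT

variable (R : RT V)

/-- The children. -/
def ch (v : V) : Finset V := Finset.univ.filter fun c => c ≠ R.r ∧ R.par c = v

variable {R}

theorem mem_ch {v c : V} : c ∈ R.ch v ↔ c ≠ R.r ∧ R.par c = v := by simp [ch]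

theorem par_ne {v : V} (h : v ≠ R.r) : R.par v ≠ v := by
  intro h'
  have := R.dep_par v h
  rw [h'] at this
  omega

theorem dep_ch {v c : V} (h : c ∈ R.ch v) : R.dep c = R.dep v + 1 := by
  rw [mem_ch] at h
  have := R.dep_par c h.1
  rw [h.2] at this
  exact this.symm

theorem ch_disjoint {u v : V} (h : u ≠ v) : Disjoint (R.ch u) (R.ch v) := by
  rw [Finset.disjoint_left]
  intro x hx hx'
  rw [mem_ch] at hx hx'
  exact h (hx.2.symm.trans hx'.2)

end RT

/-- `f` embeds the parent-closed set `D` of tree vertices, with edges in `M`. -/
structure Emb (R : RT V) (D : Finset V) (f : V → V) (M : Finset (Sym2 V)) : Prop where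
  root : R.r ∈ D
  closed : ∀ v ∈ D, v ≠ R.r → R.par v ∈ D
  inj : Set.InjOn f D
  edge : ∀ v ∈ D, v ≠ R.r → s(f (R.par v), f v) ∈ M

/-- The unused host vertices. -/
def unused (D : Finset V) (f : V → V) : Finset V := Finset.univ \ D.image f

theorem mem_unused {D : Finset V} {f : V → V} {x : V} : x ∈ unused D f ↔ ∀ v ∈ D, f v ≠ x := by
  simp [unused]

theorem not_unused {D : Finset V} {f : V → V} {v : V} (h : v ∈ D) : f v ∉ unused D f := by
  rw [mem_unused]
  push Not
  exact ⟨v, h, rfl⟩

namespace Emb

variable {R : RT V} {D : Finset V} {f : V → V} {M : Finset (Sym2 V)}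

theorem card_unused (h : Emb R D f M) : (unused D f).card + D.card = Fintype.card V := by
  unfold unused
  rw [← Finset.card_image_of_injOn h.inj]
  have := Finset.card_sdiff_add_card_eq_card (Finset.subset_univ (D.image f))
  rw [Finset.card_univ] at this
  exact this

theorem mono {M' : Finset (Sym2 V)} (h : Emb R D f M) (hM : M ⊆ M') : Emb R D f M' where
  root := h.root
  closed := h.closed
  inj := h.inj
  edge := fun v hv hr => hM (h.edge v hv hr)

theorem ne_root (h : Emb R D f M) {v : V} (hv : v ∉ D) : v ≠ R.r := by
  rintro rfl
  exact hv h.root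

theorem ch_notMem (h : Emb R D f M) {v c : V} (hv : v ∉ D) (hc : c ∈ R.ch v) : c ∉ D := by
  intro hcD
  rw [RT.mem_ch] at hc
  apply hv
  rw [← hc.2]
  exact h.closed c hcD hc.1

/-- Place the new vertex `v` at the unused host `y`. -/
theorem add (h : Emb R D f M) {v y : V} (hv : v ∉ D) (hp : R.par v ∈ D) (hy : y ∈ unused D f)
    (he : s(f (R.par v), y) ∈ M) : Emb R (insert v D) (Function.update f v y) M where
  root := Finset.mem_insert_of_mem h.root
  closed := by
    intro u hu hr
    rw [Finset.mem_insert] at hu
    rcases hu with rfl | hu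
    · exact Finset.mem_insert_of_mem hp
    · exact Finset.mem_insert_of_mem (h.closed u hu hr)
  inj := by
    rw [mem_unused] at hy
    intro a ha b hb hab
    rw [Finset.coe_insert, Set.mem_insert_iff, Finset.mem_coe] at ha hb
    by_cases h1 : a = v
    · by_cases h2 : b = v
      · rw [h1, h2]
      · rw [h1, Function.update_self, Function.update_of_ne h2] at hab
        exact absurd hab.symm (hy b (hb.resolve_left h2))
    · by_cases h2 : b = v
      · rw [h2, Function.update_self, Function.update_of_ne h1] at hab
        exact absurd hab (hy a (ha.resolve_left h1))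
      · rw [Function.update_of_ne h1, Function.update_of_ne h2] at hab
        exact h.inj (ha.resolve_left h1) (hb.resolve_left h2) hab
  edge := by
    intro u hu hr
    rw [Finset.mem_insert] at hu
    rcases hu with rfl | hu
    · rw [Function.update_self, Function.update_of_ne (RT.par_ne hr)]
      exact he
    · have h1 : u ≠ v := by rintro rfl; exact hv hu
      have h2 : R.par u ≠ v := by
        intro h2
        exact hv (h2 ▸ h.closed u hu hr)
      rw [Function.update_of_ne h1, Function.update_of_ne h2]
      exact h.edge u hu hr

/-- Move the placed vertex `v` to the unused host `w`. -/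
theorem rehost (h : Emb R D f M) {v w : V} (hv : v ∈ D) (hw : w ∈ unused D f)
    (hpar : v ≠ R.r → s(f (R.par v), w) ∈ M) (hch : ∀ c ∈ D, c ∈ R.ch v → s(w, f c) ∈ M) :
    Emb R D (Function.update f v w) M where
  root := h.root
  closed := h.closed
  inj := by
    rw [mem_unused] at hw
    intro a ha b hb hab
    rw [Finset.mem_coe] at ha hb
    by_cases h1 : a = v
    · by_cases h2 : b = v
      · rw [h1, h2]
      · rw [h1, Function.update_self, Function.update_of_ne h2] at hab
        exact absurd hab.symm (hw b hb)
    · by_cases h2 : b = v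
      · rw [h2, Function.update_self, Function.update_of_ne h1] at hab
        exact absurd hab (hw a ha)
      · rw [Function.update_of_ne h1, Function.update_of_ne h2] at hab
        exact h.inj ha hb hab
  edge := by
    intro u hu hr
    by_cases h1 : u = v
    · subst h1
      rw [Function.update_self, Function.update_of_ne (RT.par_ne hr)]
      exact hpar hr
    · rw [Function.update_of_ne h1]
      by_cases h2 : R.par u = v
      · rw [h2, Function.update_self]
        exact hch u hu (RT.mem_ch.mpr ⟨hr, h2⟩)
      · rw [Function.update_of_ne h2]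
        exact h.edge u hu hr

end Emb

/-- Unused hosts after an addition. -/
theorem unused_add {D : Finset V} {f : V → V} {v y : V} (hv : v ∉ D) :
    unused (insert v D) (Function.update f v y) = (unused D f).erase y := by
  ext x
  rw [Finset.mem_erase, mem_unused, mem_unused]
  constructor
  · intro h
    refine ⟨?_, ?_⟩
    · have := h v (Finset.mem_insert_self _ _)
      rw [Function.update_self] at this
      exact fun h' => this h'.symm
    · intro u hu
      have := h u (Finset.mem_insert_of_mem hu)
      rwa [Function.update_of_ne (by rintro rfl; exact hv hu)] at this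
  · rintro ⟨h1, h2⟩ u hu
    rw [Finset.mem_insert] at hu
    rcases hu with rfl | hu
    · rw [Function.update_self]
      exact fun h' => h1 h'.symm
    · rw [Function.update_of_ne (by rintro rfl; exact hv hu)]
      exact h2 u hu

/-- Unused hosts after a move. -/
theorem unused_rehost {R : RT V} {D : Finset V} {f : V → V} {M : Finset (Sym2 V)}
    (h : Emb R D f M) {v w : V} (hv : v ∈ D) (hw : w ∈ unused D f) :
    unused D (Function.update f v w) = insert (f v) ((unused D f).erase w) := by
  ext x
  rw [Finset.mem_insert, Finset.mem_erase, mem_unused, mem_unused]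
  rw [mem_unused] at hw
  constructor
  · intro h'
    by_cases hx : x = f v
    · left; exact hx
    · right
      refine ⟨?_, ?_⟩
      · have := h' v hv
        rw [Function.update_self] at this
        exact fun h'' => this h''.symm
      · intro u hu
        by_cases huv : u = v
        · rw [huv]; exact fun h'' => hx h''.symm
        · have := h' u hu
          rwa [Function.update_of_ne huv] at this
  · rintro (rfl | ⟨h1, h2⟩) u hu
    · by_cases huv : u = v
      · rw [huv, Function.update_self]
        exact fun h'' => hw v hv h''.symm
      · rw [Function.update_of_ne huv]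
        exact fun h'' => huv (h.inj hu hv h'')
    · by_cases huv : u = v
      · rw [huv, Function.update_self]
        exact fun h' => h1 h'.symm
      · rw [Function.update_of_ne huv]
        exact h2 u hu

/-- Owning a complete embedding wins. -/
def Goal (R : RT V) (F : Set (Finset (Sym2 V))) : Prop :=
  ∀ (f : V → V) (M : Finset (Sym2 V)), Function.Injective f →
    (∀ v, v ≠ R.r → s(f (R.par v), f v) ∈ M) → ∃ A ∈ F, A ⊆ M

theorem Emb.win {R : RT V} {F : Set (Finset (Sym2 V))} (hF : Goal R F) {D : Finset V} {f : V → V}
    {M B : Finset (Sym2 V)} (h : Emb R D f M) (hD : ∀ v, v ∈ D) : Win F M B := by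
  obtain ⟨A, hA, hAM⟩ := hF f M (fun a b hab => h.inj (hD a) (hD b) hab)
    (fun v hv => h.edge v (hD v) hv)
  exact Win.done hA hAM

/-- If something is unplaced, then some unplaced vertex has a placed parent. -/
theorem Emb.exists_open {R : RT V} {D : Finset V} {f : V → V}
    {M : Finset (Sym2 V)} (h : Emb R D f M) {P : V → Prop} (hP : ∀ v, P v → v ∉ D → R.par v ∉ D → P (R.par v))
    {v : V} (hv : v ∉ D) (hPv : P v) : ∃ u, u ∉ D ∧ R.par u ∈ D ∧ P u := by
  induction hd : R.dep v using Nat.strong_induction_on generalizing v with
  | _ d ih =>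
    by_cases hp : R.par v ∈ D
    · exact ⟨v, hv, hp, hPv⟩
    · have := R.dep_par v (h.ne_root hv)
      exact ih (R.dep (R.par v)) (by omega) hp (hP v hPv hv hp) rfl

/-- `p` is placed and has an unplaced child. -/
def IsOpen (R : RT V) (D : Finset V) (p : V) : Prop := p ∈ D ∧ ∃ c ∈ R.ch p, c ∉ D

end Pool.Agent.Lib.MP_9916e0_co
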