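import Pool.Agent.Lib.MP_9916e0_co.Windows

set_option autoImplicit false
set_option linter.unusedSectionVars false

namespace Pool.Agent.Lib.MP_9916e0_co

variable {V : Type*} [Fintype V] [DecidableEq V]

/-- Heavy placed vertices of `C`, counted with their placed children. -/
def Qh (R : RT V) (C : Finset V) (a : ℕ) (D : Finset V) (f : V → V) (B : Finset (Sym2 V)) : ℕ :=
  ∑ p ∈ D.filter (fun p => p ∈ C ∧ a ≤ dg B (f p)), (1 + (R.ch p ∩ D).card)

section Qh

variable {R : RT V} {C : Finset V} {a : ℕ} {D D' : Finset V} {f f' : V → V} {B B' : Finset (Sym2 V)}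

theorem Qh_filter_subset (hD : D ⊆ D') (hB : B ⊆ B')
    (hf : ∀ p ∈ D, p ∈ C → a ≤ dg B (f p) → f' p = f p) :
    D.filter (fun p => p ∈ C ∧ a ≤ dg B (f p)) ⊆ D'.filter (fun p => p ∈ C ∧ a ≤ dg B' (f' p)) := by
  intro p hp
  rw [Finset.mem_filter] at hp ⊢
  refine ⟨hD hp.1, hp.2.1, ?_⟩
  rw [hf p hp.1 hp.2.1 hp.2.2]
  exact hp.2.2.trans (dg_mono hB _)

theorem Qh_mono (hD : D ⊆ D') (hB : B ⊆ B')
    (hf : ∀ p ∈ D, p ∈ C → a ≤ dg B (f p) → f' p = f p) :
    Qh R C a D f B ≤ Qh R C a D' f' B' := by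
  unfold Qh
  calc _ ≤ ∑ p ∈ D.filter (fun p => p ∈ C ∧ a ≤ dg B (f p)), (1 + (R.ch p ∩ D').card) := by
        apply Finset.sum_le_sum
        intro p _
        have := Finset.card_le_card (Finset.inter_subset_inter (Finset.Subset.refl (R.ch p)) hD)
        omega
    _ ≤ _ := Finset.sum_le_sum_of_subset (Qh_filter_subset hD hB hf)

theorem Qh_lt_new (hD : D ⊆ D') (hB : B ⊆ B')
    (hf : ∀ p ∈ D, p ∈ C → a ≤ dg B (f p) → f' p = f p)
    {p : V} (hp : p ∈ D') (hpC : p ∈ C) (hpa : a ≤ dg B' (f' p)) (hnew : p ∉ D ∨ dg B (f p) < a) :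
    Qh R C a D f B + 1 ≤ Qh R C a D' f' B' := by
  unfold Qh
  have h1 := Qh_filter_subset (C := C) (a := a) hD hB hf
  have h2 : p ∉ D.filter (fun p => p ∈ C ∧ a ≤ dg B (f p)) := by
    rw [Finset.mem_filter]
    rintro ⟨h3, _, h4⟩
    rcases hnew with h5 | h5
    · exact h5 h3
    · omega
  have h3 : insert p (D.filter (fun p => p ∈ C ∧ a ≤ dg B (f p))) ⊆
      D'.filter (fun p => p ∈ C ∧ a ≤ dg B' (f' p)) := by
    intro x hx
    rw [Finset.mem_insert] at hx
    rcases hx with rfl | hx
    · exact Finset.mem_filter.mpr ⟨hp, hpC, hpa⟩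
    · exact h1 hx
  calc _ ≤ (∑ p ∈ D.filter (fun p => p ∈ C ∧ a ≤ dg B (f p)), (1 + (R.ch p ∩ D').card)) +
        (1 + (R.ch p ∩ D').card) := by
        apply Nat.add_le_add
        · apply Finset.sum_le_sum
          intro p _
          have := Finset.card_le_card (Finset.inter_subset_inter (Finset.Subset.refl (R.ch p)) hD)
          omega
        · omega
    _ = ∑ p ∈ insert p (D.filter (fun p => p ∈ C ∧ a ≤ dg B (f p))), (1 + (R.ch p ∩ D').card) := by
        rw [Finset.sum_insert h2, Nat.add_comm]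
    _ ≤ _ := Finset.sum_le_sum_of_subset h3

theorem Qh_lt_child (hD : D ⊆ D') (hB : B ⊆ B')
    (hf : ∀ p ∈ D, p ∈ C → a ≤ dg B (f p) → f' p = f p)
    {p : V} (hp : p ∈ D) (hpC : p ∈ C) (hpa : a ≤ dg B (f p)) {c : V} (hc : c ∈ R.ch p)
    (hcD : c ∉ D) (hcD' : c ∈ D') :
    Qh R C a D f B + 1 ≤ Qh R C a D' f' B' := by
  unfold Qh
  have h1 := Qh_filter_subset (C := C) (a := a) hD hB hf
  calc _ ≤ ∑ p ∈ D.filter (fun p => p ∈ C ∧ a ≤ dg B (f p)), (1 + (R.ch p ∩ D').card) := by
        apply Nat.succ_le_of_lt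
        apply Finset.sum_lt_sum
        · intro p _
          have := Finset.card_le_card (Finset.inter_subset_inter (Finset.Subset.refl (R.ch p)) hD)
          omega
        · refine ⟨p, Finset.mem_filter.mpr ⟨hp, hpC, hpa⟩, ?_⟩
          have : (R.ch p ∩ D).card < (R.ch p ∩ D').card := by
            apply Finset.card_lt_card
            refine ⟨Finset.inter_subset_inter (Finset.Subset.refl _) hD, ?_⟩
            intro hsub
            have := hsub (Finset.mem_inter.mpr ⟨hc, hcD'⟩)
            exact hcD (Finset.mem_inter.mp this).2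
          omega
    _ ≤ _ := Finset.sum_le_sum_of_subset h1

theorem Qh_le {Δ : ℕ} (hdeg : ∀ v, (R.ch v).card ≤ Δ) (hinj : Set.InjOn f D) :
    Qh R C a D f B ≤ (1 + Δ) * (hvy a B).card := by
  unfold Qh
  calc _ ≤ ∑ _p ∈ D.filter (fun p => p ∈ C ∧ a ≤ dg B (f p)), (1 + Δ) := by
        apply Finset.sum_le_sum
        intro p _
        have := Finset.card_le_card (Finset.inter_subset_left (s₁ := R.ch p) (s₂ := D))
        have := hdeg p
        omega
    _ = (D.filter (fun p => p ∈ C ∧ a ≤ dg B (f p))).card * (1 + Δ) := by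
        rw [Finset.sum_const, smul_eq_mul]
    _ ≤ (hvy a B).card * (1 + Δ) := by
        apply Nat.mul_le_mul_right
        apply Finset.card_le_card_of_injOn f
        · intro p hp
          rw [Finset.mem_coe, Finset.mem_filter] at hp
          exact mem_hvy.mpr hp.2.2
        · intro x hx y hy hxy
          rw [Finset.mem_coe, Finset.mem_filter] at hx hy
          exact hinj hx.1 hy.1 hxy
    _ = _ := Nat.mul_comm _ _

end Qh

/-- Indices `c` of a list of hosts Breaker-adjacent to `u`. -/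
theorem card_idx {I : Finset ℕ} {y : ℕ → V} (hy : Set.InjOn y I) (u : V) (B : Finset (Sym2 V)) :
    (I.filter fun c => s(u, y c) ∈ B).card ≤ dg B u := by
  apply Finset.card_le_card_of_injOn y
  · intro c hc
    rw [Finset.mem_coe, Finset.mem_filter] at hc
    exact mem_nb.mpr hc.2
  · intro c hc c' hc' h
    rw [Finset.mem_coe, Finset.mem_filter] at hc hc'
    exact hy hc.1 hc'.1 h

/-- Indices which have become Breaker-adjacent to `u`. -/
theorem card_idx_new {m : ℕ} {M B M' B' : Finset (Sym2 V)} (hE : Ext m M B M' B')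
    {I : Finset ℕ} {y : ℕ → V} (hy : Set.InjOn y I) {u : V} (hu : ∀ c ∈ I, s(u, y c) ∉ B) :
    (I.filter fun c => s(u, y c) ∈ B').card ≤ m := by
  refine le_trans ?_ (card_sdiff_ext hE)
  apply Finset.card_le_card_of_injOn (fun c => s(u, y c))
  · intro c hc
    rw [Finset.mem_coe, Finset.mem_filter] at hc
    rw [Finset.mem_coe, Finset.mem_sdiff]
    exact ⟨hc.2, hu c hc.1⟩
  · intro c hc c' hc' h
    rw [Finset.mem_coe, Finset.mem_filter] at hc hc'
    simp only [Sym2.eq_iff] at h
    rcases h with ⟨_, h⟩ | ⟨h, h'⟩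
    · exact hy hc.1 hc'.1 h
    · exact hy hc.1 hc'.1 (h'.trans h)

/-- Re-host a window with the help of the unused host `w`. -/
theorem Emb.rewindow {R : RT V} {D : Finset V} {f : V → V} {M : Finset (Sym2 V)} (h : Emb R D f M)
    {k : ℕ} {t : ℕ → V} (hW : Wd R k t) (hk : 1 ≤ k) (hD : ∀ i < k, t i ∈ D) {w : V}
    (hw : w ∈ unused D f) (g : ℕ → V) (hg0 : g 0 = f (t 0)) (hgk : g (k - 1) = f (t (k - 1)))
    (hedge : ∀ i, i + 1 < k → s(g i, g (i + 1)) ∈ M)
    (hinj : ∀ i < k, ∀ j < k, g i = g j → i = j)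
    (hval : ∀ i < k, g i = w ∨ ∃ j < k, g i = f (t j)) :
    ∃ f' : V → V, Emb R D f' M ∧ (∀ i < k, f' (t i) = g i) ∧
      (∀ v, (∀ i < k, v ≠ t i) → f' v = f v) := by
  classical
  set W : Finset V := (Finset.range k).image t with hWdef
  have hmem : ∀ v, v ∈ W ↔ ∃ i < k, t i = v := by
    intro v
    rw [hWdef, Finset.mem_image]
    simp only [Finset.mem_range]
  set f' : V → V := fun v => if v ∈ W then g (R.dep v - R.dep (t 0)) else f v with hf'
  have h1 : ∀ i < k, f' (t i) = g i := by
    intro i hi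
    have : t i ∈ W := (hmem _).mpr ⟨i, hi, rfl⟩
    simp only [hf', if_pos this]
    congr 1
    have := hW.dep_eq (i := i) (by omega)
    omega
  have h2 : ∀ v, v ∉ W → f' v = f v := by
    intro v hv
    simp only [hf', if_neg hv]
  refine ⟨f', ⟨h.root, h.closed, ?_, ?_⟩, h1, ?_⟩
  · rw [mem_unused] at hw
    intro a ha b hb hab
    rw [Finset.mem_coe] at ha hb
    by_cases haW : a ∈ W
    · obtain ⟨i, hi, rfl⟩ := (hmem a).mp haW
      by_cases hbW : b ∈ W
      · obtain ⟨j, hj, rfl⟩ := (hmem b).mp hbW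
        rw [h1 i hi, h1 j hj] at hab
        rw [hinj i hi j hj hab]
      · rw [h1 i hi, h2 b hbW] at hab
        rcases hval i hi with h3 | ⟨j, hj, h3⟩
        · rw [h3] at hab; exact absurd hab.symm (hw b hb)
        · rw [h3] at hab
          exact absurd ((hmem b).mpr ⟨j, hj, h.inj (hD j hj) hb hab⟩) hbW
    · by_cases hbW : b ∈ W
      · obtain ⟨j, hj, rfl⟩ := (hmem b).mp hbW
        rw [h1 j hj, h2 a haW] at hab
        rcases hval j hj with h3 | ⟨i, hi, h3⟩
        · rw [h3] at hab; exact absurd hab (hw a ha)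
        · rw [h3] at hab
          exact absurd ((hmem a).mpr ⟨i, hi, (h.inj ha (hD i hi) hab).symm⟩) haW
      · rw [h2 a haW, h2 b hbW] at hab
        exact h.inj ha hb hab
  · intro v hv hr
    by_cases hvW : v ∈ W
    · obtain ⟨i, hi, rfl⟩ := (hmem v).mp hvW
      rcases Nat.eq_zero_or_pos i with rfl | hi0
      · have hp : R.par (t 0) ∉ W := by
          intro hp
          obtain ⟨j, hj, hj'⟩ := (hmem _).mp hp
          have h3 := hW.dep_eq (i := j) (by omega)
          have h4 := R.dep_par (t 0) hr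
          rw [hj'] at h3
          omega
        rw [h1 0 hi, h2 _ hp, hg0]
        exact h.edge _ hv hr
      · obtain ⟨j, rfl⟩ : ∃ j, i = j + 1 := ⟨i - 1, by omega⟩
        rw [hW.par_eq (by omega), h1 j (by omega), h1 (j + 1) hi]
        exact hedge j hi
    · rw [h2 v hvW]
      by_cases hp : R.par v ∈ W
      · obtain ⟨i, hi, hi'⟩ := (hmem _).mp hp
        have h3 : v ∈ R.ch (t i) := RT.mem_ch.mpr ⟨hr, hi'.symm⟩
        rw [hW i hi, Finset.mem_singleton] at h3
        have h4 : i + 1 = k := by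
          by_contra hcon
          exact hvW ((hmem v).mpr ⟨i + 1, by omega, h3.symm⟩)
        rw [← hi', h1 i hi]
        have h5 : i = k - 1 := by omega
        rw [h5, hgk, ← h5, hi']
        exact h.edge v hv hr
      · rw [h2 _ hp]
        exact h.edge v hv hr
  · intro v hv
    apply h2
    intro hvW
    obtain ⟨i, hi, hi'⟩ := (hmem v).mp hvW
    exact hv i hi hi'.symm

/-- Re-host a window through an index map `σ`, the position `pos` receiving `w`. -/
theorem Emb.rotate {R : RT V} {D : Finset V} {f : V → V} {M : Finset (Sym2 V)} (h : Emb R D f M)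
    {k : ℕ} {t : ℕ → V} (hW : Wd R k t) (hD : ∀ i < k, t i ∈ D) {w : V}
    (hw : w ∈ unused D f) (σ : ℕ → ℕ) (pos z : ℕ) (hpos0 : 0 < pos) (hposk : pos + 1 < k) (hz : z < k)
    (hσk : ∀ m < k, σ m < k) (hσz : ∀ m < k, m ≠ pos → σ m ≠ z)
    (hσinj : ∀ m < k, ∀ m' < k, m ≠ pos → m' ≠ pos → σ m = σ m' → m = m')
    (hσ0 : σ 0 = 0) (hσl : σ (k - 1) = k - 1)
    (hedge : ∀ m, m + 1 < k → m ≠ pos → m + 1 ≠ pos → s(f (t (σ m)), f (t (σ (m + 1)))) ∈ M)
    (hedge1 : s(f (t (σ (pos - 1))), w) ∈ M) (hedge2 : s(w, f (t (σ (pos + 1)))) ∈ M) :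
    ∃ f' : V → V, Emb R D f' M ∧ f' (t 0) = f (t 0) ∧ f' (t (k - 1)) = f (t (k - 1)) ∧
      (∀ v, (∀ i < k, v ≠ t i) → f' v = f v) ∧
      unused D f' = insert (f (t z)) ((unused D f).erase w) := by
  classical
  have hwu := hw
  rw [mem_unused] at hwu
  set g : ℕ → V := fun m => if m = pos then w else f (t (σ m)) with hg
  have hgpos : g pos = w := by simp [hg]
  have hgne : ∀ m, m ≠ pos → g m = f (t (σ m)) := by
    intro m hm; simp [hg, hm]
  have hft : ∀ i < k, ∀ j < k, f (t i) = f (t j) → i = j := by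
    intro i hi j hj hij
    exact hW.inj (by omega) (by omega) (h.inj (hD i hi) (hD j hj) hij)
  obtain ⟨f', hemb, hf1, hf2⟩ := h.rewindow hW (by omega) hD hw g
    (by rw [hgne 0 (by omega), hσ0]) (by rw [hgne (k - 1) (by omega), hσl])
    (by
      intro i hi
      by_cases h1 : i = pos
      · rw [h1, hgpos, hgne (pos + 1) (by omega)]
        exact hedge2
      · by_cases h2 : i + 1 = pos
        · rw [h2, hgpos, hgne i h1]
          have : i = pos - 1 := by omega
          rw [this]
          exact hedge1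
        · rw [hgne i h1, hgne (i + 1) h2]
          exact hedge i hi h1 h2)
    (by
      intro i hi j hj hij
      by_cases h1 : i = pos
      · by_cases h2 : j = pos
        · omega
        · rw [h1, hgpos, hgne j h2] at hij
          exact absurd hij.symm (hwu _ (hD _ (hσk j hj)))
      · by_cases h2 : j = pos
        · rw [h2, hgpos, hgne i h1] at hij
          exact absurd hij (hwu _ (hD _ (hσk i hi)))
        · rw [hgne i h1, hgne j h2] at hij
          exact hσinj i hi j hj h1 h2 (hft _ (hσk i hi) _ (hσk j hj) hij))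
    (by
      intro i hi
      by_cases h1 : i = pos
      · left; rw [h1, hgpos]
      · right; exact ⟨σ i, hσk i hi, hgne i h1⟩)
  refine ⟨f', hemb, ?_, ?_, hf2, ?_⟩
  · rw [hf1 0 (by omega), hgne 0 (by omega), hσ0]
  · rw [hf1 (k - 1) (by omega), hgne (k - 1) (by omega), hσl]
  · -- by cardinality
    have hsub : insert (f (t z)) ((unused D f).erase w) ⊆ unused D f' := by
      intro x hx
      rw [Finset.mem_insert, Finset.mem_erase, mem_unused] at hx
      rw [mem_unused]
      intro u hu hux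
      by_cases huW : ∃ i < k, u = t i
      · obtain ⟨i, hi, rfl⟩ := huW
        rw [hf1 i hi] at hux
        by_cases h1 : i = pos
        · rw [h1, hgpos] at hux
          rcases hx with hx | hx
          · exact hwu _ (hD z hz) (hx.symm.trans hux.symm)
          · exact hx.1 hux.symm
        · rw [hgne i h1] at hux
          rcases hx with hx | hx
          · rw [hx] at hux
            exact hσz i hi h1 (hft _ (hσk i hi) _ hz hux)
          · exact hx.2 _ (hD _ (hσk i hi)) hux
      · push Not at huW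
        rw [hf2 u huW] at hux
        rcases hx with hx | hx
        · rw [hx] at hux
          exact huW z hz (h.inj hu (hD z hz) hux)
        · exact hx.2 u hu hux
    symm
    apply Finset.eq_of_subset_of_card_le hsub
    have e1 := h.card_unused
    have e2 := hemb.card_unused
    have e3 : f (t z) ∉ (unused D f).erase w := by
      rw [Finset.mem_erase]
      rintro ⟨_, h1⟩
      exact not_unused (hD z hz) h1
    rw [Finset.card_insert_of_notMem e3, Finset.card_erase_of_mem hw]
    have : 0 < (unused D f).card := Finset.card_pos.mpr ⟨w, hw⟩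
    omega

end Pool.Agent.Lib.MP_9916e0_co
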