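import Pool.Agent.Lib.MP_9916e0_co.Defs

set_option autoImplicit false
set_option linter.unusedSectionVars false

namespace Pool.Agent.Lib.MP_9916e0_co

/-! ### Internal version of the game -/

section internal

variable {V : Type*} [Fintype V] [DecidableEq V]

/-- Non-diagonal pairs. -/
def brd (V : Type*) [Fintype V] [DecidableEq V] : Finset (Sym2 V) :=
  Finset.univ.filter fun e => ¬ e.IsDiag

/-- A position: disjoint claimed sets, Maker has not claimed more than Breaker. -/
structure Ok (M B : Finset (Sym2 V)) : Prop where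
  disj : Disjoint M B
  card_le : M.card ≤ B.card

/-- `(M', B')` arises from `(M, B)` by adding edges, at most `m` of them Breaker's. -/
structure Ext (m : ℕ) (M B M' B' : Finset (Sym2 V)) : Prop where
  subM : M ⊆ M'
  subB : B ⊆ B'
  card_le : B'.card ≤ B.card + m
  ok : Ok M' B'

theorem Ext.trans {m m' : ℕ} {M B M' B' M'' B'' : Finset (Sym2 V)} (h : Ext m M B M' B')
    (h' : Ext m' M' B' M'' B'') : Ext (m + m') M B M'' B'' where
  subM := h.subM.trans h'.subM
  subB := h.subB.trans h'.subB
  card_le := by have := h.card_le; have := h'.card_le; omega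
  ok := h'.ok

theorem Ext.mono {m m' : ℕ} {M B M' B' : Finset (Sym2 V)} (h : Ext m M B M' B') (hm : m ≤ m') :
    Ext m' M B M' B' where
  subM := h.subM
  subB := h.subB
  card_le := h.card_le.trans (by omega)
  ok := h.ok

theorem Ext.refl {M B : Finset (Sym2 V)} (h : Ok M B) : Ext 0 M B M B where
  subM := subset_rfl
  subB := subset_rfl
  card_le := le_rfl
  ok := h

/-- Maker (to move) wins. -/
def Win (F : Set (Finset (Sym2 V))) (M B : Finset (Sym2 V)) : Prop :=
  MakerWins (brd V) F true M B

theorem Win.done {F : Set (Finset (Sym2 V))} {M B A : Finset (Sym2 V)} (hA : A ∈ F) (h : A ⊆ M) :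
    Win F M B := MakerWins.done _ _ _ A hA h

/-- The basic move: Maker makes sure that he owns the edge `ab`. -/
theorem ensure {F : Set (Finset (Sym2 V))} {M B : Finset (Sym2 V)} (hok : Ok M B)
    (room : 2 * B.card + 2 ≤ (brd V).card) {a b : V} (hne : a ≠ b) (hB : s(a, b) ∉ B)
    (h : ∀ M' B', s(a, b) ∈ M' → Ext 1 M B M' B' → Win F M' B') : Win F M B := by
  by_cases hM : s(a, b) ∈ M
  · exact h M B hM ((Ext.refl hok).mono (by omega))
  · refine MakerWins.maker _ _ s(a, b) ?_ hM hB ?_
    · simp [brd, hne]
    · refine MakerWins.breaker _ _ ?_ ?_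
      · by_contra hcon
        push Not at hcon
        have hsub : brd V ⊆ insert s(a, b) M ∪ B := by
          intro e he
          by_cases h1 : e ∈ insert s(a, b) M
          · exact Finset.mem_union_left _ h1
          · exact Finset.mem_union_right _ (hcon e he h1)
        have h1 := Finset.card_le_card hsub
        have h2 := Finset.card_union_le (insert s(a, b) M) B
        have h3 := Finset.card_insert_le s(a, b) M
        have h4 := hok.card_le
        omega
      · intro e he heM heB
        refine h _ _ (Finset.mem_insert_self _ _) ⟨Finset.subset_insert _ _, Finset.subset_insert _ _,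
          ?_, ?_, ?_⟩
        · exact Finset.card_insert_le _ _
        · rw [Finset.disjoint_insert_right]
          refine ⟨heM, ?_⟩
          rw [Finset.disjoint_insert_left]
          exact ⟨hB, hok.disj⟩
        · rw [Finset.card_insert_of_notMem heB]
          have := Finset.card_insert_le s(a, b) M
          have := hok.card_le
          omega

/-- A genuinely new edge. -/
theorem claim {F : Set (Finset (Sym2 V))} {M B : Finset (Sym2 V)} (hok : Ok M B)
    (room : 2 * B.card + 2 ≤ (brd V).card) {a b : V} (hne : a ≠ b) (hB : s(a, b) ∉ B)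
    (h : ∀ M' B', s(a, b) ∈ M' → Ext 1 M B M' B' → Win F M' B') : Win F M B :=
  ensure hok room hne hB h

/-- Two distinct edges outside `B`; after one more Breaker edge one of them is still outside. -/
theorem two_choices {m : ℕ} (hm : m ≤ 1) {M B M' B' : Finset (Sym2 V)} (hE : Ext m M B M' B')
    {e₁ e₂ : Sym2 V} (h12 : e₁ ≠ e₂) (h1 : e₁ ∉ B) (h2 : e₂ ∉ B) : e₁ ∉ B' ∨ e₂ ∉ B' := by
  by_contra hcon
  push Not at hcon
  obtain ⟨h3, h4⟩ := hcon
  have hsub : insert e₁ (insert e₂ B) ⊆ B' := by
    intro x hx
    rw [Finset.mem_insert, Finset.mem_insert] at hx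
    rcases hx with rfl | rfl | hx
    · exact h3
    · exact h4
    · exact hE.subB hx
  have hc := Finset.card_le_card hsub
  rw [Finset.card_insert_of_notMem, Finset.card_insert_of_notMem h2] at hc
  · have := hE.card_le
    omega
  · rw [Finset.mem_insert]
    rintro (h | h)
    · exact h12 h
    · exact h1 h

/-- Two disjoint groups of edges outside `B`; after one more Breaker edge one group is untouched. -/
theorem two_groups {m : ℕ} (hm : m ≤ 1) {M B M' B' : Finset (Sym2 V)} (hE : Ext m M B M' B')
    (G₁ G₂ : Finset (Sym2 V)) (h12 : Disjoint G₁ G₂) (h1 : Disjoint G₁ B) (h2 : Disjoint G₂ B) :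
    Disjoint G₁ B' ∨ Disjoint G₂ B' := by
  by_contra hcon
  push Not at hcon
  obtain ⟨h3, h4⟩ := hcon
  rw [Finset.not_disjoint_iff] at h3 h4
  obtain ⟨e₁, he1, he1'⟩ := h3
  obtain ⟨e₂, he2, he2'⟩ := h4
  have hne : e₁ ≠ e₂ := by
    rintro rfl
    exact Finset.disjoint_left.mp h12 he1 he2
  rcases two_choices hm hE hne (Finset.disjoint_left.mp h1 he1) (Finset.disjoint_left.mp h2 he2) with
    h | h
  · exact h he1'
  · exact h he2'

end internal

end Pool.Agent.Lib.MP_9916e0_co
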