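import Pool.Agent.Lib.MP_9916e0_co.Safe

set_option autoImplicit false
set_option linter.unusedSectionVars false
set_option linter.unusedVariables false

namespace Pool.Agent.Lib.MP_9916e0_co

variable {V : Type*} [Fintype V] [DecidableEq V]

/-- The leaf children. -/
def lc (R : RT V) (p : V) : Finset V := R.ch p ∩ lvs R

/-- Data of the leaf engine. -/
structure LP (V : Type*) [Fintype V] [DecidableEq V] where
  R : RT V
  a : ℕ
  Δ : ℕ
  c : ℕ
  s : ℕ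
  τ : ℕ
  g : ℕ
  o : ℕ
  u : ℕ
  NL : ℕ
  Na : ℕ
  ω : ℕ
  L : ℕ
  Pl : Finset V
  H0 : Finset V
  Fz : Finset V
  Z : Finset V
  O : V → Finset V

/-- The internal (childful) tree vertices. -/
def LP.Int (P : LP V) : Finset V := Finset.univ \ lvs P.R

/-- Admissible data. -/
structure LP.Good (P : LP V) : Prop where
  deg : ∀ v, (P.R.ch v).card ≤ P.Δ
  room : 10 * Fintype.card V + 20 ≤ (brd V).card
  h1 : 200 * (1 + P.Δ) ≤ P.a
  h2 : 1000 * (Fintype.card V * (1 + P.Δ)) ≤ P.a * P.a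
  s20 : 20 ≤ P.s
  hsa : 100 * Fintype.card V ≤ P.s * P.a
  hcn : 2 * P.c ≤ Fintype.card V
  hca : 2 * P.c ≤ P.a
  c3 : 3 ≤ P.c
  aL : 32 * P.a ≤ P.L
  nL : Fintype.card V ≤ P.NL * P.L
  na : Fintype.card V ≤ P.Na * P.a
  Naa : 10 * P.Na ≤ P.a
  cw : 80 * P.NL * P.Δ ≤ P.a
  gG : P.u + 80 * P.NL + 2 ≤ P.g
  oo : P.τ + P.s * (P.g + 3) + P.g ≤ P.o
  uu : 80 * P.NL + 10 * P.Na ≤ P.u
  zL : P.Z.card ≤ P.a
  ω1 : 1 ≤ P.ω
  ωΔ : P.ω ≤ P.Δ
  Pl_int : ∀ p ∈ P.Pl, P.R.ch p ≠ ∅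
  Pl_le : ∀ p ∈ P.Pl, (lc P.R p).card ≤ P.ω
  L_eq : P.L = ∑ p ∈ P.Pl, (lc P.R p).card
  H0_ge : ∀ h ∈ P.H0, P.ω ≤ (lc P.R h).card
  Fz_lvs : ∀ v ∈ P.Fz, P.R.ch v = ∅
  Fz_card : P.Fz.card ≤ 1
  own : Own P.O
  osub : ∀ v, P.O v ⊆ P.Z
  obig : ∀ v, P.O v = ∅ ∨ P.o ≤ (P.O v).card

theorem lc_pos_int {R : RT V} {h : V} (hc : 0 < (lc R h).card) : R.ch h ≠ ∅ := by
  intro h'
  unfold lc at hc
  rw [h'] at hc
  simp at hc

theorem LP.Good.H0_int {P : LP V} (hP : P.Good) {h : V} (hh : h ∈ P.H0) : P.R.ch h ≠ ∅ := by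
  apply lc_pos_int
  have := hP.H0_ge h hh
  have := hP.ω1
  omega

theorem LP.mem_Int {P : LP V} {v : V} : v ∈ P.Int ↔ P.R.ch v ≠ ∅ := by
  unfold LP.Int
  simp [mem_lvs]

/-- Weight of the hubs blocked from `v`. -/
def bw (P : LP V) (f : V → V) (B : Finset (Sym2 V)) (v : V) : ℕ :=
  ∑ p ∈ P.Pl.filter (fun p => s(f p, v) ∈ B), (lc P.R p).card

theorem bw_mono {P : LP V} {f f' : V → V} {B B' : Finset (Sym2 V)} (hB : B ⊆ B')
    (hf : ∀ p ∈ P.Pl, f' p = f p) (v : V) : bw P f B v ≤ bw P f' B' v := by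
  unfold bw
  apply Finset.sum_le_sum_of_subset
  intro p hp
  rw [Finset.mem_filter] at hp ⊢
  refine ⟨hp.1, ?_⟩
  rw [hf p hp.1]
  exact hB hp.2

theorem sum_bw_le {P : LP V} (hP : P.Good) {f : V → V} {B : Finset (Sym2 V)}
    (hinj : Set.InjOn f P.Pl) : ∑ v, bw P f B v ≤ P.ω * (2 * B.card) := by
  have h1 : ∑ v, bw P f B v = ∑ p ∈ P.Pl, (lc P.R p).card * dg B (f p) := by
    unfold bw
    simp_rw [Finset.sum_filter]
    rw [Finset.sum_comm]
    apply Finset.sum_congr rfl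
    intro p _
    rw [← Finset.sum_filter, Finset.sum_const, smul_eq_mul, Nat.mul_comm]
    rfl
  rw [h1]
  calc _ ≤ ∑ p ∈ P.Pl, P.ω * dg B (f p) := by
        apply Finset.sum_le_sum
        intro p hp
        exact Nat.mul_le_mul_right _ (hP.Pl_le p hp)
    _ = P.ω * ∑ p ∈ P.Pl, dg B (f p) := by rw [Finset.mul_sum]
    _ ≤ P.ω * ∑ v, dg B v := by
        apply Nat.mul_le_mul_left
        rw [← Finset.sum_image (f := dg B) (g := f) hinj]
        exact Finset.sum_le_sum_of_subset (Finset.subset_univ _)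
    _ ≤ _ := Nat.mul_le_mul_left _ (sum_dg_le B)

/-- One new Breaker edge raises the weight by at most `ω`, `m` edges by at most `m ω`. -/
theorem bw_ext {P : LP V} (hP : P.Good) {f : V → V} {m : ℕ} {M B M' B' : Finset (Sym2 V)}
    (hE : Ext m M B M' B') (hinj : Set.InjOn f P.Pl) (v : V) :
    bw P f B' v ≤ bw P f B v + m * P.ω := by
  unfold bw
  have h1 : P.Pl.filter (fun p => s(f p, v) ∈ B') ⊆ P.Pl.filter (fun p => s(f p, v) ∈ B) ∪
      P.Pl.filter (fun p => s(f p, v) ∈ B' \ B) := by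
    intro p hp
    rw [Finset.mem_filter] at hp
    by_cases h : s(f p, v) ∈ B
    · exact Finset.mem_union_left _ (Finset.mem_filter.mpr ⟨hp.1, h⟩)
    · exact Finset.mem_union_right _ (Finset.mem_filter.mpr ⟨hp.1, Finset.mem_sdiff.mpr ⟨hp.2, h⟩⟩)
  have h2 : (P.Pl.filter (fun p => s(f p, v) ∈ B' \ B)).card ≤ m := by
    refine le_trans ?_ (card_sdiff_ext hE)
    apply Finset.card_le_card_of_injOn (fun p => s(f p, v))
    · intro p hp
      rw [Finset.mem_coe, Finset.mem_filter] at hp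
      exact hp.2
    · intro p hp q hq h
      rw [Finset.mem_coe, Finset.mem_filter] at hp hq
      simp only [Sym2.eq_iff] at h
      rcases h with ⟨h, _⟩ | ⟨h, h'⟩
      · exact hinj hp.1 hq.1 h
      · exact hinj hp.1 hq.1 (h.trans h')
  calc _ ≤ ∑ p ∈ P.Pl.filter (fun p => s(f p, v) ∈ B) ∪
          P.Pl.filter (fun p => s(f p, v) ∈ B' \ B), (lc P.R p).card :=
        Finset.sum_le_sum_of_subset h1
    _ ≤ ∑ p ∈ P.Pl.filter (fun p => s(f p, v) ∈ B), (lc P.R p).card +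
          ∑ p ∈ P.Pl.filter (fun p => s(f p, v) ∈ B' \ B), (lc P.R p).card := by
        have := Finset.sum_union_inter (s₁ := P.Pl.filter (fun p => s(f p, v) ∈ B))
          (s₂ := P.Pl.filter (fun p => s(f p, v) ∈ B' \ B)) (f := fun p => (lc P.R p).card)
        omega
    _ ≤ _ := by
        apply Nat.add_le_add_left
        calc _ ≤ ∑ _p ∈ P.Pl.filter (fun p => s(f p, v) ∈ B' \ B), P.ω :=
              Finset.sum_le_sum fun p hp => hP.Pl_le p (Finset.mem_filter.mp hp).1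
          _ = (P.Pl.filter (fun p => s(f p, v) ∈ B' \ B)).card * P.ω := by
              rw [Finset.sum_const, smul_eq_mul]
          _ ≤ _ := Nat.mul_le_mul_right _ h2

/-- Hosts of large weight. -/
def hw8 (P : LP V) (f : V → V) (B : Finset (Sym2 V)) : Finset V :=
  Finset.univ.filter fun v => P.L ≤ 8 * bw P f B v

/-- Used hosts of weight more than a quarter. -/
def usedHw (P : LP V) (D : Finset V) (f : V → V) (B : Finset (Sym2 V)) : Finset V :=
  Finset.univ.filter fun x => x ∉ unused D f ∧ P.L < 4 * bw P f B x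

theorem mem_usedHw {P : LP V} {D : Finset V} {f : V → V} {B : Finset (Sym2 V)} {x : V} :
    x ∈ usedHw P D f B ↔ x ∉ unused D f ∧ P.L < 4 * bw P f B x := by
  unfold usedHw; simp

/-- The abstract numerical estimate. -/
theorem bounds_aux {n a Δ c s L B D A E S H : ℕ}
    (h1 : 200 * (1 + Δ) ≤ a) (h2 : 1000 * (n * (1 + Δ)) ≤ a * a) (s20 : 20 ≤ s)
    (hsa : 100 * n ≤ s * a) (hcn : 2 * c ≤ n) (hca : 2 * c ≤ a) (aL : a ≤ L)
    (hA : A ≤ (1 + Δ) * H) (hH : H * a ≤ 2 * B) (hE : E * L ≤ 8 * ((1 + Δ) * B)) (hS : S * s ≤ B)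
    (hD : D ≤ n) (hB : B ≤ 3 * (D + (A + E + S)) + c) :
    B ≤ 5 * n ∧ 3 * (A + E + S) + c ≤ a ∧ 10 * (A + E + S) ≤ a := by
  have ha : 0 < a := by omega
  have hs : 0 < s := by omega
  have e1 : (A + E) * a ≤ 10 * ((1 + Δ) * B) := by
    have : A * a ≤ 2 * ((1 + Δ) * B) := by
      calc A * a ≤ (1 + Δ) * H * a := Nat.mul_le_mul_right _ hA
        _ = (1 + Δ) * (H * a) := Nat.mul_assoc _ _ _
        _ ≤ (1 + Δ) * (2 * B) := Nat.mul_le_mul_left _ hH
        _ = _ := by ring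
    have : E * a ≤ 8 * ((1 + Δ) * B) := (Nat.mul_le_mul_left _ aL).trans hE
    rw [Nat.add_mul]
    omega
  have e2 : 20 * (A + E) ≤ B := by
    apply Nat.le_of_mul_le_mul_right (c := a) _ ha
    calc 20 * (A + E) * a = 20 * ((A + E) * a) := Nat.mul_assoc _ _ _
      _ ≤ 20 * (10 * ((1 + Δ) * B)) := Nat.mul_le_mul_left _ e1
      _ = 200 * (1 + Δ) * B := by ring
      _ ≤ a * B := Nat.mul_le_mul_right _ h1
      _ = B * a := Nat.mul_comm _ _
  have e3 : 20 * S ≤ B := by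
    calc 20 * S ≤ s * S := Nat.mul_le_mul_right _ s20
      _ = S * s := Nat.mul_comm _ _
      _ ≤ B := hS
  have e4 : B ≤ 5 * n := by omega
  have e5 : 20 * (A + E) ≤ a := by
    apply Nat.le_of_mul_le_mul_right (c := a) _ ha
    calc 20 * (A + E) * a = 20 * ((A + E) * a) := Nat.mul_assoc _ _ _
      _ ≤ 20 * (10 * ((1 + Δ) * B)) := Nat.mul_le_mul_left _ e1
      _ ≤ 20 * (10 * ((1 + Δ) * (5 * n))) := by gcongr
      _ = 1000 * (n * (1 + Δ)) := by ring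
      _ ≤ a * a := h2
  have e6 : 20 * S ≤ a := by
    apply Nat.le_of_mul_le_mul_right (c := s) _ hs
    calc 20 * S * s = 20 * (S * s) := Nat.mul_assoc _ _ _
      _ ≤ 20 * (5 * n) := Nat.mul_le_mul_left _ (hS.trans e4)
      _ = 100 * n := by ring
      _ ≤ s * a := hsa
      _ = a * s := Nat.mul_comm _ _
  omega

end Pool.Agent.Lib.MP_9916e0_co
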