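import Pool.Agent.Lib.MP_9916e0_co.LeafTwo

set_option autoImplicit false
set_option linter.unusedSectionVars false
set_option linter.unusedVariables false

namespace Pool.Agent.Lib.MP_9916e0_co

variable {V : Type*} [Fintype V] [DecidableEq V]

section

variable {P : LP V} {F : Set (Finset (Sym2 V))} {D : Finset V} {f : V → V}
  {M B : Finset (Sym2 V)}

theorem finishFill (hP : P.Good) (hI : LInv P D f M B)
    (hd0 : debtSum P.τ P.s P.g P.O M B = 0) {p u₀ : V} (hp : p ∈ D) (hu : u₀ ∈ P.R.ch p)
    (huD : u₀ ∉ D) (hprio : P.a ≤ dg B (f p) ∨ ∀ q, IsOpen P.R D q → dg B (f q) < P.a)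
    {M' B' : Finset (Sym2 V)} (hE : Ext 3 M B M' B') {f₁ : V → V} (hemb : Emb P.R D f₁ M')
    (hf₁ : ∀ v, (P.R.ch v ≠ ∅ ∨ v ∈ P.Fz) → f₁ v = f v) {x : V} (hx : x ∈ unused D f₁)
    (hsub : ∀ y ∈ unused D f₁, y ≠ x → y ∈ unused D f) (hpx : s(f p, x) ∈ M')
    (K : LCont P F D f M B) : Win F M' B' := by
  have hpar : P.R.par u₀ = p := (RT.mem_ch.mp hu).2
  have hs : 0 < P.s := by have := hP.s20; omega
  have hpi : P.R.ch p ≠ ∅ := by
    intro h
    rw [h] at hu
    simp at hu
  have emb1 := hemb.add (v := u₀) (y := x) huD (by rw [hpar]; exact hp) hx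
    (by rw [hpar, hf₁ p (Or.inl hpi)]; exact hpx)
  have hfv : ∀ v, (P.R.ch v ≠ ∅ ∨ v ∈ P.Fz) → Function.update f₁ u₀ x v = f v := by
    intro v hv
    rw [Function.update_of_ne]
    · exact hf₁ v hv
    · rintro rfl
      rcases hv with hv | hv
      · exact huD (hI.int v hv)
      · exact huD (hI.fz hv)
  obtain ⟨h1, h2⟩ := hI.step hP hE emb1 (Finset.subset_insert _ _) hfv
    (by
      intro y hy _ hy'
      rw [unused_add huD, Finset.mem_erase] at hy'
      exact hy (hsub y hy'.2 hy'.1))
    (by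
      have := debtSum_ext (τ := P.τ) (g := P.g) hP.own hs hE
      omega)
    (by
      rcases hprio with h | h
      · left
        exact Qh_lt_child (Finset.subset_insert _ _) hE.subB
          (fun q _ hq _ => hfv q (Or.inl (LP.mem_Int.mp hq))) hp (LP.mem_Int.mpr hpi) h hu huD
          (Finset.mem_insert_self _ _)
      · right; right; right
        refine ⟨?_, h⟩
        rw [Finset.card_insert_of_notMem huD])
  exact K _ _ _ _ h1 h2

/-- All leaves whose parent is in the pool class. -/
theorem card_pool (hP : P.Good) : (P.Pl.biUnion (lc P.R)).card = P.L := by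
  rw [Finset.card_biUnion, hP.L_eq]
  intro x _ y _ hxy
  exact Finset.disjoint_of_subset_left Finset.inter_subset_left
    (Finset.disjoint_of_subset_right Finset.inter_subset_left (RT.ch_disjoint hxy))

/-- Choose a placed pool leaf. -/
theorem exists_pool_leaf (hP : P.Good) (hI : LInv P D f M B) (hXc : (unused D f).card ≤ 2 * P.a)
    (S : Finset V) (T : Finset V) (E : Finset (Sym2 V)) (hc : 2 * P.a + 1 + S.card +
      ∑ w ∈ T, bw P f E w < P.L) :
    ∃ p' v', p' ∈ P.Pl ∧ v' ∈ D ∧ P.R.ch v' = ∅ ∧ v' ∉ P.Fz ∧ P.R.par v' = p' ∧ v' ≠ P.R.r ∧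
      f v' ∉ S ∧ ∀ w ∈ T, s(f p', w) ∉ E := by
  obtain ⟨v', hv', hbad⟩ := exists_avoid (X := P.Pl.biUnion (lc P.R))
    (bad := ((Finset.univ \ D) ∪ P.Fz ∪ D.filter (fun v => f v ∈ S)) ∪
      T.biUnion (fun w => (P.Pl.filter (fun p => s(f p, w) ∈ E)).biUnion (lc P.R))) (by
      rw [card_pool hP]
      have h1 := Finset.card_union_le ((Finset.univ \ D) ∪ P.Fz ∪ D.filter (fun v => f v ∈ S))
        (T.biUnion (fun w => (P.Pl.filter (fun p => s(f p, w) ∈ E)).biUnion (lc P.R)))
      have h2 := Finset.card_union_le ((Finset.univ \ D) ∪ P.Fz) (D.filter (fun v => f v ∈ S))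
      have h3 := Finset.card_union_le (Finset.univ \ D) P.Fz
      have h4 := hP.Fz_card
      have h5 : (D.filter (fun v => f v ∈ S)).card ≤ S.card := by
        apply Finset.card_le_card_of_injOn f
        · intro x hx
          rw [Finset.mem_coe, Finset.mem_filter] at hx
          exact hx.2
        · intro x hx y hy hxy
          rw [Finset.mem_coe, Finset.mem_filter] at hx hy
          exact hI.emb.inj hx.1 hy.1 hxy
      have h6 : (Finset.univ \ D : Finset V).card + D.card = Fintype.card V := by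
        have := Finset.card_sdiff_add_card_eq_card (Finset.subset_univ D)
        rw [Finset.card_univ] at this
        exact this
      have h7 := hI.emb.card_unused
      have h8 : (T.biUnion (fun w => (P.Pl.filter (fun p => s(f p, w) ∈ E)).biUnion (lc P.R))).card ≤
          ∑ w ∈ T, bw P f E w := by
        refine Finset.card_biUnion_le.trans ?_
        apply Finset.sum_le_sum
        intro w _
        exact Finset.card_biUnion_le
      omega)
  rw [Finset.mem_biUnion] at hv'
  obtain ⟨p', hp', hv'p⟩ := hv'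
  have hv'p' := hv'p
  unfold lc at hv'p
  rw [Finset.mem_inter, mem_lvs, RT.mem_ch] at hv'p
  obtain ⟨⟨hr, hpar⟩, hleaf⟩ := hv'p
  rw [Finset.mem_union, Finset.mem_union, Finset.mem_union] at hbad
  push Not at hbad
  obtain ⟨⟨⟨b1, b2⟩, b3⟩, b4⟩ := hbad
  have hD : v' ∈ D := by
    by_contra h
    exact b1 (by simp [h])
  refine ⟨p', v', hp', hD, hleaf, b2, hpar, hr, fun h => b3 (Finset.mem_filter.mpr ⟨hD, h⟩), ?_⟩
  intro w hw hE
  apply b4
  rw [Finset.mem_biUnion]
  refine ⟨w, hw, ?_⟩
  rw [Finset.mem_biUnion]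
  exact ⟨p', Finset.mem_filter.mpr ⟨hp', hE⟩, hv'p'⟩

/-- The filling macro of phase two. -/
theorem macroFill (hP : P.Good) (hI : LInv P D f M B)
    (hd0 : debtSum P.τ P.s P.g P.O M B = 0) (hno : ∀ w ∈ unused D f, 4 * bw P f B w ≤ P.L)
    {p u₀ : V} (hp : p ∈ D) (hu : u₀ ∈ P.R.ch p)
    (huD : u₀ ∉ D) (hprio : P.a ≤ dg B (f p) ∨ ∀ q, IsOpen P.R D q → dg B (f q) < P.a)
    (K : LCont P F D f M B) : Win F M B := by
  have hb := hI.bd hP
  have hs : 0 < P.s := by have := hP.s20; omega
  have hroom := hP.room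
  have hcB := hb.cardB
  have hpo : IsOpen P.R D p := ⟨hp, u₀, hu, huD⟩
  by_cases hdir : ∃ y ∈ unused D f, s(f p, y) ∉ B
  · obtain ⟨y, hy, hyB⟩ := hdir
    refine ensure hI.ok (by omega) (a := f p) (b := y) (fun h => not_unused hp (h ▸ hy)) hyB ?_
    intro M1 B1 hM1 hE1
    exact finishFill hP hI hd0 hp hu huD hprio (hE1.mono (by omega)) (hI.emb.mono hE1.subM)
      (fun _ _ => rfl) hy (fun _ h _ => h) hM1 K
  push Not at hdir
  have hdp := hb.opn p hpo
  have hXc : (unused D f).card ≤ 2 * P.a := by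
    refine le_trans (Finset.card_le_card ?_) hdp
    intro y hy
    exact mem_nb.mpr (hdir y hy)
  obtain ⟨w, hw⟩ : (unused D f).Nonempty := by
    rw [← Finset.card_pos]
    have h1 := hI.emb.card_unused
    have h2 : D.card < Fintype.card V := by
      rw [← Finset.card_univ]
      apply Finset.card_lt_card
      rw [Finset.ssubset_univ_iff]
      rintro rfl
      exact huD (Finset.mem_univ _)
    omega
  have hwb := hno w hw
  have haL := hP.aL
  have hcw := hP.cw
  have hωΔ := hP.ωΔ
  have h80 : 80 * P.NL * P.ω ≤ P.a := le_trans (Nat.mul_le_mul_left _ hωΔ) hcw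
  have hωa : P.ω ≤ P.a := by have := hP.h1; omega
  have hω1 := hP.ω1
  obtain ⟨p', v', hp', hv'D, hv'l, hv'F, hv'p, hv'r, hv'S, hv'T⟩ :=
    exists_pool_leaf hP hI hXc (nb B (f p) ∪ hw8 P f B) {w} B (by
      have h1 := Finset.card_union_le (nb B (f p)) (hw8 P f B)
      have h2 := hb.hw
      unfold dg at hdp
      rw [Finset.sum_singleton]
      omega)
  rw [Finset.mem_union, mem_nb] at hv'S
  push Not at hv'S
  have hv'w : s(f p', w) ∉ B := hv'T w (Finset.mem_singleton_self _)
  have hp'D : p' ∈ D := hI.int p' (hP.Pl_int p' hp')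
  have hx'b : 8 * bw P f B (f v') < P.L := by
    have := hv'S.2
    unfold hw8 at this
    simp only [Finset.mem_filter, Finset.mem_univ, true_and, not_le] at this
    exact this
  have hwne : ∀ v ∈ D, w ≠ f v := fun v hv h => not_unused hv (h ▸ hw)
  refine ensure hI.ok (by omega) (a := w) (b := f p') (hwne p' hp'D)
    (by rw [Sym2.eq_swap]; exact hv'w) ?_
  intro M1 B1 hM1 hE1
  have hc1 := hE1.card_le
  have hd1 := dg_ext hE1 (f p)
  have hpv' : p ≠ v' := by
    rintro rfl
    rw [hv'l] at hu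
    simp at hu
  have hpv'f : f p ≠ f v' := fun h => hpv' (hI.emb.inj hp hv'D h)
  have hnf : ∀ z, P.R.ch z = ∅ → z ∉ P.Fz → ∀ (h' : V → V) (y : V) (v : V),
      (P.R.ch v ≠ ∅ ∨ v ∈ P.Fz) → Function.update h' z y v = h' v := by
    intro z hz hzF h' y v hv
    rw [Function.update_of_ne]
    rintro rfl
    rcases hv with hv | hv
    · exact hv hz
    · exact hzF hv
  by_cases hA : s(f p, f v') ∈ B1
  · -- second leaf
    have hinjPl := hI.injPl hP
    obtain ⟨p'', v'', hp'', hv''D, hv''l, hv''F, hv''p, hv''r, hv''S, hv''T⟩ :=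
      exists_pool_leaf hP hI hXc (nb B1 (f p)) {w, f v'} B1 (by
        have h1 := bw_ext hP hE1 hinjPl w
        have h2 := bw_ext hP hE1 hinjPl (f v')
        unfold dg at hdp hd1
        rw [Finset.sum_pair (hwne v' hv'D)]
        omega)
    rw [mem_nb] at hv''S
    have hp''D : p'' ∈ D := hI.int p'' (hP.Pl_int p'' hp'')
    have hvv : v'' ≠ v' := by
      rintro rfl
      exact hv''S hA
    have e1 : s(f p'', w) ∉ B1 := hv''T w (by simp)
    have e2 : s(f p'', f v') ∉ B1 := hv''T (f v') (by simp)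
    have hpv'' : f p ≠ f v'' := by
      intro h
      have := hI.emb.inj hp hv''D h
      rw [this, hv''l] at hu
      simp at hu
    refine ensure hE1.ok (by omega) (a := f p) (b := f v'') hpv'' hv''S ?_
    intro M2 B2 hM2 hE2
    have hE2' := hE1.trans hE2
    have hc2 := hE2'.card_le
    have hne : s(f p'', w) ≠ s(f p'', f v') := by
      intro h
      rw [Sym2.eq_iff] at h
      rcases h with ⟨_, h⟩ | ⟨_, h⟩
      · exact hwne v' hv'D h
      · exact hwne p'' hp''D h
    rcases two_choices le_rfl hE2 hne e1 e2 with h | h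
    · refine ensure hE2.ok (by omega) (a := f p'') (b := w) (hwne p'' hp''D).symm h ?_
      intro M3 B3 hM3 hE3
      have hE3' := hE2'.trans hE3
      have emb1 := (hI.emb.mono hE3'.subM).rehost (v := v'') (w := w) hv''D hw
        (by intro _; rw [hv''p]; exact hM3)
        (by intro c _ hc; rw [hv''l] at hc; simp at hc)
      refine finishFill hP hI hd0 hp hu huD hprio hE3' emb1 (hnf v'' hv''l hv''F f w)
        (x := f v'') ?_ ?_ (hE3.subM hM2) K
      · rw [unused_rehost hI.emb hv''D hw]; exact Finset.mem_insert_self _ _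
      · intro y hy hy'
        rw [unused_rehost hI.emb hv''D hw, Finset.mem_insert] at hy
        exact Finset.mem_of_mem_erase (hy.resolve_left hy')
    · have hp''v' : p'' ≠ v' := by
        rintro rfl
        exact hP.Pl_int _ hp'' hv'l
      have hfp'' : f p'' ≠ f v' := fun h => hp''v' (hI.emb.inj hp''D hv'D h)
      refine ensure hE2.ok (by omega) (a := f p'') (b := f v') hfp'' h ?_
      intro M3 B3 hM3 hE3
      have hE3' := hE2'.trans hE3
      have emb1 := (hI.emb.mono hE3'.subM).rehost (v := v') (w := w) hv'D hw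
        (by intro _; rw [hv'p, Sym2.eq_swap]; exact hE3.subM (hE2.subM hM1))
        (by intro c _ hc; rw [hv'l] at hc; simp at hc)
      have hun1 := unused_rehost hI.emb hv'D hw
      have hfv'u : f v' ∈ unused D (Function.update f v' w) := by
        rw [hun1]; exact Finset.mem_insert_self _ _
      have emb2 := emb1.rehost (v := v'') (w := f v') hv''D hfv'u
        (by intro _; rw [hv''p, Function.update_of_ne hp''v']; exact hM3)
        (by intro c _ hc; rw [hv''l] at hc; simp at hc)
      have hun2 := unused_rehost emb1 hv''D hfv'u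
      rw [Function.update_of_ne hvv] at hun2
      refine finishFill hP hI hd0 hp hu huD hprio hE3' emb2 ?_
        (x := f v'') ?_ ?_ (hE3.subM hM2) K
      · intro v hv
        rw [hnf v'' hv''l hv''F _ _ v hv, hnf v' hv'l hv'F _ _ v hv]
      · rw [hun2]; exact Finset.mem_insert_self _ _
      · intro y hy hy'
        rw [hun2, Finset.mem_insert, Finset.mem_erase, hun1, Finset.mem_insert, Finset.mem_erase] at hy
        rcases hy with hy | ⟨h1, h2⟩
        · exact absurd hy hy'
        · exact (h2.resolve_left h1).2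
  · refine ensure hE1.ok (by omega) (a := f p) (b := f v') hpv'f hA ?_
    intro M2 B2 hM2 hE2
    have hE2' := hE1.trans hE2
    have emb1 := (hI.emb.mono hE2'.subM).rehost (v := v') (w := w) hv'D hw
      (by intro _; rw [hv'p, Sym2.eq_swap]; exact hE2.subM hM1)
      (by intro c _ hc; rw [hv'l] at hc; simp at hc)
    refine finishFill hP hI hd0 hp hu huD hprio (hE2'.mono (by omega)) emb1 (hnf v' hv'l hv'F f w)
      (x := f v') ?_ ?_ hM2 K
    · rw [unused_rehost hI.emb hv'D hw]; exact Finset.mem_insert_self _ _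
    · intro y hy hy'
      rw [unused_rehost hI.emb hv'D hw, Finset.mem_insert] at hy
      exact Finset.mem_of_mem_erase (hy.resolve_left hy')

/-- Phase two. -/
theorem phase_two (hF : Goal P.R F) (hP : P.Good) (hI : LInv P D f M B) : Win F M B := by
  induction hm : Fintype.card V + P.a - (D.card + Tt P D f M B) using
    Nat.strong_induction_on generalizing D f M B with
  | _ m ih =>
    have hb := hI.bd hP
    have hcD := hb.cardD
    have hcQ := hb.T
    have hc3 := hP.c3
    have K : LCont P F D f M B := by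
      intro D' f' M' B' hI' hlt
      have hb' := hI'.bd hP
      have hcD' := hb'.cardD
      have hcQ' := hb'.T
      exact ih _ (by omega) hI' rfl
    by_cases hfin : ∀ v, v ∈ D
    · exact hI.emb.win hF hfin
    push Not at hfin
    obtain ⟨v₀, hv₀⟩ := hfin
    by_cases hd0 : 0 < debtSum P.τ P.s P.g P.O M B
    · exact macroPay2 hP hI hd0 K
    replace hd0 : debtSum P.τ P.s P.g P.O M B = 0 := by omega
    by_cases hw : ∃ w ∈ unused D f, P.L < 4 * bw P f B w
    · obtain ⟨w, hw, hwb⟩ := hw
      exact macroConv hP hI hd0 hw hwb K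
    push Not at hw
    obtain ⟨p, v, hp, hv, hvD, hprio⟩ : ∃ p v, p ∈ D ∧ v ∈ P.R.ch p ∧ v ∉ D ∧
        (P.a ≤ dg B (f p) ∨ ∀ q, IsOpen P.R D q → dg B (f q) < P.a) := by
      by_cases hh : ∃ p, IsOpen P.R D p ∧ P.a ≤ dg B (f p)
      · obtain ⟨p, ⟨hp, v, hv, hvD⟩, hpa⟩ := hh
        exact ⟨p, v, hp, hv, hvD, Or.inl hpa⟩
      · push Not at hh
        obtain ⟨u, hu, hpu, -⟩ := hI.emb.exists_open (P := fun _ => True)
          (fun _ _ _ _ => trivial) hv₀ trivial
        exact ⟨P.R.par u, u, hpu, RT.mem_ch.mpr ⟨hI.emb.ne_root hu, rfl⟩, hu, Or.inr hh⟩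
    exact macroFill hP hI hd0 hw hp hv hvD hprio K

end

end Pool.Agent.Lib.MP_9916e0_co
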