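import Pool.Agent.Lib.MP_9916e0_co.LeafFill

set_option autoImplicit false
set_option linter.unusedSectionVars false
set_option linter.unusedVariables false

namespace Pool.Agent.Lib.MP_9916e0_co

variable {V : Type*} [Fintype V] [DecidableEq V]

/-- Progress measure of phase one. -/
def T1 (P : LP V) (D : Finset V) (f : V → V) (M B : Finset (Sym2 V)) : ℕ :=
  Qh P.R P.Int P.a D f B + paid P.τ P.s P.O M B

/-- Unused proxies of small degree. -/
def alv (P : LP V) (D : Finset V) (f : V → V) (B : Finset (Sym2 V)) : Finset V :=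
  P.Z.filter fun z => z ∈ unused D f ∧ dg B z < P.a

/-- Invariant of phase one. -/
structure L1Inv (P : LP V) (D : Finset V) (f : V → V) (M B : Finset (Sym2 V)) : Prop where
  ok : Ok M B
  emb : Emb P.R D f M
  fz : P.Fz ⊆ D
  own : ∀ x, P.O x = ∅ → ∃ v ∈ D, (P.R.ch v ≠ ∅ ∨ v ∈ P.Fz) ∧ f v = x
  clH : ∀ h ∈ P.H0, h ≠ P.R.r → P.R.par h ∈ D → h ∈ D
  onZ : ∀ v ∈ D, f v ∈ P.Z → v ∈ P.H0
  alive : (P.Z.card ≤ P.H0.card ∧ ∀ h ∈ P.H0, h ∈ D → f h ∈ P.Z) ∨
    (alv P D f B).card ≤ 80 * P.NL
  lv : (D.filter fun v => P.R.ch v = ∅).card ≤ Qh P.R P.Int P.a D f B + 1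
  sep : ∀ v, v ∉ D → (P.R.ch v ∩ P.H0).card ≤ 1
  sep2 : ∀ h ∈ P.H0, h ∉ D → P.R.ch h ∩ P.H0 = ∅
  debt : debtSum P.τ P.s P.g P.O M B ≤ 3
  cardB : B.card ≤ 3 * (D.card + T1 P D f M B) + P.c
  deg : ∀ p, IsOpen P.R D p → dg B (f p) ≤ P.a + 3 * T1 P D f M B + P.c

structure L1Bd (P : LP V) (D : Finset V) (f : V → V) (M B : Finset (Sym2 V)) : Prop where
  cardB : B.card ≤ 5 * Fintype.card V
  T : 3 * T1 P D f M B + P.c ≤ P.a
  hv : (hvy P.a B).card ≤ 10 * P.Na
  opn : ∀ p, IsOpen P.R D p → dg B (f p) ≤ 2 * P.a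
  cardD : D.card ≤ Fintype.card V
  un : P.L ≤ (unused D f).card + P.a

theorem L1Inv.bd {P : LP V} (hP : P.Good) {D : Finset V} {f : V → V}
    {M B : Finset (Sym2 V)} (hI : L1Inv P D f M B) : L1Bd P D f M B := by
  have hD := card_le_univ' D
  have h1 := bounds_aux (E := 0) (L := P.L) hP.h1 hP.h2 hP.s20 hP.hsa hP.hcn hP.hca
    (by have := hP.aL; omega)
    (Qh_le (C := P.Int) (a := P.a) (B := B) hP.deg hI.emb.inj) (card_hvy P.a B)
    (by omega) (paid_le (τ := P.τ) (M := M) hP.own (by have := hP.s20; omega))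
    hD (by have := hI.cardB; unfold T1 at this; omega)
  have hT : 3 * T1 P D f M B + P.c ≤ P.a := by
    have := h1.2.1
    unfold T1
    omega
  refine ⟨h1.1, hT, hv_bound hP h1.1, ?_, hD, ?_⟩
  · intro p hp
    have := hI.deg p hp
    omega
  · have e1 : P.L ≤ (lvs P.R).card := by
      rw [← card_pool hP]
      apply Finset.card_le_card
      intro v hv
      rw [Finset.mem_biUnion] at hv
      obtain ⟨p, _, hv⟩ := hv
      exact (Finset.mem_inter.mp hv).2
    have e2 : (lvs P.R).card ≤ (Finset.univ \ D : Finset V).card +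
        (D.filter fun v => P.R.ch v = ∅).card := by
      refine le_trans (Finset.card_le_card ?_) (Finset.card_union_le _ _)
      intro v hv
      rw [mem_lvs] at hv
      rw [Finset.mem_union, Finset.mem_sdiff, Finset.mem_filter]
      by_cases h : v ∈ D
      · exact Or.inr ⟨h, hv⟩
      · exact Or.inl ⟨Finset.mem_univ _, h⟩
    have e3 : (Finset.univ \ D : Finset V).card + D.card = Fintype.card V := by
      have := Finset.card_sdiff_add_card_eq_card (Finset.subset_univ D)
      rw [Finset.card_univ] at this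
      exact this
    have e4 := hI.emb.card_unused
    have e5 := hI.lv
    have e6 := hP.c3
    unfold T1 at hT
    omega

theorem L1Inv.step {P : LP V} (hP : P.Good) {D D' : Finset V} {f f' : V → V}
    {M B M' B' : Finset (Sym2 V)} (hI : L1Inv P D f M B) (hE : Ext 3 M B M' B')
    (hemb : Emb P.R D' f' M') (hDD : D ⊆ D') (hf : ∀ v ∈ D, f' v = f v)
    (hnew : ∀ p ∈ D', p ∉ D → P.R.ch p ≠ ∅ → dg B (f' p) < P.a)
    (clH : ∀ h ∈ P.H0, h ≠ P.R.r → P.R.par h ∈ D' → h ∈ D')
    (onZ : ∀ v ∈ D', v ∉ D → f' v ∈ P.Z → v ∈ P.H0)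
    (alive : (P.Z.card ≤ P.H0.card ∧ ∀ h ∈ P.H0, h ∈ D' → f' h ∈ P.Z) ∨
      (alv P D' f' B').card ≤ 80 * P.NL)
    (lv : (D'.filter fun v => P.R.ch v = ∅).card ≤ Qh P.R P.Int P.a D' f' B' + 1)
    (hdebt : debtSum P.τ P.s P.g P.O M' B' ≤ 3)
    (hprog : Qh P.R P.Int P.a D f B + 1 ≤ Qh P.R P.Int P.a D' f' B' ∨
      paid P.τ P.s P.O M B + 1 ≤ paid P.τ P.s P.O M' B' ∨
      (D.card + 1 ≤ D'.card ∧ ∀ p, IsOpen P.R D p → dg B (f p) < P.a)) :
    L1Inv P D' f' M' B' ∧ D.card + T1 P D f M B + 1 ≤ D'.card + T1 P D' f' M' B' := by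
  have m1 : Qh P.R P.Int P.a D f B ≤ Qh P.R P.Int P.a D' f' B' :=
    Qh_mono hDD hE.subB fun p hp _ _ => hf p hp
  have m3 : paid P.τ P.s P.O M B ≤ paid P.τ P.s P.O M' B' := paid_mono hE.subM hE.subB
  have hDc := Finset.card_le_card hDD
  have hprog' : T1 P D f M B + 1 ≤ T1 P D' f' M' B' ∨
      (D.card + 1 ≤ D'.card ∧ ∀ p, IsOpen P.R D p → dg B (f p) < P.a) := by
    unfold T1
    rcases hprog with h | h | h
    · left; omega
    · left; omega
    · right; exact h
  have hTT : T1 P D f M B ≤ T1 P D' f' M' B' := by unfold T1; omega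
  have hsum : D.card + T1 P D f M B + 1 ≤ D'.card + T1 P D' f' M' B' := by
    rcases hprog' with h | ⟨h, _⟩ <;> omega
  have hc3 := hP.c3
  refine ⟨⟨hE.ok, hemb, hI.fz.trans hDD, ?_, clH, ?_, alive, lv,
    fun v hv => hI.sep v fun h => hv (hDD h), fun h hh hhD => hI.sep2 h hh fun h' => hhD (hDD h'),
    hdebt, ?_, ?_⟩, hsum⟩
  · intro x hx
    obtain ⟨v, hv, hv', hvx⟩ := hI.own x hx
    exact ⟨v, hDD hv, hv', (hf v hv).trans hvx⟩
  · intro v hv hvZ
    by_cases hvD : v ∈ D
    · rw [hf v hvD] at hvZ
      exact hI.onZ v hvD hvZ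
    · exact onZ v hv hvD hvZ
  · have := hE.card_le
    have := hI.cardB
    omega
  · rintro p ⟨hpD', c, hc, hcD⟩
    by_cases hpD : p ∈ D
    · have hpo : IsOpen P.R D p := ⟨hpD, c, hc, fun h => hcD (hDD h)⟩
      rw [hf p hpD]
      have h1 := dg_ext hE (f p)
      rcases hprog' with h | ⟨_, h⟩
      · have := hI.deg p hpo
        omega
      · have := h p hpo
        omega
    · have hpi : P.R.ch p ≠ ∅ := by
        intro h
        rw [h] at hc
        simp at hc
      have h1 := dg_ext hE (f' p)
      have := hnew p hpD' hpD hpi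
      omega

/-- The continuation of a macro of phase one. -/
def L1Cont (P : LP V) (F : Set (Finset (Sym2 V))) (D : Finset V) (f : V → V)
    (M B : Finset (Sym2 V)) : Prop :=
  ∀ D' f' M' B', L1Inv P D' f' M' B' → D.card + T1 P D f M B + 1 ≤
      D'.card + T1 P D' f' M' B' → Win F M' B'

/-- Number of Breaker edges from `y` to the proxies. -/
def zb (P : LP V) (B : Finset (Sym2 V)) (y : V) : ℕ := (P.Z.filter fun z => s(y, z) ∈ B).card

theorem sum_zb_le (P : LP V) (B : Finset (Sym2 V)) : ∑ y, zb P B y ≤ 2 * B.card := by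
  have h1 : ∑ y, zb P B y = ∑ z ∈ P.Z, dg B z := by
    unfold zb
    simp_rw [Finset.card_filter]
    rw [Finset.sum_comm]
    apply Finset.sum_congr rfl
    intro z _
    unfold dg nb
    rw [Finset.card_filter]
    apply Finset.sum_congr rfl
    intro y _
    rw [Sym2.eq_swap]
  rw [h1]
  exact (Finset.sum_le_sum_of_subset (Finset.subset_univ _)).trans (sum_dg_le B)

section

variable {P : LP V} {F : Set (Finset (Sym2 V))} {D : Finset V} {f : V → V}
  {M B : Finset (Sym2 V)}

theorem alv_mono {D' : Finset V} {f' : V → V} {B' : Finset (Sym2 V)}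
    (hu : unused D' f' ⊆ unused D f) (hB : B ⊆ B') : alv P D' f' B' ⊆ alv P D f B := by
  intro z hz
  unfold alv at hz ⊢
  rw [Finset.mem_filter] at hz ⊢
  exact ⟨hz.1, hu hz.2.1, lt_of_le_of_lt (dg_mono hB z) hz.2.2⟩

theorem unused_mono {D' : Finset V} {f' : V → V} (hDD : D ⊆ D') (hf : ∀ v ∈ D, f' v = f v) :
    unused D' f' ⊆ unused D f := by
  intro x hx
  rw [mem_unused] at hx ⊢
  intro v hv
  rw [← hf v hv]
  exact hx v (hDD hv)

theorem macroPay1 (hP : P.Good) (hI : L1Inv P D f M B)
    (hpos : 0 < debtSum P.τ P.s P.g P.O M B) (K : L1Cont P F D f M B) : Win F M B := by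
  have hb := hI.bd hP
  refine pay_move hP hI.ok hb.cardB hpos hI.debt ?_
  intro M' B' hE hd hp
  obtain ⟨h1, h2⟩ := hI.step hP (hE.mono (by omega)) (hI.emb.mono hE.subM) (Finset.Subset.refl _)
    (fun _ _ => rfl) (fun p hp hp' _ => absurd hp hp') hI.clH (fun v hv hv' _ => absurd hv hv')
    (by
      rcases hI.alive with h | h
      · exact Or.inl h
      · exact Or.inr ((Finset.card_le_card (alv_mono (Finset.Subset.refl _) hE.subB)).trans h))
    (by
      have := hI.lv
      have := Qh_mono (R := P.R) (C := P.Int) (a := P.a) (f := f) (f' := f) (Finset.Subset.refl D)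
        hE.subB (fun _ _ _ _ => rfl)
      omega)
    hd (Or.inr (Or.inl hp))
  exact K _ _ _ _ h1 h2

/-- A heavy open vertex gets a leaf child. -/
theorem macroLeaf1 (hP : P.Good) (hI : L1Inv P D f M B)
    (hd0 : debtSum P.τ P.s P.g P.O M B = 0) {p v : V} (hp : p ∈ D) (hv : v ∈ P.R.ch p)
    (hvD : v ∉ D) (hvl : P.R.ch v = ∅) (hpa : P.a ≤ dg B (f p)) (K : L1Cont P F D f M B) :
    Win F M B := by
  have hb := hI.bd hP
  have hs : 0 < P.s := by have := hP.s20; omega
  have hroom := hP.room
  have hcB := hb.cardB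
  have hpo : IsOpen P.R D p := ⟨hp, v, hv, hvD⟩
  have hdp := hb.opn p hpo
  have hpar : P.R.par v = p := (RT.mem_ch.mp hv).2
  have hpi : P.R.ch p ≠ ∅ := by
    intro h
    rw [h] at hv
    simp at hv
  obtain ⟨y, hy, hy'⟩ := exists_avoid (X := unused D f) (bad := P.Z ∪ nb B (f p)) (by
    have h1 := Finset.card_union_le P.Z (nb B (f p))
    have h2 := hP.zL
    have h3 := hb.un
    have h4 := hP.aL
    have h5 := hP.h1
    unfold dg at hdp
    omega)
  rw [Finset.mem_union, mem_nb] at hy'
  push Not at hy'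
  refine ensure hI.ok (by omega) (a := f p) (b := y) (fun h => not_unused hp (h ▸ hy)) hy'.2 ?_
  intro M1 B1 hM1 hE1
  have emb1 := (hI.emb.mono hE1.subM).add hvD (by rw [hpar]; exact hp) hy (by rw [hpar]; exact hM1)
  have hfD : ∀ q ∈ D, Function.update f v y q = f q := by
    intro q hq
    rw [Function.update_of_ne (by rintro rfl; exact hvD hq)]
  have hlt : Qh P.R P.Int P.a D f B + 1 ≤ Qh P.R P.Int P.a (insert v D) (Function.update f v y) B1 :=
    Qh_lt_child (Finset.subset_insert _ _) hE1.subB
          (fun q hq _ _ => hfD q hq) hp (LP.mem_Int.mpr hpi) hpa hv hvD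
          (Finset.mem_insert_self _ _)
  obtain ⟨h1, h2⟩ := hI.step hP (hE1.mono (by omega)) emb1 (Finset.subset_insert _ _) hfD
    (by
      intro q hq hqD hqi
      rw [Finset.mem_insert] at hq
      have := hq.resolve_right hqD
      rw [this] at hqi
      exact absurd hvl hqi)
    (by
      intro h hh hr hpD
      rw [Finset.mem_insert] at hpD ⊢
      rcases hpD with hpD | hpD
      · exfalso
        have : h ∈ P.R.ch v := RT.mem_ch.mpr ⟨hr, hpD⟩
        rw [hvl] at this
        simp at this
      · exact Or.inr (hI.clH h hh hr hpD))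
    (by
      intro q hq hqD hqZ
      rw [Finset.mem_insert] at hq
      have := hq.resolve_right hqD
      rw [this, Function.update_self] at hqZ
      exact absurd hqZ hy'.1)
    (by
      rcases hI.alive with ⟨h, h'⟩ | h
      · left
        refine ⟨h, ?_⟩
        intro q hq hqD
        rw [Finset.mem_insert] at hqD
        rcases hqD with rfl | hqD
        · exact absurd hvl (hP.H0_int hq)
        · rw [hfD q hqD]; exact h' q hq hqD
      · right
        exact (Finset.card_le_card (alv_mono (unused_mono (Finset.subset_insert _ _) hfD) hE1.subB)).trans h)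
    (by
      have e1 := hI.lv
      have e2 : ((insert v D).filter fun v => P.R.ch v = ∅).card ≤
          (D.filter fun v => P.R.ch v = ∅).card + 1 := by
        rw [Finset.filter_insert, if_pos hvl]
        exact Finset.card_insert_le _ _
      omega)
    (by
      have := debtSum_ext (τ := P.τ) (g := P.g) hP.own hs hE1
      omega)
    (Or.inl hlt)
  exact K _ _ _ _ h1 h2

/-- Placing an internal vertex together with its hub child. -/
theorem macroPlace (hP : P.Good) (hI : L1Inv P D f M B)
    (hd0 : debtSum P.τ P.s P.g P.O M B = 0) {p v : V} (hp : p ∈ D) (hv : v ∈ P.R.ch p)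
    (hvD : v ∉ D) (hvi : P.R.ch v ≠ ∅)
    (hprio : P.a ≤ dg B (f p) ∨ ∀ q, IsOpen P.R D q → dg B (f q) < P.a)
    (K : L1Cont P F D f M B) : Win F M B := by
  have hb := hI.bd hP
  have hs : 0 < P.s := by have := hP.s20; omega
  have hroom := hP.room
  have hcB := hb.cardB
  have hpo : IsOpen P.R D p := ⟨hp, v, hv, hvD⟩
  have hdp := hb.opn p hpo
  have hpar : P.R.par v = p := (RT.mem_ch.mp hv).2
  have hpi : P.R.ch p ≠ ∅ := by
    intro h
    rw [h] at hv
    simp at hv
  have hvH : v ∉ P.H0 := by
    intro h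
    exact hvD (hI.clH v h (hI.emb.ne_root hvD) (by rw [hpar]; exact hp))
  have hNL : 0 < P.NL := by
    by_contra hcon
    have h1 := hP.nL
    have h2 : P.NL = 0 := by omega
    rw [h2] at h1
    have h3 := hP.hcn
    have h4 := hP.c3
    omega
  -- few vertices with many Breaker edges to the proxies
  have hzb : 8 * (Finset.univ.filter fun y => 80 * P.NL ≤ zb P B y).card ≤ P.L := by
    have h1 := markov Finset.univ (zb P B) (80 * P.NL) _ (sum_zb_le P B)
    have h2 := hP.nL
    apply Nat.le_of_mul_le_mul_right (c := 10 * P.NL) _ (by omega)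
    calc 8 * (Finset.univ.filter fun y => 80 * P.NL ≤ zb P B y).card * (10 * P.NL) =
          (Finset.univ.filter fun y => 80 * P.NL ≤ zb P B y).card * (80 * P.NL) := by ring
      _ ≤ 2 * B.card := h1
      _ ≤ 10 * Fintype.card V := by omega
      _ ≤ 10 * (P.NL * P.L) := by omega
      _ = P.L * (10 * P.NL) := by ring
  obtain ⟨y, hy, hy'⟩ := exists_avoid (X := unused D f) (bad := P.Z ∪ nb B (f p) ∪ hvy P.a B ∪
      (Finset.univ.filter fun y => 80 * P.NL ≤ zb P B y)) (by
    have h1 := Finset.card_union_le (P.Z ∪ nb B (f p) ∪ hvy P.a B)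
      (Finset.univ.filter fun y => 80 * P.NL ≤ zb P B y)
    have h1' := Finset.card_union_le (P.Z ∪ nb B (f p)) (hvy P.a B)
    have h1'' := Finset.card_union_le P.Z (nb B (f p))
    have h2 := hP.zL
    have h3 := hb.un
    have h4 := hP.aL
    have h5 := hP.h1
    have h6 := hb.hv
    have h7 := hP.Naa
    unfold dg at hdp
    omega)
  simp only [Finset.mem_union, mem_nb, mem_hvy, Finset.mem_filter, Finset.mem_univ, true_and] at hy'
  push Not at hy'
  obtain ⟨⟨⟨hyZ, hyB⟩, hyd⟩, hyz⟩ := hy'
  have hyf : ∀ q ∈ D, f q ≠ y := fun q hq => (mem_unused.mp hy) q hq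
  refine ensure hI.ok (by omega) (a := f p) (b := y) (hyf p hp) hyB ?_
  intro M1 B1 hM1 hE1
  have hc1 := hE1.card_le
  have emb1 := (hI.emb.mono hE1.subM).add hvD (by rw [hpar]; exact hp) hy (by rw [hpar]; exact hM1)
  have hfD : ∀ q ∈ D, Function.update f v y q = f q := by
    intro q hq
    rw [Function.update_of_ne (by rintro rfl; exact hvD hq)]
  by_cases hempty : P.R.ch v ∩ P.H0 = ∅
  · obtain ⟨h1, h2⟩ := hI.step hP (hE1.mono (by omega)) emb1 (Finset.subset_insert _ _) hfD
      (by
        intro q hq hqD hqi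
        rw [Finset.mem_insert] at hq
        have := hq.resolve_right hqD
        rw [this, Function.update_self]
        exact hyd)
      (by
        intro h hh hr hpD
        rw [Finset.mem_insert] at hpD ⊢
        rcases hpD with hpD | hpD
        · exfalso
          have : h ∈ P.R.ch v ∩ P.H0 := Finset.mem_inter.mpr ⟨RT.mem_ch.mpr ⟨hr, hpD⟩, hh⟩
          rw [hempty] at this
          simp at this
        · exact Or.inr (hI.clH h hh hr hpD))
      (by
        intro q hq hqD hqZ
        rw [Finset.mem_insert] at hq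
        have := hq.resolve_right hqD
        rw [this, Function.update_self] at hqZ
        exact absurd hqZ hyZ)
      (by
        rcases hI.alive with ⟨h, h'⟩ | h
        · left
          refine ⟨h, ?_⟩
          intro q hq hqD
          rw [Finset.mem_insert] at hqD
          rcases hqD with rfl | hqD
          · exact absurd hq hvH
          · rw [hfD q hqD]; exact h' q hq hqD
        · right
          exact (Finset.card_le_card (alv_mono (unused_mono (Finset.subset_insert _ _) hfD) hE1.subB)).trans h)
      (by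
        have e1 := hI.lv
        have e2 : ((insert v D).filter fun v => P.R.ch v = ∅) =
            (D.filter fun v => P.R.ch v = ∅) := by
          rw [Finset.filter_insert, if_neg hvi]
        have e3 := Qh_mono (R := P.R) (C := P.Int) (a := P.a) (f := f) (Finset.subset_insert v D)
          hE1.subB (fun q hq _ _ => hfD q hq)
        rw [e2]
        omega)
      (by
        have := debtSum_ext (τ := P.τ) (g := P.g) hP.own hs hE1
        omega)
      (by
        rcases hprio with h | h
        · left
          exact Qh_lt_child (Finset.subset_insert _ _) hE1.subB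
            (fun q hq _ _ => hfD q hq) hp (LP.mem_Int.mpr hpi) h hv hvD
            (Finset.mem_insert_self _ _)
        · right; right
          refine ⟨?_, h⟩
          rw [Finset.card_insert_of_notMem hvD])
    exact K _ _ _ _ h1 h2
  -- the hub child
  obtain ⟨h, hh⟩ : (P.R.ch v ∩ P.H0).Nonempty := Finset.nonempty_iff_ne_empty.mpr hempty
  have huniq : ∀ h' ∈ P.R.ch v ∩ P.H0, h' = h := by
    intro h' hh'
    have := hI.sep v hvD
    exact Finset.card_le_one.mp this h' hh' h hh
  rw [Finset.mem_inter] at hh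
  obtain ⟨hhv, hhH⟩ := hh
  have hhD : h ∉ D := hI.emb.ch_notMem hvD hhv
  have hhne : h ≠ v := by
    rintro rfl
    exact hvH hhH
  have hhpar : P.R.par h = v := (RT.mem_ch.mp hhv).2
  have hhD1 : h ∉ insert v D := by
    rw [Finset.mem_insert]; push Not; exact ⟨hhne, hhD⟩
  -- choice of the host of the hub
  obtain ⟨z, hzu, hzy, hzd, hzB, hzalive⟩ : ∃ z, z ∈ unused D f ∧ z ≠ y ∧ dg B z < P.a ∧
      s(y, z) ∉ B1 ∧ (z ∈ P.Z ∨ (alv P D f B1).card ≤ 80 * P.NL) := by
    by_cases hAl : ∃ z ∈ P.Z, z ∈ unused D f ∧ dg B1 z < P.a ∧ s(y, z) ∉ B1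
    · obtain ⟨z, hz1, hz2, hz3, hz4⟩ := hAl
      exact ⟨z, hz2, fun h => hyZ (h ▸ hz1), lt_of_le_of_lt (dg_mono hE1.subB z) hz3, hz4, Or.inl hz1⟩
    · push Not at hAl
      have hal : (alv P D f B1).card ≤ 80 * P.NL := by
        have h1 : alv P D f B1 ⊆ P.Z.filter fun z => s(y, z) ∈ B1 := by
          intro z hz
          unfold alv at hz
          rw [Finset.mem_filter] at hz ⊢
          exact ⟨hz.1, hAl z hz.1 hz.2.1 hz.2.2⟩
        have h2 : (P.Z.filter fun z => s(y, z) ∈ B1).card ≤ zb P B y + 1 := by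
          have h3 : (P.Z.filter fun z => s(y, z) ∈ B1) ⊆ (P.Z.filter fun z => s(y, z) ∈ B) ∪
              ((P.Z.filter fun z => s(y, z) ∉ B).filter fun z => s(y, z) ∈ B1) := by
            intro z hz
            simp only [Finset.mem_union, Finset.mem_filter] at hz ⊢
            by_cases h : s(y, z) ∈ B
            · exact Or.inl ⟨hz.1, h⟩
            · exact Or.inr ⟨⟨hz.1, h⟩, hz.2⟩
          have h4 := (Finset.card_le_card h3).trans (Finset.card_union_le _ _)
          have h5 : ((P.Z.filter fun z => s(y, z) ∉ B).filter fun z => s(y, z) ∈ B1).card ≤ 1 := by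
            refine le_trans ?_ (card_sdiff_ext hE1)
            apply Finset.card_le_card_of_injOn (fun z => s(y, z))
            · intro x hx
              rw [Finset.mem_coe, Finset.mem_filter, Finset.mem_filter] at hx
              rw [Finset.mem_coe, Finset.mem_sdiff]
              exact ⟨hx.2, hx.1.2⟩
            · intro x _ x' _ hxx
              simp only [Sym2.eq_iff] at hxx
              rcases hxx with ⟨_, h⟩ | ⟨h, h'⟩
              · exact h
              · rw [h', h]
          unfold zb
          omega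
        have h3 := Finset.card_le_card h1
        omega
      obtain ⟨z, hz, hz'⟩ := exists_avoid (X := unused D f) (bad := {y} ∪ nb B1 y ∪ hvy P.a B) (by
        have h1 := Finset.card_union_le ({y} ∪ nb B1 y) (hvy P.a B)
        have h1' := Finset.card_union_le {y} (nb B1 y)
        rw [Finset.card_singleton] at h1'
        have h2 := hP.zL
        have h3 := hb.un
        have h4 := hP.aL
        have h5 := hP.h1
        have h6 := hb.hv
        have h7 := hP.Naa
        have h8 := dg_ext hE1 y
        unfold dg at h8 hyd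
        omega)
      simp only [Finset.mem_union, Finset.mem_singleton, mem_nb, mem_hvy] at hz'
      push Not at hz'
      exact ⟨z, hz, hz'.1.1, hz'.2, hz'.1.2, Or.inr hal⟩
  refine ensure hE1.ok (by omega) (a := y) (b := z) hzy.symm hzB ?_
  intro M2 B2 hM2 hE2
  have hE2' := hE1.trans hE2
  have hzu1 : z ∈ unused (insert v D) (Function.update f v y) := by
    rw [unused_add hvD, Finset.mem_erase]; exact ⟨hzy, hzu⟩
  have emb2 := (emb1.mono hE2.subM).add hhD1 (by rw [hhpar]; exact Finset.mem_insert_self _ _) hzu1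
    (by rw [hhpar, Function.update_self]; exact hM2)
  have hDD : D ⊆ insert h (insert v D) :=
    (Finset.subset_insert _ _).trans (Finset.subset_insert _ _)
  have hfD2 : ∀ q ∈ D, Function.update (Function.update f v y) h z q = f q := by
    intro q hq
    rw [Function.update_of_ne (by rintro rfl; exact hhD hq), hfD q hq]
  obtain ⟨h1, h2⟩ := hI.step hP (hE2'.mono (by omega)) emb2 hDD hfD2
    (by
      intro q hq hqD hqi
      rw [Finset.mem_insert, Finset.mem_insert] at hq
      rcases hq with rfl | rfl | hq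
      · rw [Function.update_self]; exact hzd
      · rw [Function.update_of_ne hhne.symm, Function.update_self]; exact hyd
      · exact absurd hq hqD)
    (by
      intro h' hh' hr hpD
      rw [Finset.mem_insert, Finset.mem_insert] at hpD ⊢
      rcases hpD with hpD | hpD | hpD
      · exfalso
        have : h' ∈ P.R.ch h ∩ P.H0 := Finset.mem_inter.mpr ⟨RT.mem_ch.mpr ⟨hr, hpD⟩, hh'⟩
        rw [hI.sep2 h hhH hhD] at this
        simp at this
      · left
        exact huniq h' (Finset.mem_inter.mpr ⟨RT.mem_ch.mpr ⟨hr, hpD⟩, hh'⟩)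
      · exact Or.inr (Or.inr (hI.clH h' hh' hr hpD)))
    (by
      intro q hq hqD hqZ
      rw [Finset.mem_insert, Finset.mem_insert] at hq
      rcases hq with rfl | rfl | hq
      · exact hhH
      · rw [Function.update_of_ne hhne.symm, Function.update_self] at hqZ
        exact absurd hqZ hyZ
      · exact absurd hq hqD)
    (by
      have hmono : (alv P (insert h (insert v D)) (Function.update (Function.update f v y) h z) B2).card ≤
          (alv P D f B1).card :=
        Finset.card_le_card (alv_mono (unused_mono hDD hfD2) hE2.subB)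
      rcases hzalive with hzZ | hzal
      · rcases hI.alive with ⟨h, h'⟩ | h3
        · left
          refine ⟨h, ?_⟩
          intro q hq hqD
          rw [Finset.mem_insert, Finset.mem_insert] at hqD
          rcases hqD with rfl | rfl | hqD
          · rw [Function.update_self]; exact hzZ
          · exact absurd hq hvH
          · rw [hfD2 q hqD]; exact h' q hq hqD
        · right
          exact hmono.trans ((Finset.card_le_card (alv_mono (Finset.Subset.refl _) hE1.subB)).trans h3)
      · right
        exact hmono.trans hzal)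
    (by
      have e1 := hI.lv
      have e2 : ((insert h (insert v D)).filter fun v => P.R.ch v = ∅) =
          (D.filter fun v => P.R.ch v = ∅) := by
        rw [Finset.filter_insert, if_neg (hP.H0_int hhH), Finset.filter_insert, if_neg hvi]
      have e3 := Qh_mono (R := P.R) (C := P.Int) (a := P.a) (f := f) hDD
        hE2'.subB (fun q hq _ _ => hfD2 q hq)
      rw [e2]
      omega)
    (by
      have := debtSum_ext (τ := P.τ) (g := P.g) hP.own hs hE2'
      omega)
    (by
      rcases hprio with h | h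
      · left
        exact Qh_lt_child hDD hE2'.subB
          (fun q hq _ _ => hfD2 q hq) hp (LP.mem_Int.mpr hpi) h hv hvD
          (Finset.mem_insert_of_mem (Finset.mem_insert_self _ _))
      · right; right
        refine ⟨?_, h⟩
        rw [Finset.card_insert_of_notMem hhD1, Finset.card_insert_of_notMem hvD]
        omega)
  exact K _ _ _ _ h1 h2

/-- From phase one to phase two. -/
theorem L1Inv.toL {P : LP V} (hP : P.Good) (hI : L1Inv P D f M B)
    (hint : ∀ v, P.R.ch v ≠ ∅ → v ∈ D) : LInv P D f M B := by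
  have hb := hI.bd hP
  have hTT : T1 P D f M B ≤ Tt P D f M B := by unfold T1 Tt; omega
  refine ⟨hI.ok, hI.emb, hint, hI.fz, ?_, hI.own, hI.debt, ?_, ?_⟩
  · have huu := hP.uu
    rcases hI.alive with ⟨h1, h2⟩ | h1
    · have h3 : P.H0.image f = P.Z := by
        apply Finset.eq_of_subset_of_card_le
        · intro z hz
          obtain ⟨h, hh, rfl⟩ := Finset.mem_image.mp hz
          exact h2 h hh (hint h (hP.H0_int hh))
        · rw [Finset.card_image_of_injOn]
          · exact h1
          · intro x hx y hy hxy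
            exact hI.emb.inj (hint x (hP.H0_int hx)) (hint y (hP.H0_int hy)) hxy
      have h4 : (P.Z.filter fun z => z ∉ P.H0.image f) = ∅ := by
        rw [h3]
        apply Finset.filter_eq_empty_iff.mpr
        intro z hz hz'
        exact hz' hz
      rw [h4, Finset.card_empty]
      omega
    · have h2 : (P.Z.filter fun z => z ∉ P.H0.image f) ⊆ alv P D f B ∪ hvy P.a B := by
        intro z hz
        rw [Finset.mem_filter] at hz
        rw [Finset.mem_union, mem_hvy]
        by_cases hzd : P.a ≤ dg B z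
        · exact Or.inr hzd
        · left
          unfold alv
          rw [Finset.mem_filter, mem_unused]
          refine ⟨hz.1, ?_, by omega⟩
          rintro v hv rfl
          exact hz.2 (Finset.mem_image_of_mem _ (hI.onZ v hv hz.1))
      have h3 := Finset.card_le_card h2
      have h4 := Finset.card_union_le (alv P D f B) (hvy P.a B)
      have h5 := hb.hv
      omega
  · have := hI.cardB
    omega
  · intro p hp
    have := hI.deg p hp
    omega

/-- Phase one (followed by phase two). -/
theorem phase_one (hF : Goal P.R F) (hP : P.Good) (hI : L1Inv P D f M B) : Win F M B := by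
  induction hm : Fintype.card V + P.a - (D.card + T1 P D f M B) using
    Nat.strong_induction_on generalizing D f M B with
  | _ m ih =>
    have hb := hI.bd hP
    have hcD := hb.cardD
    have hcQ := hb.T
    have hc3 := hP.c3
    have K : L1Cont P F D f M B := by
      intro D' f' M' B' hI' hlt
      have hb' := hI'.bd hP
      have hcD' := hb'.cardD
      have hcQ' := hb'.T
      exact ih _ (by omega) hI' rfl
    by_cases hd0 : 0 < debtSum P.τ P.s P.g P.O M B
    · exact macroPay1 hP hI hd0 K
    replace hd0 : debtSum P.τ P.s P.g P.O M B = 0 := by omega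
    by_cases hh : ∃ p, IsOpen P.R D p ∧ P.a ≤ dg B (f p)
    · obtain ⟨p, ⟨hp, v, hv, hvD⟩, hpa⟩ := hh
      by_cases hvl : P.R.ch v = ∅
      · exact macroLeaf1 hP hI hd0 hp hv hvD hvl hpa K
      · exact macroPlace hP hI hd0 hp hv hvD hvl (Or.inl hpa) K
    push Not at hh
    by_cases hint : ∀ v, P.R.ch v ≠ ∅ → v ∈ D
    · exact phase_two hF hP (hI.toL hP hint)
    push Not at hint
    obtain ⟨v₀, hv₀i, hv₀⟩ := hint
    obtain ⟨u, hu, hpu, hui⟩ := hI.emb.exists_open (P := fun v => P.R.ch v ≠ ∅)
      (fun v _ hv _ h => by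
        have : v ∈ P.R.ch (P.R.par v) := RT.mem_ch.mpr ⟨hI.emb.ne_root hv, rfl⟩
        rw [h] at this
        simp at this) hv₀ hv₀i.ne_empty
    exact macroPlace hP hI hd0 hpu (RT.mem_ch.mpr ⟨hI.emb.ne_root hu, rfl⟩) hu hui (Or.inr hh) K

end

end Pool.Agent.Lib.MP_9916e0_co
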