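import Pool.Agent.Lib.MP_9916e0_co.LeafBase

set_option autoImplicit false
set_option linter.unusedSectionVars false
set_option linter.unusedVariables false

namespace Pool.Agent.Lib.MP_9916e0_co

variable {V : Type*} [Fintype V] [DecidableEq V]

/-- Progress measure of phase two. -/
def Tt (P : LP V) (D : Finset V) (f : V → V) (M B : Finset (Sym2 V)) : ℕ :=
  Qh P.R P.Int P.a D f B + (usedHw P D f B).card + paid P.τ P.s P.O M B

/-- Invariant of phase two. -/
structure LInv (P : LP V) (D : Finset V) (f : V → V) (M B : Finset (Sym2 V)) : Prop where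
  ok : Ok M B
  emb : Emb P.R D f M
  int : ∀ v, P.R.ch v ≠ ∅ → v ∈ D
  fz : P.Fz ⊆ D
  hub : (P.Z.filter fun z => z ∉ P.H0.image f).card ≤ P.u
  own : ∀ x, P.O x = ∅ → ∃ v ∈ D, (P.R.ch v ≠ ∅ ∨ v ∈ P.Fz) ∧ f v = x
  debt : debtSum P.τ P.s P.g P.O M B ≤ 3
  cardB : B.card ≤ 3 * (D.card + Tt P D f M B) + P.c
  deg : ∀ p, IsOpen P.R D p → dg B (f p) ≤ P.a + 3 * Tt P D f M B + P.c

structure LBd (P : LP V) (D : Finset V) (f : V → V) (M B : Finset (Sym2 V)) : Prop where
  cardB : B.card ≤ 5 * Fintype.card V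
  T : 3 * Tt P D f M B + P.c ≤ P.a
  hv : (hvy P.a B).card ≤ 10 * P.Na
  hw : (hw8 P f B).card ≤ 80 * P.NL * P.ω
  opn : ∀ p, IsOpen P.R D p → dg B (f p) ≤ 2 * P.a
  cardD : D.card ≤ Fintype.card V

theorem card_le_univ' (D : Finset V) : D.card ≤ Fintype.card V := by
  rw [← Finset.card_univ]; exact Finset.card_le_card (Finset.subset_univ _)

theorem hv_bound {P : LP V} (hP : P.Good) {B : Finset (Sym2 V)}
    (hB : B.card ≤ 5 * Fintype.card V) : (hvy P.a B).card ≤ 10 * P.Na := by
  have ha : 0 < P.a := by have := hP.h1; omega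
  apply Nat.le_of_mul_le_mul_right (c := P.a) _ ha
  have h1 := card_hvy P.a B
  have h2 := hP.na
  calc (hvy P.a B).card * P.a ≤ 2 * B.card := h1
    _ ≤ 10 * Fintype.card V := by omega
    _ ≤ 10 * (P.Na * P.a) := by omega
    _ = _ := by ring

theorem hw8_bound {P : LP V} (hP : P.Good) {f : V → V} {B : Finset (Sym2 V)}
    (hinj : Set.InjOn f P.Pl)
    (hB : B.card ≤ 5 * Fintype.card V) : (hw8 P f B).card ≤ 80 * P.NL * P.ω := by
  have hL : 0 < P.L := by have := hP.h1; have := hP.aL; omega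
  apply Nat.le_of_mul_le_mul_right (c := P.L) _ hL
  have h1 : (hw8 P f B).card * P.L ≤ 8 * (P.ω * (2 * B.card)) := by
    unfold hw8
    apply markov Finset.univ (fun v => 8 * bw P f B v) P.L
    rw [← Finset.mul_sum]
    exact Nat.mul_le_mul_left _ (sum_bw_le hP hinj)
  calc (hw8 P f B).card * P.L ≤ 8 * (P.ω * (2 * B.card)) := h1
    _ ≤ 8 * (P.ω * (2 * (5 * Fintype.card V))) := by gcongr
    _ ≤ 8 * (P.ω * (2 * (5 * (P.NL * P.L)))) := by have := hP.nL; gcongr
    _ = _ := by ring

theorem usedHw_bound {P : LP V} (hP : P.Good) {D : Finset V} {f : V → V} {B : Finset (Sym2 V)}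
    (hinj : Set.InjOn f P.Pl) :
    (usedHw P D f B).card * P.L ≤ 8 * ((1 + P.Δ) * B.card) := by
  have h1 : (usedHw P D f B).card * P.L ≤ 4 * (P.ω * (2 * B.card)) := by
    have h2 : (Finset.univ.filter fun v => P.L ≤ 4 * bw P f B v).card * P.L ≤
        4 * (P.ω * (2 * B.card)) := by
      apply markov Finset.univ (fun v => 4 * bw P f B v) P.L
      rw [← Finset.mul_sum]
      exact Nat.mul_le_mul_left _ (sum_bw_le hP hinj)
    refine le_trans (Nat.mul_le_mul_right _ (Finset.card_le_card ?_)) h2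
    intro x hx
    rw [mem_usedHw] at hx
    rw [Finset.mem_filter]
    exact ⟨Finset.mem_univ _, hx.2.le⟩
  have hω := hP.ωΔ
  calc _ ≤ 4 * (P.ω * (2 * B.card)) := h1
    _ ≤ 4 * ((1 + P.Δ) * (2 * B.card)) := by gcongr; omega
    _ = _ := by ring

theorem LInv.injPl {P : LP V} (hP : P.Good) {D : Finset V} {f : V → V}
    {M B : Finset (Sym2 V)} (hI : LInv P D f M B) : Set.InjOn f P.Pl := by
  intro x hx y hy h
  exact hI.emb.inj (hI.int x (hP.Pl_int x hx)) (hI.int y (hP.Pl_int y hy)) h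

theorem LInv.bd {P : LP V} (hP : P.Good) {D : Finset V} {f : V → V}
    {M B : Finset (Sym2 V)} (hI : LInv P D f M B) : LBd P D f M B := by
  have hD := card_le_univ' D
  have h1 := bounds_aux hP.h1 hP.h2 hP.s20 hP.hsa hP.hcn hP.hca (by have := hP.aL; omega)
    (Qh_le (C := P.Int) (a := P.a) (B := B) hP.deg hI.emb.inj) (card_hvy P.a B)
    (usedHw_bound hP (D := D) (B := B) (hI.injPl hP)) (paid_le (τ := P.τ) (M := M) hP.own (by have := hP.s20; omega))
    hD hI.cardB
  refine ⟨h1.1, h1.2.1, hv_bound hP h1.1, hw8_bound hP (hI.injPl hP) h1.1, ?_, hD⟩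
  intro p hp
  have := hI.deg p hp
  have := h1.2.1
  unfold Tt at *
  omega

theorem LInv.step {P : LP V} (hP : P.Good) {D D' : Finset V} {f f' : V → V}
    {M B M' B' : Finset (Sym2 V)} (hI : LInv P D f M B) (hE : Ext 3 M B M' B')
    (hemb : Emb P.R D' f' M') (hDD : D ⊆ D')
    (hf : ∀ v, (P.R.ch v ≠ ∅ ∨ v ∈ P.Fz) → f' v = f v)
    (hEh : ∀ x, x ∉ unused D f → P.L < 4 * bw P f B x → x ∉ unused D' f')
    (hdebt : debtSum P.τ P.s P.g P.O M' B' ≤ 3)
    (hprog : Qh P.R P.Int P.a D f B + 1 ≤ Qh P.R P.Int P.a D' f' B' ∨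
      (usedHw P D f B).card + 1 ≤ (usedHw P D' f' B').card ∨
      paid P.τ P.s P.O M B + 1 ≤ paid P.τ P.s P.O M' B' ∨
      (D.card + 1 ≤ D'.card ∧ ∀ p, IsOpen P.R D p → dg B (f p) < P.a)) :
    LInv P D' f' M' B' ∧ D.card + Tt P D f M B + 1 ≤ D'.card + Tt P D' f' M' B' := by
  have m1 : Qh P.R P.Int P.a D f B ≤ Qh P.R P.Int P.a D' f' B' :=
    Qh_mono hDD hE.subB fun p _ hp _ => hf p (Or.inl (LP.mem_Int.mp hp))
  have m2 : (usedHw P D f B).card ≤ (usedHw P D' f' B').card := by
    apply Finset.card_le_card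
    intro x hx
    rw [mem_usedHw] at hx ⊢
    refine ⟨hEh x hx.1 hx.2, lt_of_lt_of_le hx.2 (Nat.mul_le_mul_left _ ?_)⟩
    exact bw_mono hE.subB (fun p hp => hf p (Or.inl (hP.Pl_int p hp))) x
  have m3 : paid P.τ P.s P.O M B ≤ paid P.τ P.s P.O M' B' := paid_mono hE.subM hE.subB
  have hDc := Finset.card_le_card hDD
  have hprog' : Tt P D f M B + 1 ≤ Tt P D' f' M' B' ∨
      (D.card + 1 ≤ D'.card ∧ ∀ p, IsOpen P.R D p → dg B (f p) < P.a) := by
    unfold Tt
    rcases hprog with h | h | h | h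
    · left; omega
    · left; omega
    · left; omega
    · right; exact h
  have hTT : Tt P D f M B ≤ Tt P D' f' M' B' := by unfold Tt; omega
  have hsum : D.card + Tt P D f M B + 1 ≤ D'.card + Tt P D' f' M' B' := by
    rcases hprog' with h | ⟨h, _⟩ <;> omega
  have hc3 := hP.c3
  refine ⟨⟨hE.ok, hemb, fun v hv => hDD (hI.int v hv), hI.fz.trans hDD, ?_, ?_, hdebt, ?_, ?_⟩, hsum⟩
  · have : P.H0.image f' = P.H0.image f := by
      apply Finset.image_congr
      intro h hh
      exact hf h (Or.inl (hP.H0_int hh))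
    rw [this]
    exact hI.hub
  · intro x hx
    obtain ⟨v, hv, hv', hvx⟩ := hI.own x hx
    exact ⟨v, hDD hv, hv', (hf v hv').trans hvx⟩
  · have := hE.card_le
    have := hI.cardB
    omega
  · rintro p ⟨hpD', c, hc, hcD⟩
    have hpi : P.R.ch p ≠ ∅ := by
      rintro h
      rw [h] at hc
      simp at hc
    have hpo : IsOpen P.R D p := ⟨hI.int p hpi, c, hc, fun h => hcD (hDD h)⟩
    rw [hf p (Or.inl hpi)]
    have h1 := dg_ext hE (f p)
    rcases hprog' with h | ⟨_, h⟩
    · have := hI.deg p hpo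
      omega
    · have := h p hpo
      omega

/-- The continuation of a macro of phase two. -/
def LCont (P : LP V) (F : Set (Finset (Sym2 V))) (D : Finset V) (f : V → V)
    (M B : Finset (Sym2 V)) : Prop :=
  ∀ D' f' M' B', LInv P D' f' M' B' → D.card + Tt P D f M B + 1 ≤
      D'.card + Tt P D' f' M' B' → Win F M' B'

section

variable {P : LP V} {F : Set (Finset (Sym2 V))} {D : Finset V} {f : V → V}
  {M B : Finset (Sym2 V)}

/-- The payment move, common to both phases. -/
theorem pay_move (hP : P.Good) (hok : Ok M B) (hB : B.card ≤ 5 * Fintype.card V)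
    (hpos : 0 < debtSum P.τ P.s P.g P.O M B) (hle : debtSum P.τ P.s P.g P.O M B ≤ 3)
    (K : ∀ M' B', Ext 1 M B M' B' → debtSum P.τ P.s P.g P.O M' B' ≤ 3 →
      paid P.τ P.s P.O M B + 1 ≤ paid P.τ P.s P.O M' B' → Win F M' B') : Win F M B := by
  have hs : 0 < P.s := by have := hP.s20; omega
  obtain ⟨v, z, hz, hzM, hzB, hd⟩ := exists_pay hP.obig hs hP.oo hpos hle
  have hroom := hP.room
  refine ensure hok (by omega) (a := v) (b := z) ?_ hzB ?_
  · rintro rfl
    exact hP.own.irr v hz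
  · intro M' B' hM' hE
    exact K M' B' hE ((debtSum_pay hP.own hs hE hz hzM hM' hd).trans hle)
      (paid_pay hE hz hzM hM' hd)

theorem macroPay2 (hP : P.Good) (hI : LInv P D f M B)
    (hpos : 0 < debtSum P.τ P.s P.g P.O M B) (K : LCont P F D f M B) : Win F M B := by
  have hb := hI.bd hP
  refine pay_move hP hI.ok hb.cardB hpos hI.debt ?_
  intro M' B' hE hd hp
  obtain ⟨h1, h2⟩ := hI.step hP (hE.mono (by omega)) (hI.emb.mono hE.subM) (Finset.Subset.refl _)
    (fun _ _ => rfl) (fun _ h _ => h) hd (Or.inr (Or.inr (Or.inl hp)))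
  exact K _ _ _ _ h1 h2

/-- Conversion of a weight-heavy unused host. -/
theorem macroConv (hP : P.Good) (hI : LInv P D f M B)
    (hd0 : debtSum P.τ P.s P.g P.O M B = 0) {w : V} (hw : w ∈ unused D f)
    (hwb : P.L < 4 * bw P f B w) (K : LCont P F D f M B) : Win F M B := by
  have hb := hI.bd hP
  have hs : 0 < P.s := by have := hP.s20; omega
  have hroom := hP.room
  have hcB := hb.cardB
  have hOw : P.O w ≠ ∅ := by
    intro h
    obtain ⟨v, hv, _, hvx⟩ := hI.own w h
    rw [mem_unused] at hw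
    exact hw v hv hvx
  have hsafe := safe_count (B := B) (M := M) hP.obig hs hP.oo hI.debt hI.ok.disj hOw
  -- the usable hubs
  set Hs := P.H0.filter (fun h => f h ∈ P.O w ∧ s(w, f h) ∉ B) with hHs
  have hHsc : 80 * P.NL + 2 ≤ Hs.card := by
    have h1 : ((P.O w).filter fun z => s(w, z) ∉ B) ⊆
        (P.Z.filter fun z => z ∉ P.H0.image f) ∪ Hs.image f := by
      intro z hz
      rw [Finset.mem_filter] at hz
      by_cases hzi : z ∈ P.H0.image f
      · obtain ⟨h, hh, rfl⟩ := Finset.mem_image.mp hzi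
        exact Finset.mem_union_right _ (Finset.mem_image_of_mem _
          (Finset.mem_filter.mpr ⟨hh, hz⟩))
      · exact Finset.mem_union_left _ (Finset.mem_filter.mpr ⟨hP.osub w hz.1, hzi⟩)
    have h2 := Finset.card_le_card h1
    have h3 := Finset.card_union_le (P.Z.filter fun z => z ∉ P.H0.image f) (Hs.image f)
    have h4 : (Hs.image f).card ≤ Hs.card := Finset.card_image_le
    have h5 := hI.hub
    have h6 := hP.gG
    omega
  -- their leaves
  have hlv : P.ω * (80 * P.NL + 2) ≤ (Hs.biUnion (lc P.R)).card := by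
    rw [Finset.card_biUnion]
    · calc P.ω * (80 * P.NL + 2) ≤ P.ω * Hs.card := Nat.mul_le_mul_left _ hHsc
        _ = ∑ _h ∈ Hs, P.ω := by rw [Finset.sum_const, smul_eq_mul, Nat.mul_comm]
        _ ≤ _ := Finset.sum_le_sum fun h hh => hP.H0_ge h (Finset.mem_filter.mp hh).1
    · intro x _ y _ hxy
      exact Finset.disjoint_of_subset_left Finset.inter_subset_left
        (Finset.disjoint_of_subset_right Finset.inter_subset_left (RT.ch_disjoint hxy))
  obtain ⟨v₀, hv₀, hv₀'⟩ := exists_avoid (X := Hs.biUnion (lc P.R))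
    (bad := P.Fz ∪ D.filter (fun v => f v ∈ hw8 P f B)) (by
      have h1 := Finset.card_union_le P.Fz (D.filter (fun v => f v ∈ hw8 P f B))
      have h2 := hP.Fz_card
      have h3 : (D.filter (fun v => f v ∈ hw8 P f B)).card ≤ (hw8 P f B).card := by
        apply Finset.card_le_card_of_injOn f
        · intro x hx
          rw [Finset.mem_coe, Finset.mem_filter] at hx
          exact hx.2
        · intro x hx y hy hxy
          rw [Finset.mem_coe, Finset.mem_filter] at hx hy
          exact hI.emb.inj hx.1 hy.1 hxy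
      have h4 := hb.hw
      have h5 := hP.ω1
      have h6 : P.ω * (80 * P.NL + 2) = 80 * P.NL * P.ω + 2 * P.ω := by ring
      omega)
  rw [Finset.mem_biUnion] at hv₀
  obtain ⟨h, hh, hv₀h⟩ := hv₀
  rw [hHs, Finset.mem_filter] at hh
  obtain ⟨hhH, hhO, hhB⟩ := hh
  unfold lc at hv₀h
  rw [Finset.mem_inter, mem_lvs] at hv₀h
  rw [Finset.mem_union, Finset.mem_filter] at hv₀'
  push Not at hv₀'
  have hhD : h ∈ D := hI.int h (hP.H0_int hhH)
  have hne : w ≠ f h := by
    intro h'
    exact not_unused hhD (h' ▸ hw)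
  have hpar : P.R.par v₀ = h := (RT.mem_ch.mp hv₀h.1).2
  refine ensure hI.ok (by omega) (a := w) (b := f h) hne hhB ?_
  intro M' B' hM' hE
  have hfv : ∀ v, (P.R.ch v ≠ ∅ ∨ v ∈ P.Fz) → Function.update f v₀ w v = f v := by
    intro v hv
    rw [Function.update_of_ne]
    rintro rfl
    rcases hv with hv | hv
    · exact hv hv₀h.2
    · exact hv₀'.1 hv
  have hdebt : debtSum P.τ P.s P.g P.O M' B' ≤ 3 := by
    have := debtSum_ext (τ := P.τ) (g := P.g) hP.own hs hE
    omega
  have hinjPl := hI.injPl hP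
  -- the new used heavy set
  have hnew : ∀ D' : Finset V, w ∉ unused D' (Function.update f v₀ w) →
      (∀ x, x ∉ unused D f → P.L < 4 * bw P f B x → x ∉ unused D' (Function.update f v₀ w)) →
      (usedHw P D f B).card + 1 ≤ (usedHw P D' (Function.update f v₀ w) B').card := by
    intro D' hwD' hx
    have h1 : insert w (usedHw P D f B) ⊆ usedHw P D' (Function.update f v₀ w) B' := by
      intro x hx'
      rw [Finset.mem_insert] at hx'
      rw [mem_usedHw]
      have hmono : bw P f B x ≤ bw P (Function.update f v₀ w) B' x :=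
        bw_mono hE.subB (fun p hp => hfv p (Or.inl (hP.Pl_int p hp))) x
      rcases hx' with rfl | hx'
      · exact ⟨hwD', lt_of_lt_of_le hwb (Nat.mul_le_mul_left _ hmono)⟩
      · rw [mem_usedHw] at hx'
        exact ⟨hx x hx'.1 hx'.2, lt_of_lt_of_le hx'.2 (Nat.mul_le_mul_left _ hmono)⟩
    have h2 := Finset.card_le_card h1
    rwa [Finset.card_insert_of_notMem] at h2
    rw [mem_usedHw]
    exact fun h => h.1 hw
  by_cases hv₀D : v₀ ∈ D
  · -- swap
    have hlight := hv₀'.2 hv₀D
    have hl : 8 * bw P f B (f v₀) < P.L := by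
      unfold hw8 at hlight
      simp only [Finset.mem_filter, Finset.mem_univ, true_and, not_le] at hlight
      exact hlight
    have emb1 := (hI.emb.mono hE.subM).rehost (v := v₀) (w := w) hv₀D hw
      (by intro _; rw [hpar, Sym2.eq_swap]; exact hM')
      (by intro c _ hc; rw [hv₀h.2] at hc; simp at hc)
    have hun : unused D (Function.update f v₀ w) = insert (f v₀) ((unused D f).erase w) :=
      unused_rehost hI.emb hv₀D hw
    have hEh : ∀ x, x ∉ unused D f → P.L < 4 * bw P f B x →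
        x ∉ unused D (Function.update f v₀ w) := by
      intro x hx hxb
      rw [hun, Finset.mem_insert, Finset.mem_erase]
      rintro (rfl | ⟨_, h⟩)
      · omega
      · exact hx h
    obtain ⟨h1, h2⟩ := hI.step hP (hE.mono (by omega)) emb1 (Finset.Subset.refl _) hfv hEh hdebt
      (Or.inr (Or.inl (hnew D (by
        rw [hun, Finset.mem_insert, Finset.mem_erase]
        rintro (h | ⟨h, _⟩)
        · exact not_unused hv₀D (h ▸ hw)
        · exact h rfl) hEh)))
    exact K _ _ _ _ h1 h2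
  · have emb1 := (hI.emb.mono hE.subM).add (v := v₀) (y := w) hv₀D (by rw [hpar]; exact hhD) hw
      (by rw [hpar, Sym2.eq_swap]; exact hM')
    have hun := unused_add (f := f) (y := w) hv₀D
    have hEh : ∀ x, x ∉ unused D f → P.L < 4 * bw P f B x →
        x ∉ unused (insert v₀ D) (Function.update f v₀ w) := by
      intro x hx _
      rw [hun, Finset.mem_erase]
      exact fun h => hx h.2
    obtain ⟨h1, h2⟩ := hI.step hP (hE.mono (by omega)) emb1 (Finset.subset_insert _ _) hfv hEh hdebt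
      (Or.inr (Or.inl (hnew (insert v₀ D) (by
        rw [hun, Finset.mem_erase]
        exact fun h => h.1 rfl) hEh)))
    exact K _ _ _ _ h1 h2

end

end Pool.Agent.Lib.MP_9916e0_co
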