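import Pool.Agent.Lib.MP_9916e0_co.StarTree

set_option autoImplicit false
set_option linter.unusedSectionVars false
set_option linter.unusedVariables false

namespace Pool.Agent.Lib.MP_9916e0_co

theorem room_bound {n K : ℕ} (h : 2 * K + 41 ≤ n) : K * n + 20 ≤ (brd (Fin n)).card := by
  have h1 := card_brd (V := Fin n)
  rw [Fintype.card_fin] at h1
  obtain ⟨m, rfl⟩ : ∃ m, n = m + 1 := ⟨n - 1, by omega⟩
  rw [Nat.add_sub_cancel] at h1
  nlinarith

/-- Few leaves: the path engine. -/
theorem path_win {n Δ : ℕ} (T : SimpleGraph (Fin n)) (hT : T.IsTree)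
    (hΔ : ∀ v, (tn T v).card ≤ Δ) (hN : 100000000000000000 * Δ ≤ n)
    (hn : 100000000000000000 ≤ n)
    (hleaf : 100000 * (tlvs T).card ≤ n) {B0 : Finset (Sym2 (Fin n))} (hB0 : B0.card ≤ 1) :
    Win (copies T) ∅ B0 := by
  obtain ⟨r, hr⟩ := exists_internal hT (by rw [Fintype.card_fin]; omega)
  obtain ⟨R, hRr, hR⟩ := exists_rooted hT r
  subst hRr
  have hΔ2 : 2 ≤ Δ := hr.trans (hΔ _)
  have hlv : (lvs R).card = (tlvs T).card := by rw [hR.lvs_eq hr]
  have hno := card_nonone R
  obtain ⟨a, ha⟩ : ∃ a, a = n / 300000 := ⟨_, rfl⟩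
  have ha1 : 300000 * a ≤ n := by omega
  have ha2 : n ≤ 400000 * a := by omega
  refine start_path (R := R) (a := a) (Δ := Δ) (c := 5) (goal_copies hR)
    { deg := fun v => (Finset.card_le_card (ch_subset_tn hR v)).trans (hΔ v)
      room := ?_
      h1 := by omega
      h2 := ?_
      haa := ?_
      hcn := by rw [Fintype.card_fin]; omega
      hca := by omega
      c5 := le_rfl
      lv := by omega
      win := by rw [Fintype.card_fin]; omega } hB0
  · rw [Fintype.card_fin]
    exact room_bound (by omega)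
  · rw [Fintype.card_fin]
    have e1 : 1 + Δ ≤ 2 * Δ := by omega
    have e2 : 100000000000000000 * (n * (1 + Δ)) ≤ 2 * (n * n) := by
      calc 100000000000000000 * (n * (1 + Δ)) ≤ 100000000000000000 * (n * (2 * Δ)) := by gcongr
        _ = 2 * (n * (100000000000000000 * Δ)) := by ring
        _ ≤ 2 * (n * n) := by gcongr
    have e3 : n * n ≤ (400000 * a) * (400000 * a) := Nat.mul_le_mul ha2 ha2
    have e4 : (400000 * a) * (400000 * a) = 160000000000 * (a * a) := by ring
    rw [e4] at e3
    omega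
  · rw [Fintype.card_fin]
    have e3 : n * 1 ≤ (400000 * a) * a := Nat.mul_le_mul ha2 (by omega)
    have e4 : 400000 * 22 * a ≤ a * a := Nat.mul_le_mul (by omega) le_rfl
    nlinarith

/-- Many leaves: the leaf engine. -/
theorem leaf_win {n O0 k m Δ : ℕ} (hO0 : O0 = o0 110000 4100000) (hk : k = 2 * O0 + 4)
    (hm : m = 1 + k + k * (2 * (3 * O0))) (T : SimpleGraph (Fin n)) (hT : T.IsTree)
    (hΔ : ∀ v, (tn T v).card ≤ Δ)
    (hN : 100000000000000000 * ((m + 1) * Δ) ≤ n)
    (hn : 1000000000 * (4 * k + 20 + 3 * O0 + 100000000 + m) ≤ n)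
    (hleaf : n < 100000 * (tlvs T).card) {B0 : Finset (Sym2 (Fin n))} (hB0 : B0.card ≤ 1) :
    Win (copies T) ∅ B0 := by
  obtain ⟨Top, ω, hTc, hTge, hTle⟩ := exists_top (fun v => (tlf T v).card) m
    (by rw [Fintype.card_fin]; omega)
  obtain ⟨a, ha⟩ : ∃ a, a = n / 4000000 := ⟨_, rfl⟩
  have ha1 : 4000000 * a ≤ n := by omega
  have ha2 : n ≤ 4100000 * a := by omega
  have hmΔ : (m + 1) * Δ = m * Δ + Δ := by ring
  have hΔn : 100000000000000000 * Δ ≤ n := by
    rw [hmΔ] at hN
    omega
  have hmn : 100000000000000000 * (m * Δ) ≤ n := by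
    rw [hmΔ] at hN
    omega
  have base : ∀ R : RT (Fin n), Rooted T R → 2 ≤ (tn T R.r).card →
      Base R a Δ 110000 4100000 ω (∑ p ∈ poolCl R Top, (lc R p).card) (poolCl R Top) := by
    intro R hR hr
    have hΔ2 : 2 ≤ Δ := hr.trans (hΔ _)
    have hL := pool_large hR hr hΔ Top
    rw [hTc] at hL
    have hω1 : 1 ≤ ω := by
      by_contra hcon
      have hω0 : ω = 0 := by omega
      have h0 : ∑ p ∈ poolCl R Top, (lc R p).card = 0 := by
        apply Finset.sum_eq_zero
        intro p hp
        unfold poolCl at hp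
        rw [Finset.mem_filter] at hp
        have h1 := hTle p hp.2.1
        rw [← hR.lc_eq hr p, hω0] at h1
        omega
      omega
    refine
      { deg := fun v => (Finset.card_le_card (ch_subset_tn hR v)).trans (hΔ v)
        room := ?_
        h1 := by omega
        h2 := ?_
        n6 := by rw [Fintype.card_fin]; omega
        aL := by omega
        nL := by rw [Fintype.card_fin]; omega
        na := by rw [Fintype.card_fin]; omega
        Naa := by omega
        cw := by omega
        ω1 := hω1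
        ωΔ := ?_
        Pl_int := ?_
        Pl_le := ?_
        L_eq := rfl }
    · rw [Fintype.card_fin]
      exact room_bound (by omega)
    · rw [Fintype.card_fin]
      have e1 : 1 + Δ ≤ 2 * Δ := by omega
      have e2 : 100000000000000000 * (n * (1 + Δ)) ≤ 2 * (n * n) := by
        calc 100000000000000000 * (n * (1 + Δ)) ≤ 100000000000000000 * (n * (2 * Δ)) := by gcongr
          _ = 2 * (n * (100000000000000000 * Δ)) := by ring
          _ ≤ 2 * (n * n) := by gcongr
      have e3 : n * n ≤ (4100000 * a) * (4100000 * a) := Nat.mul_le_mul ha2 ha2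
      have e4 : (4100000 * a) * (4100000 * a) = 16810000000000 * (a * a) := by ring
      rw [e4] at e3
      omega
    · obtain ⟨p, hp⟩ : Top.Nonempty := by
        rw [← Finset.card_pos]
        omega
      have h1 := hTge p hp
      refine h1.trans (le_trans (Finset.card_le_card ?_) (hΔ p))
      unfold tlf
      exact Finset.filter_subset _ _
    · intro p hp
      unfold poolCl at hp
      exact (Finset.mem_filter.mp hp).2.2
    · intro p hp
      unfold poolCl at hp
      rw [Finset.mem_filter] at hp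
      rw [hR.lc_eq hr p]
      exact hTle p hp.2.1
  by_cases hs : ∃ q, k + 1 ≤ (tn T q ∩ Top).card
  · obtain ⟨q, hq⟩ := hs
    obtain ⟨R, hRr, hR⟩ := exists_rooted hT q
    subst hRr
    have hr : 2 ≤ (tn T R.r).card := by
      have := Finset.card_le_card (Finset.inter_subset_left (s₁ := tn T R.r) (s₂ := Top))
      omega
    obtain ⟨e, he, hinj⟩ := exists_enum hq
    refine start_sib (R := R) (h := e) (k := k) (goal_copies hR) (base R hR hr) hinj ?_ ?_
      (by rw [hk, hO0]) (by omega) (by rw [Fintype.card_fin]; omega) hB0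
    · intro i hi
      have := he i hi
      rw [Finset.mem_inter, hR.tn_root] at this
      exact this.1
    · intro i hi
      have := he i hi
      rw [Finset.mem_inter] at this
      rw [hR.lc_eq hr]
      exact hTge _ this.2
  · push Not at hs
    obtain ⟨r, hr⟩ := exists_internal hT (by rw [Fintype.card_fin]; omega)
    obtain ⟨R, hRr, hR⟩ := exists_rooted hT r
    subst hRr
    obtain ⟨H0, hH0T, hH0c, hpr, sep, sep2⟩ := exists_spread (R := R) (Top := Top) (k := k)
      (m₀ := 3 * O0) (by omega)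
      (by
        intro q
        have h1 := hs q
        have h2 := Finset.card_le_card (Finset.inter_subset_inter_right (u := Top) (ch_subset_tn hR q))
        omega)
      (by omega)
    refine start_prox (R := R) (goal_copies hR) (base R hR hr) (H0 := H0) ?_ ?_ hpr sep sep2 ?_ ?_ hB0
    · intro h hh
      rw [hR.lc_eq hr]
      exact hTge _ (hH0T hh)
    · rw [← hO0]; exact hH0c
    · rw [← hO0]; omega
    · rw [← hO0, Fintype.card_fin]; omega

/-- Maker wins for all trees of maximum degree at most a small multiple of `n`. -/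
theorem tree_win : ∃ N n₀ : ℕ, 0 < N ∧ ∀ n, n₀ ≤ n → ∀ d, N * d ≤ n → AllTreesWin n d := by
  obtain ⟨O0, hO0⟩ : ∃ x, x = o0 110000 4100000 := ⟨_, rfl⟩
  obtain ⟨k, hk⟩ : ∃ x, x = 2 * O0 + 4 := ⟨_, rfl⟩
  obtain ⟨m, hm⟩ : ∃ x, x = 1 + k + k * (2 * (3 * O0)) := ⟨_, rfl⟩
  refine ⟨100000000000000000 * (m + 1),
    1000000000 * (4 * k + 20 + 3 * O0 + 100000000 + m), by omega, ?_⟩
  intro n hn d hd T hT hdeg
  have hΔ : ∀ v, (tn T v).card ≤ d := fun v => by rw [card_tn_eq]; exact hdeg v
  refine MakerWins.breaker _ _ ?_ ?_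
  · refine ⟨s(⟨0, by omega⟩, ⟨1, by omega⟩), ?_, by simp, by simp⟩
    simp [board]
  · intro e _ _ _
    have hc : (insert e (∅ : Finset (Sym2 (Fin n)))).card ≤ 1 := by simp
    show Win (copies T) ∅ (insert e ∅)
    rw [Nat.mul_assoc] at hd
    by_cases hleaf : 100000 * (tlvs T).card ≤ n
    · refine path_win T hT hΔ ?_ (by omega) hleaf hc
      refine le_trans ?_ hd
      apply Nat.mul_le_mul_left
      exact Nat.le_mul_of_pos_left _ (by omega)
    · exact leaf_win hO0 hk hm T hT hΔ hd hn (by omega) hc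

theorem isGreatest_maxDeg {n : ℕ} (hn : 2 ≤ n) : IsGreatest {d : ℕ | AllTreesWin n d} (maxDeg n) := by
  have hne : {d : ℕ | AllTreesWin n d}.Nonempty := by
    refine ⟨0, ?_⟩
    intro T hT hdeg
    exfalso
    obtain ⟨r⟩ : Nonempty (Fin n) := hT.connected.nonempty
    obtain ⟨R, hRr, hR⟩ := exists_rooted hT r
    have h1 := sum_ch R
    rw [Fintype.card_fin] at h1
    have h2 : ∑ v, (R.ch v).card = 0 := by
      apply Finset.sum_eq_zero
      intro v _
      have h3 := Finset.card_le_card (ch_subset_tn hR v)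
      have h4 := hdeg v
      rw [← card_tn_eq] at h4
      omega
    omega
  have hbdd : BddAbove {d : ℕ | AllTreesWin n d} := by
    refine ⟨n - 1, ?_⟩
    intro d hd
    by_contra hcon
    push Not at hcon
    exact not_allTreesWin hn hcon.le hd
  exact ⟨Nat.sSup_mem hne hbdd, fun d hd => le_csSup hbdd hd⟩

theorem main : (∀ n : ℕ, 2 ≤ n → IsGreatest {d : ℕ | AllTreesWin n d} (maxDeg n)) ∧
    ∃ c : ℝ, 0 < c ∧ ∃ n₀ : ℕ, ∀ n : ℕ, n₀ ≤ n → c * n ≤ maxDeg n ∧ maxDeg n ≤ n - 2 := by
  refine ⟨fun n hn => isGreatest_maxDeg hn, ?_⟩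
  obtain ⟨N, n₀, hN, h⟩ := tree_win
  refine ⟨1 / (2 * N), by positivity, max n₀ (max 2 N), ?_⟩
  intro n hn
  have hn0 : n₀ ≤ n := le_trans (le_max_left _ _) hn
  have hn2 : 2 ≤ n := le_trans (le_trans (le_max_left _ _) (le_max_right _ _)) hn
  have hnN : N ≤ n := le_trans (le_trans (le_max_right _ _) (le_max_right _ _)) hn
  have hg := isGreatest_maxDeg hn2
  refine ⟨?_, ?_⟩
  · have h1 : AllTreesWin n (n / N) := h n hn0 (n / N) (Nat.mul_div_le n N)
    have h2 : n / N ≤ maxDeg n := hg.2 h1
    have h3 : n < N * (n / N) + N := Nat.lt_mul_div_succ n hN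
    have h4 : 1 ≤ n / N := (Nat.one_le_div_iff hN).mpr hnN
    have h5 : n ≤ 2 * N * (n / N) := by
      have : N * 1 ≤ N * (n / N) := Nat.mul_le_mul_left _ h4
      nlinarith
    have h6 : (n : ℝ) ≤ 2 * N * (n / N : ℕ) := by exact_mod_cast h5
    have hN' : (0 : ℝ) < 2 * N := by positivity
    rw [one_div, inv_mul_le_iff₀ hN']
    calc (n : ℝ) ≤ 2 * N * (n / N : ℕ) := h6
      _ ≤ 2 * N * (maxDeg n : ℝ) := by
        apply mul_le_mul_of_nonneg_left _ hN'.le
        exact_mod_cast h2
  · by_contra hcon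
    push Not at hcon
    exact not_allTreesWin hn2 (by omega) hg.1

end Pool.Agent.Lib.MP_9916e0_co
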