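import Pool.Agent.Lib.MP_9916e0_co.Engine

set_option autoImplicit false
set_option linter.unusedSectionVars false
set_option linter.unusedVariables false

namespace Pool.Agent.Lib.MP_9916e0_co

variable {V : Type*} [Fintype V] [DecidableEq V]

/-- Hosts whose Breaker degree must be controlled. -/
def Vul (R : RT V) (D : Finset V) (f : V → V) (x : V) : Prop :=
  x ∈ unused D f ∨ ∃ p, IsOpen R D p ∧ f p = x

theorem Vul.of_add {R : RT V} {D : Finset V} {f : V → V} {v y x : V} (hv : v ∉ D)
    (hy : y ∈ unused D f) (h : Vul R (insert v D) (Function.update f v y) x) : Vul R D f x := by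
  rcases h with h | ⟨p, ⟨hp, c, hc, hcD⟩, hpx⟩
  · rw [unused_add hv] at h
    exact Or.inl (Finset.mem_of_mem_erase h)
  · by_cases hpv : p = v
    · rw [hpv, Function.update_self] at hpx
      exact Or.inl (hpx ▸ hy)
    · rw [Function.update_of_ne hpv] at hpx
      exact Or.inr ⟨p, ⟨(Finset.mem_insert.mp hp).resolve_left hpv, c, hc,
        fun h => hcD (Finset.mem_insert_of_mem h)⟩, hpx⟩

/-- Constants of the path engine. -/
structure PC (R : RT V) (a Δ c : ℕ) : Prop where
  deg : ∀ v, (R.ch v).card ≤ Δ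
  room : 22 * Fintype.card V + 20 ≤ (brd V).card
  h1 : 20 * (1 + Δ) ≤ a
  h2 : 220 * (Fintype.card V * (1 + Δ)) ≤ a * a
  haa : 22 * Fintype.card V ≤ a * a
  hcn : 2 * c ≤ Fintype.card V
  hca : 2 * c ≤ a
  c5 : 5 ≤ c
  lv : 2 * (lvs R).card < 12 * a
  win : 2 * (4100 * (nonone R).card + 4100 * (15 * a)) ≤ Fintype.card V

/-- The invariant of the path engine. -/
structure PInv (R : RT V) (a c : ℕ) (D : Finset V) (f : V → V) (M B : Finset (Sym2 V)) : Prop where
  ok : Ok M B
  emb : Emb R D f M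
  cardB : B.card ≤ 5 * (D.card + Qh R Finset.univ a D f B) + c
  deg : ∀ x, Vul R D f x → dg B x ≤ a + 5 * Qh R Finset.univ a D f B + c

/-- Consequences of the invariant. -/
structure PBd (R : RT V) (a c : ℕ) (D : Finset V) (f : V → V) (B : Finset (Sym2 V)) : Prop where
  cardB : B.card ≤ 11 * Fintype.card V
  q : 5 * Qh R Finset.univ a D f B + c ≤ a
  hv : (hvy a B).card ≤ a
  vul : ∀ x, Vul R D f x → dg B x ≤ 2 * a
  cardD : D.card ≤ Fintype.card V

theorem PInv.bd {R : RT V} {a Δ c : ℕ} {D : Finset V} {f : V → V} {M B : Finset (Sym2 V)}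
    (hC : PC R a Δ c) (hI : PInv R a c D f M B) : PBd R a c D f B := by
  have ha : 0 < a := by have := hC.h1; omega
  have hD : D.card ≤ Fintype.card V := by
    rw [← Finset.card_univ]; exact Finset.card_le_card (Finset.subset_univ _)
  have hQ := Qh_le (C := Finset.univ) (a := a) (B := B) hC.deg hI.emb.inj
  have hh := card_hvy a B
  set Q := Qh R Finset.univ a D f B with hQdef
  set H := (hvy a B).card with hH
  set n := Fintype.card V with hn
  have e1 : Q * a ≤ (1 + Δ) * (2 * B.card) := by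
    calc Q * a ≤ (1 + Δ) * H * a := Nat.mul_le_mul_right _ hQ
      _ = (1 + Δ) * (H * a) := Nat.mul_assoc _ _ _
      _ ≤ _ := Nat.mul_le_mul_left _ hh
  have e2 : 10 * Q ≤ B.card := by
    apply Nat.le_of_mul_le_mul_right (c := a) _ ha
    calc 10 * Q * a = 10 * (Q * a) := Nat.mul_assoc _ _ _
      _ ≤ 10 * ((1 + Δ) * (2 * B.card)) := Nat.mul_le_mul_left _ e1
      _ = 20 * (1 + Δ) * B.card := by ring
      _ ≤ a * B.card := Nat.mul_le_mul_right _ hC.h1
      _ = B.card * a := Nat.mul_comm _ _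
  have e3 : B.card ≤ 11 * n := by
    have := hI.cardB
    have := hC.hcn
    omega
  have e4 : 10 * Q ≤ a := by
    apply Nat.le_of_mul_le_mul_right (c := a) _ ha
    calc 10 * Q * a = 10 * (Q * a) := Nat.mul_assoc _ _ _
      _ ≤ 10 * ((1 + Δ) * (2 * B.card)) := Nat.mul_le_mul_left _ e1
      _ ≤ 10 * ((1 + Δ) * (2 * (11 * n))) := by gcongr
      _ = 220 * (n * (1 + Δ)) := by ring
      _ ≤ a * a := hC.h2
  have e5 : 5 * Q + c ≤ a := by
    have := hC.hca
    omega
  refine ⟨e3, e5, ?_, ?_, hD⟩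
  · apply Nat.le_of_mul_le_mul_right (c := a) _ ha
    calc H * a ≤ 2 * B.card := hh
      _ ≤ 22 * n := by omega
      _ ≤ a * a := hC.haa
  · intro x hx
    have := hI.deg x hx
    omega

theorem PInv.step {R : RT V} {a Δ c : ℕ} {D D' : Finset V} {f f' : V → V}
    {M B M' B' : Finset (Sym2 V)} (hC : PC R a Δ c) (hI : PInv R a c D f M B)
    (hE : Ext 5 M B M' B') (hemb : Emb R D' f' M') (hDD : D ⊆ D')
    (hf : ∀ p ∈ D, a ≤ dg B (f p) → f' p = f p)
    (hvul : ∀ x, Vul R D' f' x → Vul R D f x ∨ dg B x < a)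
    (hprog : Qh R Finset.univ a D f B + 1 ≤ Qh R Finset.univ a D' f' B' ∨
      (D.card + 1 ≤ D'.card ∧ ∀ x, Vul R D f x → dg B x < a)) :
    PInv R a c D' f' M' B' ∧ D.card + Qh R Finset.univ a D f B + 1 ≤
      D'.card + Qh R Finset.univ a D' f' B' := by
  have hm : Qh R Finset.univ a D f B ≤ Qh R Finset.univ a D' f' B' :=
    Qh_mono hDD hE.subB fun p hp _ h => hf p hp h
  have hDc := Finset.card_le_card hDD
  have hc5 := hC.c5
  have hp : D.card + Qh R Finset.univ a D f B + 1 ≤ D'.card + Qh R Finset.univ a D' f' B' := by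
    rcases hprog with h | ⟨h, _⟩ <;> omega
  refine ⟨⟨hE.ok, hemb, ?_, ?_⟩, hp⟩
  · have := hE.card_le
    have := hI.cardB
    omega
  · intro x hx
    have h1 := dg_ext hE x
    rcases hprog with h | ⟨_, h⟩
    · rcases hvul x hx with h2 | h2
      · have := hI.deg x h2
        omega
      · omega
    · rcases hvul x hx with h2 | h2
      · have := h x h2
        omega
      · omega

/-- The continuation of a macro of the path engine. -/
def PCont (R : RT V) (F : Set (Finset (Sym2 V))) (a c : ℕ) (D : Finset V) (f : V → V)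
    (B : Finset (Sym2 V)) : Prop :=
  ∀ D' f' M' B', PInv R a c D' f' M' B' → D.card + Qh R Finset.univ a D f B + 1 ≤
      D'.card + Qh R Finset.univ a D' f' B' → Win F M' B'

section

variable {R : RT V} {F : Set (Finset (Sym2 V))} {a Δ c : ℕ} {D : Finset V} {f : V → V}
  {M B : Finset (Sym2 V)}

theorem isOpen_of {p v : V} (hv : v ∉ D) (hr : v ≠ R.r) (hp : R.par v = p) (hpD : p ∈ D) :
    IsOpen R D p := ⟨hpD, v, RT.mem_ch.mpr ⟨hr, hp⟩, hv⟩

/-- End of macro (1a). -/
theorem finish1a (hC : PC R a Δ c) (hI : PInv R a c D f M B) {w : V} (hw : w ∈ unused D f)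
    (hwa : a ≤ dg B w) {v₁ v₂ v₃ : V} (hv1 : v₁ ∉ D) (hp : R.par v₁ ∈ D) (hv2 : v₂ ∈ R.ch v₁)
    (hv3 : v₃ ∈ R.ch v₂) {x y : V} (hx : x ∈ unused D f) (hy : y ∈ unused D f) (hxy : x ≠ y)
    (hxw : x ≠ w) (hyw : y ≠ w) {M' B' : Finset (Sym2 V)} (hE : Ext 4 M B M' B')
    (h1 : s(f (R.par v₁), x) ∈ M') (h2 : s(x, y) ∈ M') (h3 : s(w, y) ∈ M')
    (K : PCont R F a c D f B) : Win F M' B' := by
  have hv2D : v₂ ∉ D := hI.emb.ch_notMem hv1 hv2
  have hv3D : v₃ ∉ D := hI.emb.ch_notMem hv2D hv3
  have hd2 := RT.dep_ch hv2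
  have hd3 := RT.dep_ch hv3
  have h21 : v₂ ≠ v₁ := by rintro rfl; omega
  have h31 : v₃ ≠ v₁ := by rintro rfl; omega
  have h32 : v₃ ≠ v₂ := by rintro rfl; omega
  have hp2 : R.par v₂ = v₁ := (RT.mem_ch.mp hv2).2
  have hp3 : R.par v₃ = v₂ := (RT.mem_ch.mp hv3).2
  have emb1 := (hI.emb.mono hE.subM).add hv1 hp hx h1
  have hv2D1 : v₂ ∉ insert v₁ D := by
    rw [Finset.mem_insert]; push Not; exact ⟨h21, hv2D⟩
  have hyu : y ∈ unused (insert v₁ D) (Function.update f v₁ x) := by
    rw [unused_add hv1, Finset.mem_erase]; exact ⟨hxy.symm, hy⟩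
  have hwu : w ∈ unused (insert v₁ D) (Function.update f v₁ x) := by
    rw [unused_add hv1, Finset.mem_erase]; exact ⟨hxw.symm, hw⟩
  have emb2 := emb1.add (v := v₂) (y := y) hv2D1 (by rw [hp2]; exact Finset.mem_insert_self _ _) hyu
    (by rw [hp2, Function.update_self]; exact h2)
  have hv3D2 : v₃ ∉ insert v₂ (insert v₁ D) := by
    rw [Finset.mem_insert, Finset.mem_insert]; push Not; exact ⟨h32, h31, hv3D⟩
  have hwu2 : w ∈ unused (insert v₂ (insert v₁ D))
      (Function.update (Function.update f v₁ x) v₂ y) := by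
    rw [unused_add hv2D1, Finset.mem_erase]; exact ⟨hyw.symm, hwu⟩
  have emb3 := emb2.add (v := v₃) (y := w) hv3D2 (by rw [hp3]; exact Finset.mem_insert_self _ _) hwu2
    (by rw [hp3, Function.update_self, Sym2.eq_swap]; exact h3)
  have hDD : D ⊆ insert v₃ (insert v₂ (insert v₁ D)) := by
    intro u hu
    exact Finset.mem_insert_of_mem (Finset.mem_insert_of_mem (Finset.mem_insert_of_mem hu))
  have hfD : ∀ p ∈ D, Function.update (Function.update (Function.update f v₁ x) v₂ y) v₃ w p = f p := by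
    intro q hq
    have e3 : q ≠ v₃ := fun h => hv3D (h ▸ hq)
    have e2 : q ≠ v₂ := fun h => hv2D (h ▸ hq)
    have e1 : q ≠ v₁ := fun h => hv1 (h ▸ hq)
    rw [Function.update_of_ne e3, Function.update_of_ne e2, Function.update_of_ne e1]
  obtain ⟨h4, h5⟩ := hI.step hC (hE.mono (by omega)) emb3 hDD (fun p hp _ => hfD p hp)
    (fun z hz => Or.inl (Vul.of_add hv1 hx (Vul.of_add hv2D1 hyu (Vul.of_add hv3D2 hwu2 hz))))
    (Or.inl (Qh_lt_new hDD hE.subB (fun p hp _ _ => hfD p hp) (p := v₃)
      (Finset.mem_insert_self _ _) (Finset.mem_univ _)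
      (by rw [Function.update_self]; exact hwa.trans (dg_mono hE.subB w)) (Or.inl hv3D)))
  exact K _ _ _ _ h4 h5

/-- Macro (1a): place the heavy unused host `w` deep below an open vertex. -/
theorem macro1a (hC : PC R a Δ c) (hI : PInv R a c D f M B) {w : V} (hw : w ∈ unused D f)
    (hwa : a ≤ dg B w) (hX : 12 * a ≤ (unused D f).card) (K : PCont R F a c D f B) :
    Win F M B := by
  have hb := hI.bd hC
  have hcu := hI.emb.card_unused
  obtain ⟨v₁, v₂, v₃, hv1, hp, hv2, hv3⟩ := exists_chain hI.emb (by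
    have := hC.lv
    omega)
  have hc5 := hC.c5
  have hca := hC.hca
  have hroom := hC.room
  have hcB := hb.cardB
  have hpo : IsOpen R D (R.par v₁) := isOpen_of hv1 (hI.emb.ne_root hv1) rfl hp
  have hdp : dg B (f (R.par v₁)) ≤ 2 * a := hb.vul _ (Or.inr ⟨_, hpo, rfl⟩)
  have hdw : dg B w ≤ 2 * a := hb.vul _ (Or.inl hw)
  -- choose x₁
  obtain ⟨x₁, hx1, hx1'⟩ := exists_avoid (X := unused D f) (bad := {w} ∪ nb B (f (R.par v₁))) (by
    have h1 := Finset.card_union_le {w} (nb B (f (R.par v₁)))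
    rw [Finset.card_singleton] at h1
    unfold dg at hdp
    omega)
  rw [Finset.mem_union, Finset.mem_singleton, mem_nb] at hx1'
  push Not at hx1'
  refine ensure hI.ok (by omega) (a := f (R.par v₁)) (b := x₁)
    (fun h => not_unused hp (h ▸ hx1)) hx1'.2 ?_
  intro M1 B1 hM1 hE1
  have hd1 := dg_ext hE1
  have hc1 := hE1.card_le
  -- choose x₂
  obtain ⟨x₂, hx2, hx2'⟩ := exists_avoid (X := unused D f) (bad := {w} ∪ {x₁} ∪ nb B1 (f (R.par v₁)))
    (by
      have h1 := Finset.card_union_le ({w} ∪ {x₁}) (nb B1 (f (R.par v₁)))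
      have h2 := Finset.card_union_le {w} {x₁}
      rw [Finset.card_singleton, Finset.card_singleton] at h2
      have := hd1 (f (R.par v₁))
      unfold dg at this hdp
      omega)
  rw [Finset.mem_union, Finset.mem_union, Finset.mem_singleton, Finset.mem_singleton, mem_nb] at hx2'
  push Not at hx2'
  refine ensure hE1.ok (by omega) (a := f (R.par v₁)) (b := x₂)
    (fun h => not_unused hp (h ▸ hx2)) hx2'.2 ?_
  intro M2 B2 hM2 hE2
  have hE2' := hE1.trans hE2
  have hd2 := dg_ext hE2'
  have hc2 := hE2'.card_le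
  -- choose y
  obtain ⟨y, hy, hy'⟩ := exists_avoid (X := unused D f)
    (bad := {w} ∪ {x₁} ∪ {x₂} ∪ (nb B2 w ∪ nb B2 x₁ ∪ nb B2 x₂))
    (by
      have h1 := Finset.card_union_le ({w} ∪ {x₁} ∪ {x₂}) (nb B2 w ∪ nb B2 x₁ ∪ nb B2 x₂)
      have h2 := Finset.card_union_le ({w} ∪ {x₁}) {x₂}
      have h3 := Finset.card_union_le {w} {x₁}
      have h4 := Finset.card_union_le (nb B2 w ∪ nb B2 x₁) (nb B2 x₂)
      have h5 := Finset.card_union_le (nb B2 w) (nb B2 x₁)
      rw [Finset.card_singleton] at h2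
      rw [Finset.card_singleton, Finset.card_singleton] at h3
      have e1 := hd2 w
      have e2 := hd2 x₁
      have e3 := hd2 x₂
      have e4 := hb.vul _ (Or.inl hx1)
      have e5 := hb.vul _ (Or.inl hx2)
      unfold dg at *
      omega)
  simp only [Finset.mem_union, Finset.mem_singleton, mem_nb] at hy'
  push Not at hy'
  obtain ⟨⟨⟨hyw, hyx1⟩, hyx2⟩, ⟨hywB, hyx1B⟩, hyx2B⟩ := hy'
  refine ensure hE2.ok (by omega) (a := w) (b := y) (Ne.symm hyw) hywB ?_
  intro M3 B3 hM3 hE3
  have hE3' := hE2'.trans hE3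
  have hc3 := hE3'.card_le
  have hne : s(x₁, y) ≠ s(x₂, y) := by
    intro h
    rw [Sym2.eq_iff] at h
    rcases h with ⟨h, _⟩ | ⟨h, _⟩
    · exact hx2'.1.2 h.symm
    · exact hyx1 h.symm
  rcases two_choices le_rfl hE3 hne hyx1B hyx2B with h | h
  · refine ensure hE3.ok (by omega) (a := x₁) (b := y) (Ne.symm hyx1) h ?_
    intro M4 B4 hM4 hE4
    exact finish1a hC hI hw hwa hv1 hp hv2 hv3 hx1 hy (Ne.symm hyx1) hx1'.1 hyw (hE3'.trans hE4)
      (hE4.subM (hE3.subM (hE2.subM hM1))) hM4 (hE4.subM hM3) K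
  · refine ensure hE3.ok (by omega) (a := x₂) (b := y) (Ne.symm hyx2) h ?_
    intro M4 B4 hM4 hE4
    exact finish1a hC hI hw hwa hv1 hp hv2 hv3 hx2 hy (Ne.symm hyx2) hx2'.1.1 hyw (hE3'.trans hE4)
      (hE4.subM (hE3.subM hM2)) hM4 (hE4.subM hM3) K

/-- A window in the current embedding avoiding bad hosts. -/
theorem exists_window_state (h : Emb R D f M) (k : ℕ) (hk : 8 ≤ k) (S Fs : Finset V)
    (hc : k * (nonone R).card + k * ((unused D f).card + S.card) + 8 * Fs.card < Fintype.card V) :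
    ∃ t : ℕ → V, Wd R k t ∧ (∀ i < k, t i ∈ D) ∧ (∀ i < k, f (t i) ∉ S) ∧
      (∀ i < 8, f (t i) ∉ Fs) := by
  have hfil : ∀ T : Finset V, (D.filter fun u => f u ∈ T).card ≤ T.card := by
    intro T
    apply Finset.card_le_card_of_injOn f
    · intro u hu
      rw [Finset.mem_coe, Finset.mem_filter] at hu
      exact hu.2
    · intro u hu v hv huv
      rw [Finset.mem_coe, Finset.mem_filter] at hu hv
      exact h.inj hu.1 hv.1 huv
  obtain ⟨t, h1, h2, h3⟩ := exists_window R k hk ((Finset.univ \ D) ∪ D.filter fun u => f u ∈ S)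
    (D.filter fun u => f u ∈ Fs) (by
      have e1 := Finset.card_union_le (Finset.univ \ D) (D.filter fun u => f u ∈ S)
      have e2 := hfil S
      have e3 := hfil Fs
      have e4 : (Finset.univ \ D : Finset V).card + D.card = Fintype.card V := by
        have := Finset.card_sdiff_add_card_eq_card (Finset.subset_univ D)
        rw [Finset.card_univ] at this
        exact this
      have e5 := h.card_unused
      have e6 : ((Finset.univ \ D) ∪ D.filter fun u => f u ∈ S).card ≤
          (unused D f).card + S.card := by omega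
      have e7 := Nat.mul_le_mul_left k e6
      omega)
  have hD : ∀ i < k, t i ∈ D := by
    intro i hi
    by_contra hcon
    exact h2 i hi (Finset.mem_union_left _ (by simp [hcon]))
  refine ⟨t, h1, hD, ?_, ?_⟩
  · intro i hi hS
    exact h2 i hi (Finset.mem_union_right _ (Finset.mem_filter.mpr ⟨hD i hi, hS⟩))
  · intro i hi hS
    exact h3 i hi (Finset.mem_filter.mpr ⟨hD i (by omega), hS⟩)

/-- End of macro (1b). -/
theorem finish1b (hC : PC R a Δ c) (hI : PInv R a c D f M B) {w : V} (hw : w ∈ unused D f)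
    (hwa : a ≤ dg B w) {k : ℕ} {t : ℕ → V} (hW : Wd R k t) (hD : ∀ i < k, t i ∈ D) {j : ℕ}
    (hj : j + 2 < k) (hheavy : dg B (f (t (j + 1))) < a)
    {M' B' : Finset (Sym2 V)} (hE : Ext 2 M B M' B') (h1 : s(w, f (t j)) ∈ M')
    (h2 : s(w, f (t (j + 2))) ∈ M') (K : PCont R F a c D f B) : Win F M' B' := by
  have emb := hI.emb.mono hE.subM
  have hchild : R.ch (t (j + 1)) = {t (j + 2)} := hW (j + 1) (by omega)
  have emb1 := emb.rehost (v := t (j + 1)) (w := w) (hD _ (by omega)) hw
    (by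
      intro _
      rw [hW.par_eq (by omega), Sym2.eq_swap]
      exact h1)
    (by
      intro c hc hcc
      rw [hchild, Finset.mem_singleton] at hcc
      rw [hcc]
      exact h2)
  have hfD : ∀ p ∈ D, a ≤ dg B (f p) → Function.update f (t (j + 1)) w p = f p := by
    intro p hp hpa
    rw [Function.update_of_ne]
    rintro rfl
    omega
  obtain ⟨h4, h5⟩ := hI.step hC (hE.mono (by omega)) emb1 (Finset.Subset.refl _) hfD
    (by
      intro x hx
      rcases hx with hx | ⟨p, hp, hpx⟩
      · rw [unused_rehost hI.emb (hD _ (by omega)) hw, Finset.mem_insert] at hx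
        rcases hx with hx | hx
        · right; rw [hx]; exact hheavy
        · left; left; exact Finset.mem_of_mem_erase hx
      · by_cases hpt : p = t (j + 1)
        · exfalso
          obtain ⟨_, c, hc, hcD⟩ := hp
          rw [hpt, hchild, Finset.mem_singleton] at hc
          exact hcD (hc ▸ hD _ (by omega))
        · rw [Function.update_of_ne hpt] at hpx
          left; right; exact ⟨p, hp, hpx⟩)
    (Or.inl (Qh_lt_new (Finset.Subset.refl _) hE.subB (fun p hp _ h => hfD p hp h) (p := t (j + 1))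
      (hD _ (by omega)) (Finset.mem_univ _)
      (by rw [Function.update_self]; exact hwa.trans (dg_mono hE.subB w)) (Or.inr hheavy)))
  exact K _ _ _ _ h4 h5

/-- Macro (1b): swap the heavy unused host `w` into a window. -/
theorem macro1b (hC : PC R a Δ c) (hI : PInv R a c D f M B) {w : V} (hw : w ∈ unused D f)
    (hwa : a ≤ dg B w) (hX : (unused D f).card < 12 * a) (K : PCont R F a c D f B) :
    Win F M B := by
  have hb := hI.bd hC
  have hdw : dg B w ≤ 2 * a := hb.vul _ (Or.inl hw)
  have hroom := hC.room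
  have hcB := hb.cardB
  obtain ⟨t, hW, hD, hS, -⟩ := exists_window_state hI.emb 4100 (by omega) (hvy a B ∪ nb B w) ∅ (by
    have e1 := Finset.card_union_le (hvy a B) (nb B w)
    have e2 := hb.hv
    have e3 := hC.win
    have e4 : 0 < a := by have := hC.h1; omega
    unfold dg at hdw
    rw [Finset.card_empty]
    have e5 : 4100 * ((unused D f).card + (hvy a B ∪ nb B w).card) ≤ 4100 * (15 * a) := by
      apply Nat.mul_le_mul_left
      omega
    omega)
  have hS' : ∀ i < 4100, dg B (f (t i)) < a ∧ s(w, f (t i)) ∉ B := by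
    intro i hi
    have := hS i hi
    rw [Finset.mem_union, mem_hvy, mem_nb] at this
    push Not at this
    exact this
  have hne : ∀ i < 4100, w ≠ f (t i) := by
    intro i hi h
    exact not_unused (hD i hi) (h ▸ hw)
  refine ensure hI.ok (by omega) (a := w) (b := f (t 3)) (hne 3 (by omega)) (hS' 3 (by omega)).2 ?_
  intro M1 B1 hM1 hE1
  have hc1 := hE1.card_le
  have hft : ∀ i < 4100, ∀ j < 4100, f (t i) = f (t j) → i = j := by
    intro i hi j hj hij
    exact hW.inj (by omega) (by omega) (hI.emb.inj (hD i hi) (hD j hj) hij)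
  have hne2 : s(w, f (t 1)) ≠ s(w, f (t 5)) := by
    intro h
    rw [Sym2.eq_iff] at h
    rcases h with ⟨_, h⟩ | ⟨h, _⟩
    · have := hft 1 (by omega) 5 (by omega) h
      omega
    · exact hne 5 (by omega) h
  rcases two_choices le_rfl hE1 hne2 (hS' 1 (by omega)).2 (hS' 5 (by omega)).2 with h | h
  · refine ensure hE1.ok (by omega) (a := w) (b := f (t 1)) (hne 1 (by omega)) h ?_
    intro M2 B2 hM2 hE2
    exact finish1b hC hI hw hwa hW hD (j := 1) (by omega) (hS' 2 (by omega)).1 (hE1.trans hE2)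
      hM2 (hE2.subM hM1) K
  · refine ensure hE1.ok (by omega) (a := w) (b := f (t 5)) (hne 5 (by omega)) h ?_
    intro M2 B2 hM2 hE2
    exact finish1b hC hI hw hwa hW hD (j := 3) (by omega) (hS' 4 (by omega)).1 (hE1.trans hE2)
      (hE2.subM hM1) hM2 K

/-- Macro (2), direct placement. -/
theorem macro2 (hC : PC R a Δ c) (hI : PInv R a c D f M B) {p v y : V} (hp : p ∈ D)
    (hv : v ∈ R.ch p) (hvD : v ∉ D) (hy : y ∈ unused D f) (hyB : s(f p, y) ∉ B)
    (hprio : a ≤ dg B (f p) ∨ ∀ x, Vul R D f x → dg B x < a) (K : PCont R F a c D f B) :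
    Win F M B := by
  have hb := hI.bd hC
  have hroom := hC.room
  have hcB := hb.cardB
  refine ensure hI.ok (by omega) (a := f p) (b := y) (fun h => not_unused hp (h ▸ hy)) hyB ?_
  intro M1 B1 hM1 hE1
  have hpar : R.par v = p := (RT.mem_ch.mp hv).2
  have emb1 := (hI.emb.mono hE1.subM).add hvD (by rw [hpar]; exact hp) hy (by rw [hpar]; exact hM1)
  have hfD : ∀ q ∈ D, Function.update f v y q = f q := by
    intro q hq
    rw [Function.update_of_ne (by rintro rfl; exact hvD hq)]
  obtain ⟨h4, h5⟩ := hI.step hC (hE1.mono (by omega)) emb1 (Finset.subset_insert _ _)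
    (fun q hq _ => hfD q hq) (fun x hx => Or.inl (Vul.of_add hvD hy hx)) (by
      rcases hprio with h | h
      · left
        exact Qh_lt_child (Finset.subset_insert _ _) hE1.subB (fun q hq _ _ => hfD q hq) hp
          (Finset.mem_univ _) h hv hvD (Finset.mem_insert_self _ _)
      · right
        refine ⟨?_, h⟩
        rw [Finset.card_insert_of_notMem hvD])
  exact K _ _ _ _ h4 h5

/-- End of the rotation macro. -/
theorem finish2 (hC : PC R a Δ c) (hI : PInv R a c D f M B) {p v w : V} (hp : p ∈ D)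
    (hv : v ∈ R.ch p) (hvD : v ∉ D)
    (hprio : a ≤ dg B (f p) ∨ ∀ x, Vul R D f x → dg B x < a)
    {k : ℕ} {t : ℕ → V} (hW : Wd R k t) (hD : ∀ i < k, t i ∈ D)
    (hS : ∀ i < k, dg B (f (t i)) < a) (hpt : ∀ i < k, p ≠ t i)
    {M' B' : Finset (Sym2 V)} (hE : Ext 5 M B M' B') {z : ℕ} (hz : z < k)
    (h1 : s(f p, f (t z)) ∈ M') {f₁ : V → V} (hemb : Emb R D f₁ M')
    (hfl : f₁ (t (k - 1)) = f (t (k - 1)))
    (hf₁ : ∀ u, (∀ i < k, u ≠ t i) → f₁ u = f u)
    (hun : unused D f₁ = insert (f (t z)) ((unused D f).erase w))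
    (K : PCont R F a c D f B) : Win F M' B' := by
  have hpar : R.par v = p := (RT.mem_ch.mp hv).2
  have hzu : f (t z) ∈ unused D f₁ := by rw [hun]; exact Finset.mem_insert_self _ _
  have emb1 := hemb.add hvD (by rw [hpar]; exact hp) hzu
    (by rw [hpar, hf₁ p hpt]; exact h1)
  have hfD : ∀ q ∈ D, a ≤ dg B (f q) → Function.update f₁ v (f (t z)) q = f q := by
    intro q hq hqa
    rw [Function.update_of_ne (by rintro rfl; exact hvD hq)]
    apply hf₁
    rintro i hi rfl
    have := hS i hi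
    omega
  obtain ⟨h4, h5⟩ := hI.step hC hE emb1 (Finset.subset_insert _ _) hfD
    (by
      intro x hx
      rcases hx with hx | ⟨q, ⟨hq, c, hc, hcD⟩, hqx⟩
      · left; left
        rw [unused_add hvD, hun, Finset.mem_erase, Finset.mem_insert] at hx
        exact Finset.mem_of_mem_erase (hx.2.resolve_left hx.1)
      · by_cases hqv : q = v
        · right
          rw [hqv, Function.update_self] at hqx
          rw [← hqx]
          exact hS z hz
        · rw [Function.update_of_ne hqv] at hqx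
          have hqD : q ∈ D := (Finset.mem_insert.mp hq).resolve_left hqv
          have hcD' : c ∉ D := fun h => hcD (Finset.mem_insert_of_mem h)
          by_cases hqW : ∃ i < k, q = t i
          · obtain ⟨i, hi, rfl⟩ := hqW
            rw [hW i hi, Finset.mem_singleton] at hc
            have hik : i = k - 1 := by
              by_contra hcon
              exact hcD' (hc ▸ hD (i + 1) (by omega))
            left; right
            refine ⟨t i, ⟨hqD, c, ?_, hcD'⟩, ?_⟩
            · rw [hW i hi, Finset.mem_singleton]; exact hc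
            · rw [← hqx, hik, hfl]
          · push Not at hqW
            rw [hf₁ q hqW] at hqx
            left; right
            exact ⟨q, ⟨hqD, c, hc, hcD'⟩, hqx⟩)
    (by
      rcases hprio with h | h
      · left
        exact Qh_lt_child (Finset.subset_insert _ _) hE.subB (fun q hq _ h => hfD q hq h) hp
          (Finset.mem_univ _) h hv hvD (Finset.mem_insert_self _ _)
      · right
        refine ⟨?_, h⟩
        rw [Finset.card_insert_of_notMem hvD])
  exact K _ _ _ _ h4 h5

end

end Pool.Agent.Lib.MP_9916e0_co
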