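import Pool.Agent.Lib.MP_9916e0_co.PathEngine

set_option autoImplicit false
set_option linter.unusedSectionVars false
set_option linter.unusedVariables false

namespace Pool.Agent.Lib.MP_9916e0_co

variable {V : Type*} [Fintype V] [DecidableEq V]

section

variable {R : RT V} {F : Set (Finset (Sym2 V))} {a Δ c : ℕ} {D : Finset V} {f : V → V}
  {M B : Finset (Sym2 V)}

theorem Emb.window_edge (h : Emb R D f M) {k : ℕ} {t : ℕ → V} (hW : Wd R k t)
    (hD : ∀ i < k, t i ∈ D) {i : ℕ} (hi : i + 1 < k) : s(f (t i), f (t (i + 1))) ∈ M := by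
  have := h.edge (t (i + 1)) (hD _ hi) (hW.ne_root (by omega))
  rwa [hW.par_eq (by omega)] at this

/-- First rotation: frees `y (c-1)`. -/
theorem Emb.rotA (h : Emb R D f M) {k : ℕ} {t : ℕ → V} (hW : Wd R k t) (hD : ∀ i < k, t i ∈ D)
    {w : V} (hw : w ∈ unused D f) {j q : ℕ} (hj : 1 ≤ j) (hjq : j + 3 ≤ q) (hq : q + 1 < k)
    (h1 : s(w, f (t j)) ∈ M) (h2 : s(w, f (t q)) ∈ M) (h3 : s(f (t (j - 1)), f (t (q - 2))) ∈ M) :
    ∃ f' : V → V, Emb R D f' M ∧ f' (t 0) = f (t 0) ∧ f' (t (k - 1)) = f (t (k - 1)) ∧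
      (∀ v, (∀ i < k, v ≠ t i) → f' v = f v) ∧
      unused D f' = insert (f (t (q - 1))) ((unused D f).erase w) := by
  set σ : ℕ → ℕ := fun m => if m < j then m else if m ≤ q - 2 then q - 2 + j - m else m with hσ
  have s1 : ∀ m, m < j → σ m = m := by intro m hm; simp only [hσ, if_pos hm]
  have s2 : ∀ m, j ≤ m → m ≤ q - 2 → σ m = q - 2 + j - m := by
    intro m hm hm'; simp only [hσ, if_neg (by omega : ¬ m < j), if_pos hm']
  have s3 : ∀ m, q - 2 < m → σ m = m := by
    intro m hm; simp only [hσ, if_neg (by omega : ¬ m < j), if_neg (by omega : ¬ m ≤ q - 2)]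
  have tri : ∀ m, (m < j ∧ σ m = m) ∨ (j ≤ m ∧ m ≤ q - 2 ∧ σ m = q - 2 + j - m) ∨
      (q - 2 < m ∧ σ m = m) := by
    intro m
    by_cases e1 : m < j
    · exact Or.inl ⟨e1, s1 m e1⟩
    · by_cases e2 : m ≤ q - 2
      · exact Or.inr (Or.inl ⟨by omega, e2, s2 m (by omega) e2⟩)
      · exact Or.inr (Or.inr ⟨by omega, s3 m (by omega)⟩)
  have hE := fun i (hi : i + 1 < k) => h.window_edge hW hD hi
  refine h.rotate hW hD hw σ (q - 1) (q - 1) (by omega) (by omega) (by omega) ?_ ?_ ?_ ?_ ?_ ?_ ?_ ?_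
  · intro m hm
    rcases tri m with e | e | e <;> omega
  · intro m hm hm'
    rcases tri m with e | e | e <;> omega
  · intro m hm m' hm' hp hp' hmm
    rcases tri m with e | e | e <;> rcases tri m' with e' | e' | e' <;> omega
  · exact s1 0 (by omega)
  · exact s3 (k - 1) (by omega)
  · intro m hm hp hp'
    by_cases e1 : m + 1 < j
    · rw [s1 m (by omega), s1 (m + 1) e1]; exact hE m hm
    · by_cases e2 : m + 1 = j
      · rw [s1 m (by omega), s2 (m + 1) (by omega) (by omega)]
        have e3 : m = j - 1 := by omega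
        have e4 : q - 2 + j - (m + 1) = q - 2 := by omega
        rw [e4, e3]; exact h3
      · by_cases e3 : m + 1 ≤ q - 2
        · rw [s2 m (by omega) (by omega), s2 (m + 1) (by omega) e3]
          have e4 : q - 2 + j - m = (q - 2 + j - (m + 1)) + 1 := by omega
          rw [e4, Sym2.eq_swap]
          exact hE _ (by omega)
        · rw [s3 m (by omega), s3 (m + 1) (by omega)]; exact hE m hm
  · have e1 : q - 1 - 1 = q - 2 := by omega
    rw [e1, s2 (q - 2) (by omega) le_rfl]
    have e2 : q - 2 + j - (q - 2) = j := by omega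
    rw [e2, Sym2.eq_swap]; exact h1
  · have e1 : q - 1 + 1 = q := by omega
    rw [e1, s3 q (by omega)]; exact h2

/-- Second rotation: frees `y (c+1)`. -/
theorem Emb.rotB (h : Emb R D f M) {k : ℕ} {t : ℕ → V} (hW : Wd R k t) (hD : ∀ i < k, t i ∈ D)
    {w : V} (hw : w ∈ unused D f) {j q : ℕ} (hj : 1 ≤ j) (hjq : j + 3 ≤ q) (hq : q + 3 < k)
    (h1 : s(w, f (t j)) ∈ M) (h2 : s(w, f (t q)) ∈ M) (h3 : s(f (t (j + 1)), f (t (q + 2))) ∈ M) :
    ∃ f' : V → V, Emb R D f' M ∧ f' (t 0) = f (t 0) ∧ f' (t (k - 1)) = f (t (k - 1)) ∧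
      (∀ v, (∀ i < k, v ≠ t i) → f' v = f v) ∧
      unused D f' = insert (f (t (q + 1))) ((unused D f).erase w) := by
  set σ : ℕ → ℕ := fun m => if m ≤ j then m else if m ≤ q + 1 then q + j + 2 - m else m with hσ
  have s1 : ∀ m, m ≤ j → σ m = m := by intro m hm; simp only [hσ, if_pos hm]
  have s2 : ∀ m, j < m → m ≤ q + 1 → σ m = q + j + 2 - m := by
    intro m hm hm'; simp only [hσ, if_neg (by omega : ¬ m ≤ j), if_pos hm']
  have s3 : ∀ m, q + 1 < m → σ m = m := by
    intro m hm; simp only [hσ, if_neg (by omega : ¬ m ≤ j), if_neg (by omega : ¬ m ≤ q + 1)]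
  have tri : ∀ m, (m ≤ j ∧ σ m = m) ∨ (j < m ∧ m ≤ q + 1 ∧ σ m = q + j + 2 - m) ∨
      (q + 1 < m ∧ σ m = m) := by
    intro m
    by_cases e1 : m ≤ j
    · exact Or.inl ⟨e1, s1 m e1⟩
    · by_cases e2 : m ≤ q + 1
      · exact Or.inr (Or.inl ⟨by omega, e2, s2 m (by omega) e2⟩)
      · exact Or.inr (Or.inr ⟨by omega, s3 m (by omega)⟩)
  have hE := fun i (hi : i + 1 < k) => h.window_edge hW hD hi
  refine h.rotate hW hD hw σ (j + 1) (q + 1) (by omega) (by omega) (by omega) ?_ ?_ ?_ ?_ ?_ ?_ ?_ ?_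
  · intro m hm
    rcases tri m with e | e | e <;> omega
  · intro m hm hm'
    rcases tri m with e | e | e <;> omega
  · intro m hm m' hm' hp hp' hmm
    rcases tri m with e | e | e <;> rcases tri m' with e' | e' | e' <;> omega
  · exact s1 0 (by omega)
  · exact s3 (k - 1) (by omega)
  · intro m hm hp hp'
    by_cases e1 : m + 1 ≤ j
    · rw [s1 m (by omega), s1 (m + 1) e1]; exact hE m hm
    · by_cases e3 : m + 1 ≤ q + 1
      · rw [s2 m (by omega) (by omega), s2 (m + 1) (by omega) e3]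
        have e4 : q + j + 2 - m = (q + j + 2 - (m + 1)) + 1 := by omega
        rw [e4, Sym2.eq_swap]
        exact hE _ (by omega)
      · by_cases e4 : m = q + 1
        · rw [s2 m (by omega) (by omega), s3 (m + 1) (by omega)]
          have e5 : q + j + 2 - m = j + 1 := by omega
          rw [e5, e4]; exact h3
        · rw [s3 m (by omega), s3 (m + 1) (by omega)]; exact hE m hm
  · have e1 : j + 1 - 1 = j := by omega
    rw [e1, s1 j le_rfl, Sym2.eq_swap]; exact h1
  · have e1 : j + 1 + 1 = j + 2 := by omega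
    rw [e1, s2 (j + 2) (by omega) (by omega)]
    have e2 : q + j + 2 - (j + 2) = q := by omega
    rw [e2]; exact h2

/-- Macro (2), by rotation. -/
theorem macro2rot (hC : PC R a Δ c) (hI : PInv R a c D f M B) {p v : V} (hp : p ∈ D)
    (hv : v ∈ R.ch p) (hvD : v ∉ D) (hall : ∀ y ∈ unused D f, s(f p, y) ∈ B)
    (hprio : a ≤ dg B (f p) ∨ ∀ x, Vul R D f x → dg B x < a) (K : PCont R F a c D f B) :
    Win F M B := by
  have hb := hI.bd hC
  have hroom := hC.room
  have hcB := hb.cardB
  have ha : 0 < a := by have := hC.h1; omega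
  have hdp : dg B (f p) ≤ 2 * a := hb.vul _ (Or.inr ⟨p, ⟨hp, v, hv, hvD⟩, rfl⟩)
  have hXc : (unused D f).card ≤ 2 * a := by
    refine le_trans (Finset.card_le_card ?_) hdp
    intro y hy
    exact mem_nb.mpr (hall y hy)
  obtain ⟨w, hw⟩ : (unused D f).Nonempty := by
    rw [← Finset.card_pos]
    have h1 := hI.emb.card_unused
    have h2 : D.card < Fintype.card V := by
      rw [← Finset.card_univ]
      apply Finset.card_lt_card
      rw [Finset.ssubset_univ_iff]
      rintro rfl
      exact hvD (Finset.mem_univ _)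
    omega
  have hdw : dg B w ≤ 2 * a := hb.vul _ (Or.inl hw)
  obtain ⟨t, hW, hD, hS, hFs⟩ := exists_window_state hI.emb 4100 (by omega)
    ({f p} ∪ hvy a B ∪ nb B w ∪ nb B (f p)) (hvy 1000 B) (by
    have e1 := Finset.card_union_le ({f p} ∪ hvy a B ∪ nb B w) (nb B (f p))
    have e1' := Finset.card_union_le ({f p} ∪ hvy a B) (nb B w)
    have e1'' := Finset.card_union_le {f p} (hvy a B)
    rw [Finset.card_singleton] at e1''
    have e2 := hb.hv
    have e3 := hC.win
    have e6 := card_hvy 1000 B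
    unfold dg at hdw hdp
    have e5 : 4100 * ((unused D f).card + ({f p} ∪ hvy a B ∪ nb B w ∪ nb B (f p)).card) ≤
        4100 * (15 * a) := by
      apply Nat.mul_le_mul_left
      omega
    omega)
  have hS' : ∀ i < 4100, f (t i) ≠ f p ∧ dg B (f (t i)) < a ∧ s(w, f (t i)) ∉ B ∧
      s(f p, f (t i)) ∉ B := by
    intro i hi
    have := hS i hi
    simp only [Finset.mem_union, Finset.mem_singleton, mem_hvy, mem_nb] at this
    push Not at this
    exact ⟨this.1.1.1, this.1.1.2, this.1.2, this.2⟩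
  have hF' : ∀ i < 8, dg B (f (t i)) < 1000 := by
    intro i hi
    have := hFs i hi
    rw [mem_hvy] at this
    omega
  have hne : ∀ i < 4100, w ≠ f (t i) := by
    intro i hi h
    exact not_unused (hD i hi) (h ▸ hw)
  have hft : ∀ i < 4100, ∀ j < 4100, f (t i) = f (t j) → i = j := by
    intro i hi j hj hij
    exact hW.inj (by omega) (by omega) (hI.emb.inj (hD i hi) (hD j hj) hij)
  have hpt : ∀ i < 4100, p ≠ t i := by
    rintro i hi rfl
    exact (hS' i hi).1 rfl
  -- first move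
  refine ensure hI.ok (by omega) (a := w) (b := f (t 2)) (hne 2 (by omega))
    (hS' 2 (by omega)).2.2.1 ?_
  intro M1 B1 hM1 hE1
  have hc1 := hE1.card_le
  have hne46 : s(w, f (t 4)) ≠ s(w, f (t 6)) := by
    intro h
    rw [Sym2.eq_iff] at h
    rcases h with ⟨_, h⟩ | ⟨h, _⟩
    · have := hft 4 (by omega) 6 (by omega) h
      omega
    · exact hne 6 (by omega) h
  obtain ⟨b, hb46, hbB⟩ : ∃ b, (b = 4 ∨ b = 6) ∧ s(w, f (t b)) ∉ B1 := by
    rcases two_choices le_rfl hE1 hne46 (hS' 4 (by omega)).2.2.1 (hS' 6 (by omega)).2.2.1 with h | h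
    · exact ⟨4, Or.inl rfl, h⟩
    · exact ⟨6, Or.inr rfl, h⟩
  -- second move
  refine ensure hE1.ok (by omega) (a := w) (b := f (t b)) (hne b (by omega)) hbB ?_
  intro M2 B2 hM2 hE2
  have hE2' := hE1.trans hE2
  have hd2 := dg_ext hE2'
  have hc2 := hE2'.card_le
  -- the third move
  have hshift : ∀ (g : ℕ → ℕ), (∀ i ∈ Finset.Icc 12 4090, g i < 4100) →
      (∀ i ∈ Finset.Icc 12 4090, ∀ j ∈ Finset.Icc 12 4090, g i = g j → i = j) →
      Set.InjOn (fun i => f (t (g i))) (Finset.Icc 12 4090 : Finset ℕ) := by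
    intro g hg hg' i hi j hj hij
    exact hg' i hi j hj (hft _ (hg i hi) _ (hg j hj) hij)
  have i0 := hshift (fun i => i) (fun i hi => by rw [Finset.mem_Icc] at hi; omega)
    (fun i _ j _ h => h)
  have im1 := hshift (fun i => i - 1) (fun i hi => by rw [Finset.mem_Icc] at hi; omega)
    (fun i hi j hj h => by rw [Finset.mem_Icc] at hi hj; omega)
  have ip1 := hshift (fun i => i + 1) (fun i hi => by rw [Finset.mem_Icc] at hi; omega)
    (fun i hi j hj h => by rw [Finset.mem_Icc] at hi hj; omega)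
  have im2 := hshift (fun i => i - 2) (fun i hi => by rw [Finset.mem_Icc] at hi; omega)
    (fun i hi j hj h => by rw [Finset.mem_Icc] at hi hj; omega)
  have ip2 := hshift (fun i => i + 2) (fun i hi => by rw [Finset.mem_Icc] at hi; omega)
    (fun i hi j hj h => by rw [Finset.mem_Icc] at hi hj; omega)
  obtain ⟨q, hq, hq'⟩ := exists_avoid (X := Finset.Icc 12 4090) (bad :=
      ((Finset.Icc 12 4090).filter (fun i => s(w, f (t i)) ∈ B2)) ∪
      ((Finset.Icc 12 4090).filter (fun i => s(f p, f (t (i - 1))) ∈ B2)) ∪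
      ((Finset.Icc 12 4090).filter (fun i => s(f p, f (t (i + 1))) ∈ B2)) ∪
      ((Finset.Icc 12 4090).filter (fun i => s(f (t 1), f (t (i - 2))) ∈ B2)) ∪
      ((Finset.Icc 12 4090).filter (fun i => s(f (t (b - 1)), f (t (i - 2))) ∈ B2)) ∪
      ((Finset.Icc 12 4090).filter (fun i => s(f (t 3), f (t (i + 2))) ∈ B2)) ∪
      ((Finset.Icc 12 4090).filter (fun i => s(f (t (b + 1)), f (t (i + 2))) ∈ B2))) (by
    have e0 := card_idx_new hE2' i0 (u := w) (fun i hi => by
      rw [Finset.mem_Icc] at hi; exact (hS' i (by omega)).2.2.1)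
    have e1 := card_idx_new hE2' im1 (u := f p) (fun i hi => by
      rw [Finset.mem_Icc] at hi; exact (hS' (i - 1) (by omega)).2.2.2)
    have e2 := card_idx_new hE2' ip1 (u := f p) (fun i hi => by
      rw [Finset.mem_Icc] at hi; exact (hS' (i + 1) (by omega)).2.2.2)
    have e3 := card_idx im2 (f (t 1)) B2
    have e4 := card_idx im2 (f (t (b - 1))) B2
    have e5 := card_idx ip2 (f (t 3)) B2
    have e6 := card_idx ip2 (f (t (b + 1))) B2
    have d1 := hd2 (f (t 1))
    have d2 := hd2 (f (t (b - 1)))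
    have d3 := hd2 (f (t 3))
    have d4 := hd2 (f (t (b + 1)))
    have d1' := hF' 1 (by omega)
    have d2' := hF' (b - 1) (by omega)
    have d3' := hF' 3 (by omega)
    have d4' := hF' (b + 1) (by omega)
    refine lt_of_le_of_lt (Finset.card_union_le _ _) ?_
    refine lt_of_le_of_lt (Nat.add_le_add_right (Finset.card_union_le _ _) _) ?_
    refine lt_of_le_of_lt (Nat.add_le_add_right (Nat.add_le_add_right (Finset.card_union_le _ _) _) _) ?_
    refine lt_of_le_of_lt (Nat.add_le_add_right (Nat.add_le_add_right (Nat.add_le_add_right (Finset.card_union_le _ _) _) _) _) ?_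
    refine lt_of_le_of_lt (Nat.add_le_add_right (Nat.add_le_add_right (Nat.add_le_add_right (Nat.add_le_add_right (Finset.card_union_le _ _) _) _) _) _) ?_
    refine lt_of_le_of_lt (Nat.add_le_add_right (Nat.add_le_add_right (Nat.add_le_add_right (Nat.add_le_add_right (Nat.add_le_add_right (Finset.card_union_le _ _) _) _) _) _) _) ?_
    rw [Nat.card_Icc]
    omega)
  simp only [Finset.mem_union, Finset.mem_filter, not_or, not_and] at hq'
  obtain ⟨⟨⟨⟨⟨⟨q1, q2⟩, q3⟩, q4⟩, q5⟩, q6⟩, q7⟩ := hq'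
  replace q1 := q1 hq
  replace q2 := q2 hq
  replace q3 := q3 hq
  replace q4 := q4 hq
  replace q5 := q5 hq
  replace q6 := q6 hq
  replace q7 := q7 hq
  rw [Finset.mem_Icc] at hq
  refine ensure hE2.ok (by omega) (a := w) (b := f (t q)) (hne q (by omega)) q1 ?_
  intro M3 B3 hM3 hE3
  have hE3' := hE2'.trans hE3
  have hc3 := hE3'.card_le
  have hee : ∀ i < 4100, ∀ i' < 4100, ∀ j' < 4100, s(f p, f (t i)) ≠ s(f (t i'), f (t j')) := by
    intro i hi i' hi' j' hj' h
    rw [Sym2.eq_iff] at h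
    rcases h with ⟨h, _⟩ | ⟨h, _⟩
    · exact (hS' i' hi').1 h.symm
    · exact (hS' j' hj').1 h.symm
  have hyy : ∀ i < 4100, ∀ j < 4100, ∀ i' < 4100, ∀ j' < 4100,
      s(f (t i), f (t j)) = s(f (t i'), f (t j')) → (i = i' ∧ j = j') ∨ (i = j' ∧ j = i') := by
    intro i hi j hj i' hi' j' hj' h
    rw [Sym2.eq_iff] at h
    rcases h with ⟨h, h'⟩ | ⟨h, h'⟩
    · exact Or.inl ⟨hft _ hi _ hi' h, hft _ hj _ hj' h'⟩
    · exact Or.inr ⟨hft _ hi _ hj' h, hft _ hj _ hi' h'⟩
  have hG := two_groups le_rfl hE3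
    {s(f p, f (t (q - 1))), s(f (t 1), f (t (q - 2))), s(f (t (b - 1)), f (t (q - 2)))}
    {s(f p, f (t (q + 1))), s(f (t 3), f (t (q + 2))), s(f (t (b + 1)), f (t (q + 2)))}
    (by
      rw [Finset.disjoint_left]
      intro x hx hx'
      simp only [Finset.mem_insert, Finset.mem_singleton] at hx hx'
      rcases hx with rfl | rfl | rfl <;> rcases hx' with h | h | h
      · rw [Sym2.eq_iff] at h
        rcases h with ⟨_, h⟩ | ⟨h, _⟩
        · have := hft _ (by omega) _ (by omega) h; omega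
        · exact (hS' _ (by omega)).1 h.symm
      · exact hee _ (by omega) _ (by omega) _ (by omega) h
      · exact hee _ (by omega) _ (by omega) _ (by omega) h
      · exact hee _ (by omega) _ (by omega) _ (by omega) h.symm
      · have := hyy _ (by omega) _ (by omega) _ (by omega) _ (by omega) h; omega
      · have := hyy _ (by omega) _ (by omega) _ (by omega) _ (by omega) h; omega
      · exact hee _ (by omega) _ (by omega) _ (by omega) h.symm
      · have := hyy _ (by omega) _ (by omega) _ (by omega) _ (by omega) h; omega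
      · have := hyy _ (by omega) _ (by omega) _ (by omega) _ (by omega) h; omega)
    (by
      rw [Finset.disjoint_left]
      intro x hx hx'
      simp only [Finset.mem_insert, Finset.mem_singleton] at hx
      rcases hx with rfl | rfl | rfl
      · exact q2 hx'
      · exact q4 hx'
      · exact q5 hx')
    (by
      rw [Finset.disjoint_left]
      intro x hx hx'
      simp only [Finset.mem_insert, Finset.mem_singleton] at hx
      rcases hx with rfl | rfl | rfl
      · exact q3 hx'
      · exact q6 hx'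
      · exact q7 hx')
  have hdeg' : ∀ i < 4100, dg B (f (t i)) < a := fun i hi => (hS' i hi).2.1
  rcases hG with hG | hG
  · rw [Finset.disjoint_left] at hG
    have g1 : s(f p, f (t (q - 1))) ∉ B3 := hG (by simp)
    have g2 : s(f (t (2 - 1)), f (t (q - 2))) ∉ B3 := hG (by simp)
    have g3 : s(f (t (b - 1)), f (t (q - 2))) ∉ B3 := hG (by simp)
    refine ensure hE3.ok (by omega) (a := f p) (b := f (t (q - 1)))
      (fun h => (hS' (q - 1) (by omega)).1 h.symm) g1 ?_
    intro M4 B4 hM4 hE4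
    have hE4' := hE3'.trans hE4
    have hc4 := hE4'.card_le
    obtain ⟨j, hj, hj1, hj2, hjB⟩ : ∃ j, 1 ≤ j ∧ j ≤ 6 ∧ s(w, f (t j)) ∈ M4 ∧
        s(f (t (j - 1)), f (t (q - 2))) ∉ B4 := by
      have hne2 : s(f (t (2 - 1)), f (t (q - 2))) ≠ s(f (t (b - 1)), f (t (q - 2))) := by
        intro h
        have := hyy _ (by omega) _ (by omega) _ (by omega) _ (by omega) h
        omega
      rcases two_choices le_rfl hE4 hne2 g2 g3 with h | h
      · exact ⟨2, by omega, by omega, hE4.subM (hE3.subM (hE2.subM hM1)), h⟩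
      · exact ⟨b, by omega, by omega, hE4.subM (hE3.subM hM2), h⟩
    refine ensure hE4.ok (by omega) (a := f (t (j - 1))) (b := f (t (q - 2)))
      (fun h => by have := hft _ (by omega) _ (by omega) h; omega) hjB ?_
    intro M5 B5 hM5 hE5
    have hE5' := hE4'.trans hE5
    obtain ⟨f₁, h1, h2, h3, h4, h5⟩ := (hI.emb.mono hE5'.subM).rotA hW hD hw (j := j) (q := q)
      (by omega) (by omega) (by omega) (hE5.subM hj2) (hE5.subM (hE4.subM hM3)) hM5
    exact finish2 hC hI hp hv hvD hprio hW hD hdeg' hpt hE5' (z := q - 1) (by omega)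
      (hE5.subM hM4) h1 h3 h4 h5 K
  · rw [Finset.disjoint_left] at hG
    have g1 : s(f p, f (t (q + 1))) ∉ B3 := hG (by simp)
    have g2 : s(f (t (2 + 1)), f (t (q + 2))) ∉ B3 := hG (by simp)
    have g3 : s(f (t (b + 1)), f (t (q + 2))) ∉ B3 := hG (by simp)
    refine ensure hE3.ok (by omega) (a := f p) (b := f (t (q + 1)))
      (fun h => (hS' (q + 1) (by omega)).1 h.symm) g1 ?_
    intro M4 B4 hM4 hE4
    have hE4' := hE3'.trans hE4
    have hc4 := hE4'.card_le
    obtain ⟨j, hj, hj1, hj2, hjB⟩ : ∃ j, 1 ≤ j ∧ j ≤ 6 ∧ s(w, f (t j)) ∈ M4 ∧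
        s(f (t (j + 1)), f (t (q + 2))) ∉ B4 := by
      have hne2 : s(f (t (2 + 1)), f (t (q + 2))) ≠ s(f (t (b + 1)), f (t (q + 2))) := by
        intro h
        have := hyy _ (by omega) _ (by omega) _ (by omega) _ (by omega) h
        omega
      rcases two_choices le_rfl hE4 hne2 g2 g3 with h | h
      · exact ⟨2, by omega, by omega, hE4.subM (hE3.subM (hE2.subM hM1)), h⟩
      · exact ⟨b, by omega, by omega, hE4.subM (hE3.subM hM2), h⟩
    refine ensure hE4.ok (by omega) (a := f (t (j + 1))) (b := f (t (q + 2)))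
      (fun h => by have := hft _ (by omega) _ (by omega) h; omega) hjB ?_
    intro M5 B5 hM5 hE5
    have hE5' := hE4'.trans hE5
    obtain ⟨f₁, h1, h2, h3, h4, h5⟩ := (hI.emb.mono hE5'.subM).rotB hW hD hw (j := j) (q := q)
      (by omega) (by omega) (by omega) (hE5.subM hj2) (hE5.subM (hE4.subM hM3)) hM5
    exact finish2 hC hI hp hv hvD hprio hW hD hdeg' hpt hE5' (z := q + 1) (by omega)
      (hE5.subM hM4) h1 h3 h4 h5 K

/-- The path engine. -/
theorem path_engine (hF : Goal R F) (hC : PC R a Δ c) (hI : PInv R a c D f M B) : Win F M B := by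
  induction hm : Fintype.card V + a - (D.card + Qh R Finset.univ a D f B) using
    Nat.strong_induction_on generalizing D f M B with
  | _ m ih =>
    have hb := hI.bd hC
    have hcD := hb.cardD
    have hcQ := hb.q
    have hc5 := hC.c5
    have K : PCont R F a c D f B := by
      intro D' f' M' B' hI' hlt
      have hb' := hI'.bd hC
      have hcD' := hb'.cardD
      have hcQ' := hb'.q
      exact ih _ (by omega) hI' rfl
    by_cases hfin : ∀ v, v ∈ D
    · exact hI.emb.win hF hfin
    push Not at hfin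
    obtain ⟨v₀, hv₀⟩ := hfin
    by_cases hw : ∃ w ∈ unused D f, a ≤ dg B w
    · obtain ⟨w, hw, hwa⟩ := hw
      by_cases hX : 12 * a ≤ (unused D f).card
      · exact macro1a hC hI hw hwa hX K
      · exact macro1b hC hI hw hwa (by omega) K
    push Not at hw
    -- choose the open vertex to serve
    obtain ⟨p, v, hp, hv, hvD, hprio⟩ : ∃ p v, p ∈ D ∧ v ∈ R.ch p ∧ v ∉ D ∧
        (a ≤ dg B (f p) ∨ ∀ x, Vul R D f x → dg B x < a) := by
      by_cases hh : ∃ p, IsOpen R D p ∧ a ≤ dg B (f p)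
      · obtain ⟨p, ⟨hp, v, hv, hvD⟩, hpa⟩ := hh
        exact ⟨p, v, hp, hv, hvD, Or.inl hpa⟩
      · push Not at hh
        obtain ⟨u, hu, hpu, -⟩ := hI.emb.exists_open (P := fun _ => True)
          (fun _ _ _ _ => trivial) hv₀ trivial
        refine ⟨R.par u, u, hpu, RT.mem_ch.mpr ⟨hI.emb.ne_root hu, rfl⟩, hu, Or.inr ?_⟩
        rintro x (hx | ⟨q, hq, rfl⟩)
        · exact hw x hx
        · exact hh q hq
    by_cases hdir : ∃ y ∈ unused D f, s(f p, y) ∉ B
    · obtain ⟨y, hy, hyB⟩ := hdir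
      exact macro2 hC hI hp hv hvD hy hyB hprio K
    · push Not at hdir
      exact macro2rot hC hI hp hv hvD hdir hprio K

end

end Pool.Agent.Lib.MP_9916e0_co
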