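import Pool.Agent.Lib.MP_9916e0_co.LeafOne

set_option autoImplicit false
set_option linter.unusedSectionVars false
set_option linter.unusedVariables false

namespace Pool.Agent.Lib.MP_9916e0_co

variable {V : Type*} [Fintype V] [DecidableEq V]

/-- `R` is a rooting of the tree `T`. -/
def Rooted (T : SimpleGraph V) (R : RT V) : Prop :=
  ∀ u v, T.Adj u v ↔ (u ∈ R.ch v ∨ v ∈ R.ch u)

theorem exists_par {T : SimpleGraph V} (hT : T.Connected) {v r : V} (h : v ≠ r) :
    ∃ u, T.Adj v u ∧ T.dist u r + 1 = T.dist v r := by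
  obtain ⟨p, hp⟩ := hT.exists_walk_length_eq_dist v r
  cases p with
  | nil => exact absurd rfl h
  | cons hadj q =>
    rename_i u
    refine ⟨u, hadj, ?_⟩
    rw [SimpleGraph.Walk.length_cons] at hp
    have h1 : T.dist u r ≤ q.length := SimpleGraph.dist_le q
    have h2 : T.dist v r ≤ T.dist v u + T.dist u r := hT.dist_triangle
    have h3 : T.dist v u = 1 := SimpleGraph.dist_eq_one_iff_adj.mpr hadj
    omega

theorem exists_rooted {T : SimpleGraph V} (hT : T.IsTree) (r : V) :
    ∃ R : RT V, R.r = r ∧ Rooted T R := by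
  classical
  have h : ∀ v : V, ∃ u, v ≠ r → (T.Adj v u ∧ T.dist u r + 1 = T.dist v r) := by
    intro v
    by_cases hv : v = r
    · exact ⟨v, fun h => absurd hv h⟩
    · obtain ⟨u, hu⟩ := exists_par hT.connected hv
      exact ⟨u, fun _ => hu⟩
  choose par hpar using h
  set R : RT V := ⟨r, par, fun v => T.dist v r, fun v hv => (hpar v hv).2⟩ with hR
  refine ⟨R, rfl, ?_⟩
  set E' : Finset (Sym2 V) := (Finset.univ.erase r).image (fun v => s(par v, v)) with hE'
  have hcard : E'.card = Fintype.card V - 1 := by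
    rw [hE', Finset.card_image_of_injOn, Finset.card_erase_of_mem (Finset.mem_univ _),
      Finset.card_univ]
    intro v hv w hw hvw
    rw [Finset.mem_coe, Finset.mem_erase] at hv hw
    simp only [Sym2.eq_iff] at hvw
    rcases hvw with ⟨_, h⟩ | ⟨h1, h2⟩
    · exact h
    · exfalso
      have e1 := (hpar v hv.1).2
      have e2 := (hpar w hw.1).2
      rw [h1] at e1
      rw [← h2] at e2
      omega
  have hsub : E' ⊆ T.edgeFinset := by
    intro e he
    rw [hE', Finset.mem_image] at he
    obtain ⟨v, hv, rfl⟩ := he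
    rw [Finset.mem_erase] at hv
    rw [SimpleGraph.mem_edgeFinset, SimpleGraph.mem_edgeSet]
    exact (hpar v hv.1).1.symm
  have heq : E' = T.edgeFinset := by
    apply Finset.eq_of_subset_of_card_le hsub
    have := hT.card_edgeFinset
    omega
  intro u v
  constructor
  · intro huv
    have h1 : s(u, v) ∈ E' := by
      rw [heq, SimpleGraph.mem_edgeFinset, SimpleGraph.mem_edgeSet]; exact huv
    rw [hE', Finset.mem_image] at h1
    obtain ⟨w, hw, hw'⟩ := h1
    rw [Finset.mem_erase] at hw
    rw [Sym2.eq_iff] at hw'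
    rcases hw' with ⟨h1, h2⟩ | ⟨h1, h2⟩
    · right
      rw [RT.mem_ch]
      refine ⟨h2 ▸ hw.1, ?_⟩
      rw [← h2]; exact h1
    · left
      rw [RT.mem_ch]
      refine ⟨h2 ▸ hw.1, ?_⟩
      rw [← h2]; exact h1
  · rintro (h | h)
    · rw [RT.mem_ch] at h
      have h1 := (hpar u h.1).1
      have h2 : par u = v := h.2
      rwa [h2] at h1
    · rw [RT.mem_ch] at h
      have h1 := (hpar v h.1).1
      have h2 : par v = u := h.2
      rw [h2] at h1
      exact h1.symm

open Classical in
/-- Neighbours in the tree. -/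
noncomputable def tn (T : SimpleGraph V) (v : V) : Finset V :=
  Finset.univ.filter fun x => T.Adj v x

theorem mem_tn {T : SimpleGraph V} {v x : V} : x ∈ tn T v ↔ T.Adj v x := by
  unfold tn; simp

open Classical in
/-- Leaf neighbours in the tree. -/
noncomputable def tlf (T : SimpleGraph V) (v : V) : Finset V :=
  (tn T v).filter fun x => (tn T x).card = 1

theorem ch_subset_tn {T : SimpleGraph V} {R : RT V} (h : Rooted T R) (v : V) :
    R.ch v ⊆ tn T v := by
  intro x hx
  rw [mem_tn, h]
  exact Or.inr hx

theorem Rooted.tn_eq {T : SimpleGraph V} {R : RT V} (h : Rooted T R) {v : V} (hv : v ≠ R.r) :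
    tn T v = insert (R.par v) (R.ch v) := by
  ext x
  rw [mem_tn, h, Finset.mem_insert]
  constructor
  · rintro (h1 | h1)
    · left; exact (RT.mem_ch.mp h1).2.symm
    · right; exact h1
  · rintro (h1 | h1)
    · left; exact RT.mem_ch.mpr ⟨hv, h1.symm⟩
    · right; exact h1

theorem Rooted.tn_root {T : SimpleGraph V} {R : RT V} (h : Rooted T R) :
    tn T R.r = R.ch R.r := by
  ext x
  rw [mem_tn, h]
  constructor
  · rintro (h1 | h1)
    · exact absurd rfl (RT.mem_ch.mp h1).1
    · exact h1
  · intro h1; exact Or.inr h1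

theorem Rooted.card_tn {T : SimpleGraph V} {R : RT V} (h : Rooted T R) {v : V} (hv : v ≠ R.r) :
    (tn T v).card = (R.ch v).card + 1 := by
  rw [h.tn_eq hv, Finset.card_insert_of_notMem]
  intro h1
  have h2 := RT.dep_ch h1
  have h3 := R.dep_par v hv
  omega

/-- Leaves of the rooting are the vertices of degree one, if the root is not a leaf. -/
theorem Rooted.leaf_iff {T : SimpleGraph V} {R : RT V} (h : Rooted T R) (hr : 2 ≤ (tn T R.r).card)
    (v : V) : R.ch v = ∅ ↔ (tn T v).card = 1 := by
  by_cases hv : v = R.r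
  · subst hv
    constructor
    · intro h1
      rw [h.tn_root, h1] at hr
      simp at hr
    · intro h1; omega
  · rw [h.card_tn hv]
    constructor
    · intro h1; rw [h1]; simp
    · intro h1
      rw [← Finset.card_eq_zero]; omega

theorem Rooted.lc_eq {T : SimpleGraph V} {R : RT V} (h : Rooted T R) (hr : 2 ≤ (tn T R.r).card)
    (v : V) : lc R v = tlf T v := by
  classical
  ext x
  unfold lc tlf
  rw [Finset.mem_inter, Finset.mem_filter, mem_lvs, mem_tn, h.leaf_iff hr x]
  constructor
  · rintro ⟨h1, h2⟩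
    exact ⟨(h v x).mpr (Or.inr h1), h2⟩
  · rintro ⟨h1, h2⟩
    refine ⟨?_, h2⟩
    rcases (h v x).mp h1 with h3 | h3
    · exfalso
      rw [← h.leaf_iff hr x] at h2
      rw [h2] at h3
      simp at h3
    · exact h3

theorem card_tn_eq (T : SimpleGraph V) (v : V) : (tn T v).card = (T.neighborSet v).ncard := by
  classical
  rw [← Set.ncard_coe_finset]
  congr 1
  ext x
  simp [mem_tn]

/-- The rooted goal follows for the copies of the tree. -/
theorem goal_copies {n : ℕ} {T : SimpleGraph (Fin n)} {R : RT (Fin n)} (h : Rooted T R) :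
    Goal R (copies T) := by
  classical
  intro f M hf hM
  have hbij : Function.Bijective f := Finite.injective_iff_bijective.mp hf
  refine ⟨T.edgeFinset.image (Sym2.map f), ⟨Equiv.ofBijective f hbij, ?_⟩, ?_⟩
  · rw [Finset.coe_image, SimpleGraph.coe_edgeFinset]
    rfl
  · intro e he
    rw [Finset.mem_image] at he
    obtain ⟨e', he', rfl⟩ := he
    rw [SimpleGraph.mem_edgeFinset] at he'
    induction e' using Sym2.ind with
    | _ a b =>
      rw [SimpleGraph.mem_edgeSet] at he'
      rw [Sym2.map_mk]
      rcases (h a b).mp he' with h1 | h1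
      · rw [RT.mem_ch] at h1
        have := hM a h1.1
        rw [h1.2, Sym2.eq_swap] at this
        exact this
      · rw [RT.mem_ch] at h1
        have := hM b h1.1
        rw [h1.2] at this
        exact this

end Pool.Agent.Lib.MP_9916e0_co
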