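import Pool.Agent.Lib.MP_9916e0_co.Engine

set_option autoImplicit false
set_option linter.unusedSectionVars false
set_option linter.unusedVariables false

namespace Pool.Agent.Lib.MP_9916e0_co

variable {V : Type*} [Fintype V] [DecidableEq V]

/-- Number of edges of `E` from `v` to the hosts it owns. -/
def bt (O : V → Finset V) (E : Finset (Sym2 V)) (v : V) : ℕ :=
  ((O v).filter fun z => s(v, z) ∈ E).card

/-- Antisymmetric ownership. -/
structure Own (O : V → Finset V) : Prop where
  irr : ∀ v, v ∉ O v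
  anti : ∀ v z, z ∈ O v → v ∉ O z

theorem bt_mono {O : V → Finset V} {E E' : Finset (Sym2 V)} (h : E ⊆ E') (v : V) :
    bt O E v ≤ bt O E' v := by
  apply Finset.card_le_card
  intro z hz
  rw [Finset.mem_filter] at hz ⊢
  exact ⟨hz.1, h hz.2⟩

theorem sum_bt_le {O : V → Finset V} (hO : Own O) (E : Finset (Sym2 V)) :
    ∑ v, bt O E v ≤ E.card := by
  have h : ∑ v, bt O E v = (Finset.univ.sigma fun v => (O v).filter fun z => s(v, z) ∈ E).card := by
    rw [Finset.card_sigma]
    rfl
  rw [h]
  apply Finset.card_le_card_of_injOn (fun p : (_ : V) × V => s(p.1, p.2))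
  · rintro ⟨v, z⟩ hp
    rw [Finset.mem_coe, Finset.mem_sigma, Finset.mem_filter] at hp
    exact hp.2.2
  · rintro ⟨v, z⟩ hp ⟨v', z'⟩ hp' h
    rw [Finset.mem_coe, Finset.mem_sigma, Finset.mem_filter] at hp hp'
    simp only [Sym2.eq_iff] at h
    rcases h with ⟨h1, h2⟩ | ⟨h1, h2⟩
    · subst h1; subst h2; rfl
    · exfalso
      subst h1; subst h2
      exact hO.anti _ _ hp.2.1 hp'.2.1

theorem bt_eq_add {O : V → Finset V} {B B' : Finset (Sym2 V)} (h : B ⊆ B') (v : V) :
    bt O B' v = bt O B v + bt O (B' \ B) v := by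
  unfold bt
  rw [← Finset.card_union_of_disjoint]
  · congr 1
    ext z
    simp only [Finset.mem_union, Finset.mem_filter, Finset.mem_sdiff]
    constructor
    · rintro ⟨h1, h2⟩
      by_cases h3 : s(v, z) ∈ B
      · exact Or.inl ⟨h1, h3⟩
      · exact Or.inr ⟨h1, h2, h3⟩
    · rintro (⟨h1, h2⟩ | ⟨h1, h2, _⟩)
      · exact ⟨h1, h h2⟩
      · exact ⟨h1, h2⟩
  · rw [Finset.disjoint_left]
    intro z hz hz'
    rw [Finset.mem_filter] at hz hz'
    exact (Finset.mem_sdiff.mp hz'.2).2 hz.2

/-- How many edges Maker should own at `v`. -/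
def need (τ s : ℕ) (O : V → Finset V) (B : Finset (Sym2 V)) (v : V) : ℕ := (bt O B v - τ) / s

/-- The missing edges at `v`. -/
def debt (τ s g : ℕ) (O : V → Finset V) (M B : Finset (Sym2 V)) (v : V) : ℕ :=
  if g ≤ bt O M v then 0 else need τ s O B v - bt O M v

/-- Total debt. -/
def debtSum (τ s g : ℕ) (O : V → Finset V) (M B : Finset (Sym2 V)) : ℕ :=
  ∑ v, debt τ s g O M B v

/-- Payments made so far. -/
def paid (τ s : ℕ) (O : V → Finset V) (M B : Finset (Sym2 V)) : ℕ :=
  ∑ v, min (bt O M v) (need τ s O B v)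

section

variable {τ s g : ℕ} {O : V → Finset V} {M B M' B' : Finset (Sym2 V)}

theorem need_mono (h : B ⊆ B') (v : V) : need τ s O B v ≤ need τ s O B' v := by
  unfold need
  apply Nat.div_le_div_right
  have := bt_mono (O := O) h v
  omega

theorem need_le_add (hs : 0 < s) (h : B ⊆ B') (v : V) :
    need τ s O B' v ≤ need τ s O B v + bt O (B' \ B) v := by
  unfold need
  rw [bt_eq_add h]
  rw [Nat.div_le_iff_le_mul_add_pred hs]
  have h1 := Nat.div_add_mod (bt O B v - τ) s
  have h2 := Nat.mod_lt (bt O B v - τ) hs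
  have h3 : bt O (B' \ B) v ≤ s * bt O (B' \ B) v := Nat.le_mul_of_pos_left _ hs
  rw [Nat.mul_add]
  omega

theorem debt_le_add (hs : 0 < s) (hM : M ⊆ M') (h : B ⊆ B') (v : V) :
    debt τ s g O M' B' v ≤ debt τ s g O M B v + bt O (B' \ B) v := by
  unfold debt
  have h1 := bt_mono (O := O) hM v
  have h2 := need_le_add (τ := τ) (O := O) hs h v
  split_ifs <;> omega

theorem debtSum_ext {m : ℕ} (hO : Own O) (hs : 0 < s) (hE : Ext m M B M' B') :
    debtSum τ s g O M' B' ≤ debtSum τ s g O M B + m := by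
  unfold debtSum
  calc _ ≤ ∑ v, (debt τ s g O M B v + bt O (B' \ B) v) :=
        Finset.sum_le_sum fun v _ => debt_le_add hs hE.subM hE.subB v
    _ = ∑ v, debt τ s g O M B v + ∑ v, bt O (B' \ B) v := Finset.sum_add_distrib
    _ ≤ _ := by
        have h1 := sum_bt_le hO (B' \ B)
        have h2 := card_sdiff_ext hE
        omega

theorem paid_mono (hM : M ⊆ M') (h : B ⊆ B') : paid τ s O M B ≤ paid τ s O M' B' := by
  unfold paid
  apply Finset.sum_le_sum
  intro v _
  have h1 := bt_mono (O := O) hM v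
  have h2 := need_mono (τ := τ) (s := s) (O := O) h v
  omega

theorem paid_le (hO : Own O) (hs : 0 < s) : paid τ s O M B * s ≤ B.card := by
  unfold paid
  rw [Finset.sum_mul]
  calc _ ≤ ∑ v, bt O B v := by
        apply Finset.sum_le_sum
        intro v _
        have h1 : need τ s O B v * s ≤ bt O B v - τ := Nat.div_mul_le_self _ _
        have h2 : min (bt O M v) (need τ s O B v) * s ≤ need τ s O B v * s :=
          Nat.mul_le_mul_right _ (min_le_right _ _)
        omega
    _ ≤ _ := sum_bt_le hO B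

/-- A vertex with a debt has a free edge to an owned host. -/
theorem exists_pay {o m : ℕ} (hO : ∀ v, O v = ∅ ∨ o ≤ (O v).card) (hs : 0 < s)
    (ho : τ + s * (g + m) + g ≤ o) (hpos : 0 < debtSum τ s g O M B)
    (hle : debtSum τ s g O M B ≤ m) :
    ∃ v z, z ∈ O v ∧ s(v, z) ∉ M ∧ s(v, z) ∉ B ∧ 0 < debt τ s g O M B v := by
  obtain ⟨v, -, hv⟩ : ∃ v ∈ Finset.univ, debt τ s g O M B v ≠ 0 := by
    apply Finset.exists_ne_zero_of_sum_ne_zero
    unfold debtSum at hpos
    omega
  have hvle : debt τ s g O M B v ≤ debtSum τ s g O M B :=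
    Finset.single_le_sum (f := fun v => debt τ s g O M B v) (fun _ _ => Nat.zero_le _)
      (Finset.mem_univ v)
  have hv' := hv
  unfold debt at hv'
  have hg : ¬ g ≤ bt O M v := by
    intro h; rw [if_pos h] at hv'; exact hv' rfl
  rw [if_neg hg] at hv'
  have hd : debt τ s g O M B v = need τ s O B v - bt O M v := by
    unfold debt; rw [if_neg hg]
  have hneed : need τ s O B v < g + m := by omega
  have hbt : bt O B v < τ + s * (g + m) := by
    unfold need at hneed
    rw [Nat.div_lt_iff_lt_mul hs] at hneed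
    rw [Nat.mul_comm] at hneed
    omega
  have hne : O v ≠ ∅ := by
    intro h
    have : bt O B v = 0 := by unfold bt; rw [h]; simp
    unfold need at hv'
    rw [this] at hv'
    simp at hv'
  have hoc := (hO v).resolve_left hne
  by_contra hcon
  push Not at hcon
  have hsub : O v ⊆ ((O v).filter fun z => s(v, z) ∈ M) ∪ ((O v).filter fun z => s(v, z) ∈ B) := by
    intro z hz
    by_cases h1 : s(v, z) ∈ M
    · exact Finset.mem_union_left _ (Finset.mem_filter.mpr ⟨hz, h1⟩)
    · by_cases h2 : s(v, z) ∈ B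
      · exact Finset.mem_union_right _ (Finset.mem_filter.mpr ⟨hz, h2⟩)
      · have := hcon v z hz h1 h2
        omega
  have h1 := Finset.card_le_card hsub
  have h2 := Finset.card_union_le ((O v).filter fun z => s(v, z) ∈ M)
    ((O v).filter fun z => s(v, z) ∈ B)
  unfold bt at *
  omega

/-- Every vertex owning hosts keeps many usable ones. -/
theorem safe_count {o m : ℕ} (hO : ∀ v, O v = ∅ ∨ o ≤ (O v).card) (hs : 0 < s)
    (ho : τ + s * (g + m) + g ≤ o) (hle : debtSum τ s g O M B ≤ m) (hd : Disjoint M B) {v : V}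
    (hv : O v ≠ ∅) : g ≤ ((O v).filter fun z => s(v, z) ∉ B).card := by
  by_cases hg : g ≤ bt O M v
  · refine hg.trans (Finset.card_le_card ?_)
    intro z hz
    rw [Finset.mem_filter] at hz ⊢
    exact ⟨hz.1, Finset.disjoint_left.mp hd hz.2⟩
  · have hvle : debt τ s g O M B v ≤ debtSum τ s g O M B :=
      Finset.single_le_sum (f := fun v => debt τ s g O M B v) (fun _ _ => Nat.zero_le _)
        (Finset.mem_univ v)
    have hdd : debt τ s g O M B v = need τ s O B v - bt O M v := by
      unfold debt; rw [if_neg hg]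
    have hneed : need τ s O B v < g + m ∨ need τ s O B v = 0 := by omega
    have hbt : bt O B v ≤ τ + s * (g + m) := by
      rcases hneed with hneed | hneed
      · unfold need at hneed
        rw [Nat.div_lt_iff_lt_mul hs] at hneed
        rw [Nat.mul_comm] at hneed
        omega
      · unfold need at hneed
        rw [Nat.div_eq_zero_iff] at hneed
        rcases hneed with h | h
        · omega
        · have h3 : s * 1 ≤ s * (g + m) := by
            apply Nat.mul_le_mul_left
            omega
          omega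
    have hoc := (hO v).resolve_left hv
    have h3 := Finset.card_filter_add_card_filter_not (s := O v) (fun z => s(v, z) ∈ B)
    unfold bt at hbt
    omega

/-- Effect of a payment on the total debt. -/
theorem debtSum_pay (hO : Own O) (hs : 0 < s) (hE : Ext 1 M B M' B') {v z : V} (hz : z ∈ O v)
    (hM : s(v, z) ∉ M) (hM' : s(v, z) ∈ M') (hpos : 0 < debt τ s g O M B v) :
    debtSum τ s g O M' B' ≤ debtSum τ s g O M B := by
  have hbt : bt O M v + 1 ≤ bt O M' v := by
    unfold bt
    apply Nat.succ_le_of_lt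
    apply Finset.card_lt_card
    refine ⟨?_, ?_⟩
    · intro x hx
      rw [Finset.mem_filter] at hx ⊢
      exact ⟨hx.1, hE.subM hx.2⟩
    · intro h
      have := h (Finset.mem_filter.mpr ⟨hz, hM'⟩)
      exact hM (Finset.mem_filter.mp this).2
  have h1 : debt τ s g O M' B' v + 1 ≤ debt τ s g O M B v + bt O (B' \ B) v := by
    have h2 := need_le_add (τ := τ) (O := O) hs hE.subB v
    unfold debt at hpos ⊢
    split_ifs at hpos ⊢ <;> omega
  unfold debtSum
  have h2 : ∑ u, debt τ s g O M' B' u + 1 ≤ ∑ u, (debt τ s g O M B u + bt O (B' \ B) u) := by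
    apply Nat.succ_le_of_lt
    apply Finset.sum_lt_sum
    · intro u _
      exact debt_le_add hs hE.subM hE.subB u
    · exact ⟨v, Finset.mem_univ _, h1⟩
  rw [Finset.sum_add_distrib] at h2
  have h3 := sum_bt_le hO (B' \ B)
  have h4 := card_sdiff_ext hE
  omega

theorem paid_pay (hE : Ext 1 M B M' B') {v z : V} (hz : z ∈ O v)
    (hM : s(v, z) ∉ M) (hM' : s(v, z) ∈ M') (hpos : 0 < debt τ s g O M B v) :
    paid τ s O M B + 1 ≤ paid τ s O M' B' := by
  have hbt : bt O M v + 1 ≤ bt O M' v := by
    unfold bt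
    apply Nat.succ_le_of_lt
    apply Finset.card_lt_card
    refine ⟨?_, ?_⟩
    · intro x hx
      rw [Finset.mem_filter] at hx ⊢
      exact ⟨hx.1, hE.subM hx.2⟩
    · intro h
      have := h (Finset.mem_filter.mpr ⟨hz, hM'⟩)
      exact hM (Finset.mem_filter.mp this).2
  unfold paid
  apply Nat.succ_le_of_lt
  apply Finset.sum_lt_sum
  · intro u _
    have h1 := bt_mono (O := O) hE.subM u
    have h2 := need_mono (τ := τ) (s := s) (O := O) hE.subB u
    omega
  · refine ⟨v, Finset.mem_univ _, ?_⟩
    have h2 := need_mono (τ := τ) (s := s) (O := O) hE.subB v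
    unfold debt at hpos
    split_ifs at hpos <;> omega

end

end Pool.Agent.Lib.MP_9916e0_co
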