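import Pool.Agent.Lib.MP_9916e0_co.Start
import Pool.Agent.Lib.MP_9916e0_co.PathRotate

set_option autoImplicit false
set_option linter.unusedSectionVars false
set_option linter.unusedVariables false

namespace Pool.Agent.Lib.MP_9916e0_co

variable {V : Type*} [Fintype V] [DecidableEq V]

/-- The start of the path engine. -/
theorem start_path {R : RT V} {F : Set (Finset (Sym2 V))} {a Δ c : ℕ} (hF : Goal R F)
    (hC : PC R a Δ c) {B0 : Finset (Sym2 V)} (hB0 : B0.card ≤ 1) : Win F ∅ B0 := by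
  have hc5 := hC.c5
  refine path_engine (D := {R.r}) (f := fun x => x) hF hC ⟨⟨Finset.disjoint_empty_left _, by simp⟩,
    ⟨Finset.mem_singleton_self _, ?_, ?_, ?_⟩, ?_, ?_⟩
  · intro v hv hr
    exact absurd (Finset.mem_singleton.mp hv) hr
  · intro x _ y _ h; exact h
  · intro v hv hr
    exact absurd (Finset.mem_singleton.mp hv) hr
  · omega
  · intro x _
    have := dg_le_card B0 x
    omega

/-- The `m` vertices of largest weight. -/
theorem exists_top (w : V → ℕ) (m : ℕ) (hm : m ≤ Fintype.card V) :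
    ∃ (Top : Finset V) (ω : ℕ), Top.card = m ∧ (∀ p ∈ Top, ω ≤ w p) ∧ (∀ p, p ∉ Top → w p ≤ ω) := by
  induction m with
  | zero =>
    refine ⟨∅, ∑ v, w v, by simp, by simp, ?_⟩
    intro p _
    exact Finset.single_le_sum (f := w) (fun _ _ => Nat.zero_le _) (Finset.mem_univ p)
  | succ m ih =>
    obtain ⟨Top, ω, h1, h2, h3⟩ := ih (by omega)
    have hne : (Finset.univ \ Top : Finset V).Nonempty := by
      rw [← Finset.card_pos, Finset.card_sdiff_of_subset (Finset.subset_univ _), Finset.card_univ]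
      omega
    obtain ⟨p, hp, hmax⟩ := Finset.exists_max_image (Finset.univ \ Top) w hne
    rw [Finset.mem_sdiff] at hp
    refine ⟨insert p Top, w p, ?_, ?_, ?_⟩
    · rw [Finset.card_insert_of_notMem hp.2, h1]
    · intro q hq
      rw [Finset.mem_insert] at hq
      rcases hq with rfl | hq
      · exact le_rfl
      · exact (h3 p hp.2).trans (h2 q hq)
    · intro q hq
      rw [Finset.mem_insert] at hq
      push Not at hq
      exact hmax q (Finset.mem_sdiff.mpr ⟨Finset.mem_univ _, hq.2⟩)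

/-- Leaves of the tree. -/
noncomputable def tlvs (T : SimpleGraph V) : Finset V :=
  Finset.univ.filter fun v => (tn T v).card = 1

theorem Rooted.lvs_eq {T : SimpleGraph V} {R : RT V} (h : Rooted T R)
    (hr : 2 ≤ (tn T R.r).card) : lvs R = tlvs T := by
  ext v
  unfold tlvs
  rw [mem_lvs, h.leaf_iff hr, Finset.mem_filter]
  simp

/-- A vertex which is not a leaf. -/
theorem exists_internal {T : SimpleGraph V} (hT : T.IsTree) (hn : 3 ≤ Fintype.card V) :
    ∃ r, 2 ≤ (tn T r).card := by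
  by_contra hcon
  push Not at hcon
  obtain ⟨r⟩ : Nonempty V := Fintype.card_pos_iff.mp (by omega)
  obtain ⟨R, hr, hR⟩ := exists_rooted hT r
  have h1 := sum_ch R
  have h2 : ∑ v, (R.ch v).card ≤ ∑ v, (if v = R.r then 1 else 0) := by
    apply Finset.sum_le_sum
    intro v _
    by_cases hv : v = R.r
    · rw [if_pos hv, hv, ← hR.tn_root]
      have := hcon R.r
      omega
    · have h3 := hR.card_tn hv
      have := hcon v
      rw [if_neg hv]
      omega
  rw [Finset.sum_ite_eq' Finset.univ R.r, if_pos (Finset.mem_univ _)] at h2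
  omega

/-- The pool class. -/
noncomputable def poolCl (R : RT V) (Top : Finset V) : Finset V :=
  Finset.univ.filter fun p => p ∉ Top ∧ R.ch p ≠ ∅

theorem pool_large {T : SimpleGraph V} {R : RT V} (h : Rooted T R)
    (hr : 2 ≤ (tn T R.r).card) {Δ : ℕ} (hΔ : ∀ v, (tn T v).card ≤ Δ) (Top : Finset V) :
    (tlvs T).card ≤ ∑ p ∈ poolCl R Top, (lc R p).card + Top.card * Δ := by
  rw [← h.lvs_eq hr]
  have h1 : lvs R ⊆ (poolCl R Top).biUnion (lc R) ∪ Top.biUnion (lc R) := by
    intro v hv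
    have hv' := mem_lvs.mp hv
    have hvr : v ≠ R.r := by
      rintro rfl
      rw [h.tn_root, hv'] at hr
      simp at hr
    have hmem : v ∈ lc R (R.par v) := by
      unfold lc
      rw [Finset.mem_inter]
      exact ⟨RT.mem_ch.mpr ⟨hvr, rfl⟩, hv⟩
    rw [Finset.mem_union, Finset.mem_biUnion, Finset.mem_biUnion]
    by_cases hp : R.par v ∈ Top
    · exact Or.inr ⟨_, hp, hmem⟩
    · refine Or.inl ⟨_, ?_, hmem⟩
      unfold poolCl
      rw [Finset.mem_filter]
      refine ⟨Finset.mem_univ _, hp, ?_⟩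
      intro h0
      unfold lc at hmem
      rw [h0] at hmem
      simp at hmem
  calc (lvs R).card ≤ ((poolCl R Top).biUnion (lc R) ∪ Top.biUnion (lc R)).card :=
        Finset.card_le_card h1
    _ ≤ ((poolCl R Top).biUnion (lc R)).card + (Top.biUnion (lc R)).card := Finset.card_union_le _ _
    _ ≤ ∑ p ∈ poolCl R Top, (lc R p).card + ∑ p ∈ Top, (lc R p).card :=
        Nat.add_le_add Finset.card_biUnion_le Finset.card_biUnion_le
    _ ≤ _ := by
        apply Nat.add_le_add_left
        calc ∑ p ∈ Top, (lc R p).card ≤ ∑ _p ∈ Top, Δ := by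
              apply Finset.sum_le_sum
              intro p _
              refine le_trans (Finset.card_le_card ?_) (hΔ p)
              exact Finset.inter_subset_left.trans (ch_subset_tn h p)
          _ = _ := by rw [Finset.sum_const, smul_eq_mul]

/-- Enumerate a large set. -/
theorem exists_enum {S : Finset V} {k : ℕ} (h : k + 1 ≤ S.card) :
    ∃ e : ℕ → V, (∀ i ≤ k, e i ∈ S) ∧ ∀ i ≤ k, ∀ j ≤ k, e i = e j → i = j := by
  classical
  have hpos : 0 < S.card := by omega
  refine ⟨fun i => if hi : i < S.card then (S.equivFin.symm ⟨i, hi⟩ : V) else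
    (S.equivFin.symm ⟨0, hpos⟩ : V), ?_, ?_⟩
  · intro i hi
    simp only [dif_pos (show i < S.card by omega)]
    exact (S.equivFin.symm ⟨i, by omega⟩).2
  · intro i hi j hj hij
    simp only [dif_pos (show i < S.card by omega), dif_pos (show j < S.card by omega)] at hij
    have h1 := S.equivFin.symm.injective (Subtype.ext hij)
    exact Fin.mk.inj_iff.mp h1

/-- Hubs with distinct parents and of one parity. -/
theorem exists_spread {R : RT V} {Top : Finset V} {k m₀ : ℕ} (hk : 1 ≤ k)
    (hch : ∀ q, (R.ch q ∩ Top).card ≤ k) (hT : 1 + k + k * (2 * m₀) ≤ Top.card) :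
    ∃ H0 ⊆ Top, m₀ ≤ H0.card ∧ (∀ h ∈ H0, h ≠ R.r ∧ R.par h ≠ R.r) ∧
      (∀ v, (R.ch v ∩ H0).card ≤ 1) ∧ (∀ h ∈ H0, R.ch h ∩ H0 = ∅) := by
  classical
  set S1 := Top.filter (fun h => h ≠ R.r ∧ R.par h ≠ R.r) with hS1
  have h1 : Top ⊆ S1 ∪ ({R.r} ∪ (R.ch R.r ∩ Top)) := by
    intro h hh
    rw [Finset.mem_union, Finset.mem_union, Finset.mem_singleton, Finset.mem_inter, hS1,
      Finset.mem_filter]
    by_cases h1 : h = R.r
    · exact Or.inr (Or.inl h1)
    · by_cases h2 : R.par h = R.r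
      · exact Or.inr (Or.inr ⟨RT.mem_ch.mpr ⟨h1, h2⟩, hh⟩)
      · exact Or.inl ⟨hh, h1, h2⟩
  have h2 : k * (2 * m₀) ≤ S1.card := by
    have e1 := Finset.card_le_card h1
    have e2 := Finset.card_union_le S1 ({R.r} ∪ (R.ch R.r ∩ Top))
    have e3 := Finset.card_union_le {R.r} (R.ch R.r ∩ Top)
    rw [Finset.card_singleton] at e3
    have e4 := hch R.r
    omega
  have h3 : S1.card ≤ k * (S1.image R.par).card := by
    apply Finset.card_le_mul_card_image
    intro q _
    refine le_trans (Finset.card_le_card ?_) (hch q)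
    intro x hx
    rw [Finset.mem_filter, hS1, Finset.mem_filter] at hx
    rw [Finset.mem_inter]
    exact ⟨RT.mem_ch.mpr ⟨hx.1.2.1, hx.2⟩, hx.1.1⟩
  have h4 : 2 * m₀ ≤ (S1.image R.par).card :=
    Nat.le_of_mul_le_mul_left (h2.trans h3) (by omega)
  have hrep : ∀ q : V, ∃ h, q ∈ S1.image R.par → (h ∈ S1 ∧ R.par h = q) := by
    intro q
    by_cases hq : q ∈ S1.image R.par
    · obtain ⟨h, hh, hhq⟩ := Finset.mem_image.mp hq
      exact ⟨h, fun _ => ⟨hh, hhq⟩⟩
    · exact ⟨q, fun h => absurd h hq⟩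
  choose rep hrep using hrep
  set H1 := (S1.image R.par).image rep with hH1
  have hH1S : ∀ h ∈ H1, h ∈ S1 ∧ rep (R.par h) = h := by
    intro h hh
    rw [hH1, Finset.mem_image] at hh
    obtain ⟨q, hq, rfl⟩ := hh
    have := hrep q hq
    exact ⟨this.1, by rw [this.2]⟩
  have hH1c : 2 * m₀ ≤ H1.card := by
    rw [hH1, Finset.card_image_of_injOn]
    · exact h4
    · intro x hx y hy hxy
      rw [Finset.mem_coe] at hx hy
      rw [← (hrep x hx).2, ← (hrep y hy).2, hxy]
  have key : ∀ b : ℕ, ∀ H0 : Finset V, H0 = H1.filter (fun h => R.dep h % 2 = b) → m₀ ≤ H0.card →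
      ∃ H0 ⊆ Top, m₀ ≤ H0.card ∧ (∀ h ∈ H0, h ≠ R.r ∧ R.par h ≠ R.r) ∧
      (∀ v, (R.ch v ∩ H0).card ≤ 1) ∧ (∀ h ∈ H0, R.ch h ∩ H0 = ∅) := by
    intro b H0 hH0 hc
    have hmem : ∀ h ∈ H0, h ∈ S1 ∧ rep (R.par h) = h ∧ R.dep h % 2 = b := by
      intro h hh
      rw [hH0, Finset.mem_filter] at hh
      exact ⟨(hH1S h hh.1).1, (hH1S h hh.1).2, hh.2⟩
    refine ⟨H0, ?_, hc, ?_, ?_, ?_⟩
    · intro h hh
      exact (Finset.mem_filter.mp (hmem h hh).1).1
    · intro h hh
      exact (Finset.mem_filter.mp (hmem h hh).1).2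
    · intro v
      rw [Finset.card_le_one]
      intro x hx y hy
      rw [Finset.mem_inter] at hx hy
      have e1 := (hmem x hx.2).2.1
      have e2 := (hmem y hy.2).2.1
      rw [(RT.mem_ch.mp hx.1).2] at e1
      rw [(RT.mem_ch.mp hy.1).2] at e2
      rw [← e1, ← e2]
    · intro h hh
      rw [Finset.eq_empty_iff_forall_notMem]
      intro x hx
      rw [Finset.mem_inter] at hx
      have e1 := (hmem x hx.2).2.2
      have e2 := (hmem h hh).2.2
      have e3 := RT.dep_ch hx.1
      omega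
  have hsplit : H1.card = (H1.filter (fun h => R.dep h % 2 = 0)).card +
      (H1.filter (fun h => R.dep h % 2 = 1)).card := by
    rw [← Finset.card_filter_add_card_filter_not (fun h => R.dep h % 2 = 0)]
    congr 2
    apply Finset.filter_congr
    intro x _
    omega
  by_cases hb : m₀ ≤ (H1.filter (fun h => R.dep h % 2 = 0)).card
  · exact key 0 _ rfl hb
  · exact key 1 _ rfl (by omega)

end Pool.Agent.Lib.MP_9916e0_co
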