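import Pool.Agent.Lib.MP_9916e0_co.Select

set_option autoImplicit false
set_option linter.unusedSectionVars false
set_option linter.unusedVariables false

namespace Pool.Agent.Lib.MP_9916e0_co

/-! ### The star is a win for Breaker -/

/-- The star on `Fin n` with centre `c`. -/
def starG (n : ℕ) (c : Fin n) : SimpleGraph (Fin n) where
  Adj x y := x ≠ y ∧ (x = c ∨ y = c)
  symm := ⟨fun x y h => ⟨h.1.symm, h.2.symm⟩⟩
  loopless := ⟨fun x h => h.1 rfl⟩

theorem starG_adj {n : ℕ} {c x y : Fin n} : (starG n c).Adj x y ↔ x ≠ y ∧ (x = c ∨ y = c) :=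
  Iff.rfl

theorem starG_isTree {n : ℕ} (c : Fin n) : (starG n c).IsTree := by
  classical
  have hconn : (starG n c).Connected := by
    rw [SimpleGraph.connected_iff]
    refine ⟨?_, ⟨c⟩⟩
    have h1 : ∀ x, (starG n c).Reachable x c := by
      intro x
      by_cases h : x = c
      · rw [h]
      · exact SimpleGraph.Adj.reachable (starG_adj.mpr ⟨h, Or.inr rfl⟩)
    intro x y
    exact (h1 x).trans (h1 y).symm
  rw [SimpleGraph.isTree_iff_connected_and_card]
  refine ⟨hconn, ?_⟩
  have h1 : (starG n c).edgeSet = ((Finset.univ.erase c).image fun x => s(c, x) : Finset (Sym2 (Fin n))) := by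
    ext e
    induction e using Sym2.ind with
    | _ x y =>
      rw [SimpleGraph.mem_edgeSet, starG_adj, Finset.mem_coe, Finset.mem_image]
      constructor
      · rintro ⟨h1, rfl | rfl⟩
        · exact ⟨y, Finset.mem_erase.mpr ⟨h1.symm, Finset.mem_univ _⟩, rfl⟩
        · exact ⟨x, Finset.mem_erase.mpr ⟨h1, Finset.mem_univ _⟩, Sym2.eq_swap⟩
      · rintro ⟨z, hz, h⟩
        rw [Finset.mem_erase] at hz
        rw [Sym2.eq_iff] at h
        rcases h with ⟨rfl, rfl⟩ | ⟨rfl, rfl⟩
        · exact ⟨hz.1.symm, Or.inl rfl⟩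
        · exact ⟨hz.1, Or.inr rfl⟩
  rw [h1, Nat.card_coe_set_eq, Set.ncard_coe_finset, Nat.card_eq_fintype_card]
  rw [Finset.card_image_of_injOn, Finset.card_erase_of_mem (Finset.mem_univ _),
    Finset.card_univ]
  · have : 0 < Fintype.card (Fin n) := Fintype.card_pos_iff.mpr ⟨c⟩
    omega
  · intro x _ y _ hxy
    simp only [Sym2.eq_iff] at hxy
    rcases hxy with ⟨_, h⟩ | ⟨h, h'⟩
    · exact h
    · rw [h', h]

/-- Vertices not touched by Breaker. -/
def unt {n : ℕ} (B : Finset (Sym2 (Fin n))) : Finset (Fin n) :=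
  Finset.univ.filter fun v => ∀ x, x ≠ v → s(v, x) ∉ B

theorem mem_unt {n : ℕ} {B : Finset (Sym2 (Fin n))} {v : Fin n} :
    v ∈ unt B ↔ ∀ x, x ≠ v → s(v, x) ∉ B := by
  simp [unt]

/-- In a copy of the star some vertex is adjacent to all others. -/
theorem star_copy {n : ℕ} {c : Fin n} {A : Finset (Sym2 (Fin n))} (hA : A ∈ copies (starG n c)) :
    ∃ v, ∀ x, x ≠ v → s(v, x) ∈ A := by
  obtain ⟨σ, hσ⟩ := hA
  refine ⟨σ c, ?_⟩
  intro x hx
  rw [← Finset.mem_coe, hσ]
  refine ⟨s(c, σ.symm x), ?_, ?_⟩
  · rw [SimpleGraph.mem_edgeSet, starG_adj]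
    refine ⟨?_, Or.inl rfl⟩
    rintro h
    apply hx
    rw [h]
    simp
  · rw [Sym2.map_mk]
    simp

/-- If Maker owns all edges at `v` then he has at least `n - 1` edges. -/
theorem card_of_full {n : ℕ} {M : Finset (Sym2 (Fin n))} {v : Fin n}
    (h : ∀ x, x ≠ v → s(v, x) ∈ M) : n ≤ M.card + 1 := by
  have h1 : ((Finset.univ.erase v).image fun x => s(v, x)) ⊆ M := by
    intro e he
    rw [Finset.mem_image] at he
    obtain ⟨x, hx, rfl⟩ := he
    exact h x (Finset.mem_erase.mp hx).1
  have h2 := Finset.card_le_card h1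
  rw [Finset.card_image_of_injOn, Finset.card_erase_of_mem (Finset.mem_univ _),
    Finset.card_univ, Fintype.card_fin] at h2
  · omega
  · intro x _ y _ hxy
    simp only [Sym2.eq_iff] at hxy
    rcases hxy with ⟨_, h⟩ | ⟨h, h'⟩
    · exact h
    · rw [h', h]

/-- Breaker's invariant against the star. -/
def BInv {n : ℕ} (t : Bool) (M B : Finset (Sym2 (Fin n))) : Prop :=
  Disjoint M B ∧ (unt B = ∅ ∨ M.card + (unt B).card + (if t = true then 1 else 0) + 1 ≤ n)

theorem unt_anti {n : ℕ} {B B' : Finset (Sym2 (Fin n))} (h : B ⊆ B') : unt B' ⊆ unt B := by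
  intro v hv
  rw [mem_unt] at hv ⊢
  exact fun x hx hxB => hv x hx (h hxB)

theorem star_lose {n : ℕ} {c : Fin n} {t : Bool} {M B : Finset (Sym2 (Fin n))}
    (h : MakerWins (board n) (copies (starG n c)) t M B) : BInv t M B → False := by
  induction h with
  | done t M B A hA hAM =>
    rintro ⟨hd, hi⟩
    obtain ⟨v, hv⟩ := star_copy hA
    have hvu : v ∈ unt B := by
      rw [mem_unt]
      intro x hxv hx
      exact Finset.disjoint_left.mp hd (hAM (hv x hxv)) hx
    have h1 := card_of_full (fun x hx => hAM (hv x hx))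
    rcases hi with hi | hi
    · rw [hi] at hvu; simp at hvu
    · have : 0 < (unt B).card := Finset.card_pos.mpr ⟨v, hvu⟩
      omega
  | maker M B e he heM heB h ih =>
    rintro ⟨hd, hi⟩
    apply ih
    refine ⟨?_, ?_⟩
    · rw [Finset.disjoint_insert_left]; exact ⟨heB, hd⟩
    · rcases hi with hi | hi
      · exact Or.inl hi
      · right
        have := Finset.card_insert_le e M
        simp only [if_true] at hi
        simp only [Bool.false_eq_true, if_false]
        omega
  | breaker M B hfree h ih =>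
    rintro ⟨hd, hi⟩
    simp only [Bool.false_eq_true, if_false] at hi
    by_cases hU : unt B = ∅
    · obtain ⟨e, he, heM, heB⟩ := hfree
      apply ih e he heM heB
      refine ⟨?_, Or.inl ?_⟩
      · rw [Finset.disjoint_insert_right]; exact ⟨heM, hd⟩
      · have := unt_anti (Finset.subset_insert e B)
        rw [hU] at this
        exact Finset.subset_empty.mp this
    · replace hi := hi.resolve_left hU
      obtain ⟨v, hv⟩ := Finset.nonempty_iff_ne_empty.mpr hU
      have hvc : 0 < (unt B).card := Finset.card_pos.mpr ⟨v, hv⟩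
      obtain ⟨x, hxv, hxM⟩ : ∃ x, x ≠ v ∧ s(v, x) ∉ M := by
        by_contra hcon
        push Not at hcon
        have := card_of_full hcon
        omega
      have hxB := (mem_unt.mp hv) x hxv
      apply ih s(v, x) (by simp [board, hxv.symm]) hxM hxB
      refine ⟨?_, Or.inr ?_⟩
      · rw [Finset.disjoint_insert_right]; exact ⟨hxM, hd⟩
      · have h1 : unt (insert s(v, x) B) ⊆ (unt B).erase v := by
          intro y hy
          rw [Finset.mem_erase]
          refine ⟨?_, unt_anti (Finset.subset_insert _ _) hy⟩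
          rintro rfl
          exact (mem_unt.mp hy) x hxv (Finset.mem_insert_self _ _)
        have h2 := Finset.card_le_card h1
        rw [Finset.card_erase_of_mem hv] at h2
        simp only [if_true]
        omega

theorem star_not_win {n : ℕ} (hn : 2 ≤ n) (c : Fin n) : ¬ TreeGameWin (starG n c) := by
  intro h
  unfold TreeGameWin at h
  cases h with
  | done _ _ _ A hA hAM =>
    obtain ⟨v, hv⟩ := star_copy hA
    have h1 := card_of_full (fun x hx => hAM (hv x hx))
    simp at h1
    omega
  | breaker _ _ hfree h =>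
    obtain ⟨x, hx⟩ : ∃ x : Fin n, x ≠ c := by
      have : Nontrivial (Fin n) := Fin.nontrivial_iff_two_le.mpr hn
      exact exists_ne c
    refine star_lose (h s(c, x) (by simp [board, hx.symm]) (by simp) (by simp)) ⟨by simp, Or.inr ?_⟩
    have h1 : unt (insert s(c, x) (∅ : Finset (Sym2 (Fin n)))) ⊆ (Finset.univ.erase c).erase x := by
      intro y hy
      rw [Finset.mem_erase, Finset.mem_erase]
      refine ⟨?_, ?_, Finset.mem_univ _⟩
      · rintro rfl
        exact (mem_unt.mp hy) c hx.symm (by rw [Sym2.eq_swap]; exact Finset.mem_insert_self _ _)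
      · rintro rfl
        exact (mem_unt.mp hy) x hx (Finset.mem_insert_self _ _)
    have h2 := Finset.card_le_card h1
    rw [Finset.card_erase_of_mem (Finset.mem_erase.mpr ⟨hx, Finset.mem_univ _⟩),
      Finset.card_erase_of_mem (Finset.mem_univ _), Finset.card_univ, Fintype.card_fin] at h2
    simp only [if_true, Finset.card_empty]
    omega

/-- The degree threshold is below `n - 1`. -/
theorem not_allTreesWin {n d : ℕ} (hn : 2 ≤ n) (hd : n - 1 ≤ d) : ¬ AllTreesWin n d := by
  intro h
  have c : Fin n := ⟨0, by omega⟩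
  refine star_not_win hn c (h _ (starG_isTree c) ?_)
  intro v
  refine le_trans ?_ hd
  have h1 : (starG n c).neighborSet v ⊆ ((Finset.univ.erase v : Finset (Fin n)) : Set (Fin n)) := by
    intro x hx
    rw [SimpleGraph.mem_neighborSet, starG_adj] at hx
    simp [hx.1.symm]
  have h2 := Set.ncard_le_ncard h1 (Finset.finite_toSet _)
  rw [Set.ncard_coe_finset, Finset.card_erase_of_mem (Finset.mem_univ _), Finset.card_univ,
    Fintype.card_fin] at h2
  exact h2

end Pool.Agent.Lib.MP_9916e0_co
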