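import Pool.Agent.Lib.MP_9916e0_co.Root

set_option autoImplicit false
set_option linter.unusedSectionVars false
set_option linter.unusedVariables false

namespace Pool.Agent.Lib.MP_9916e0_co

variable {V : Type*} [Fintype V] [DecidableEq V]

/-- Number of hosts each vertex should own. -/
def o0 (NL Na : ℕ) : ℕ := 100 * Na * (160 * NL + 10 * Na + 2 + 3) + (160 * NL + 10 * Na + 2)

/-- The parameters of the leaf engine. -/
def mkP (R : RT V) (a Δ NL Na τ o ω L : ℕ) (Pl H0 Fz Z : Finset V) (O : V → Finset V) : LP V where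
  R := R
  a := a
  Δ := Δ
  c := 3
  s := 100 * Na
  τ := τ
  g := 160 * NL + 10 * Na + 2
  o := o
  u := 80 * NL + 10 * Na
  NL := NL
  Na := Na
  ω := ω
  L := L
  Pl := Pl
  H0 := H0
  Fz := Fz
  Z := Z
  O := O

/-- The numerical hypotheses which do not depend on the start. -/
structure Base (R : RT V) (a Δ NL Na ω L : ℕ) (Pl : Finset V) : Prop where
  deg : ∀ v, (R.ch v).card ≤ Δ
  room : 10 * Fintype.card V + 20 ≤ (brd V).card
  h1 : 200 * (1 + Δ) ≤ a
  h2 : 1000 * (Fintype.card V * (1 + Δ)) ≤ a * a
  n6 : 6 ≤ Fintype.card V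
  aL : 32 * a ≤ L
  nL : Fintype.card V ≤ NL * L
  na : Fintype.card V ≤ Na * a
  Naa : 10 * Na ≤ a
  cw : 80 * NL * Δ ≤ a
  ω1 : 1 ≤ ω
  ωΔ : ω ≤ Δ
  Pl_int : ∀ p ∈ Pl, R.ch p ≠ ∅
  Pl_le : ∀ p ∈ Pl, (lc R p).card ≤ ω
  L_eq : L = ∑ p ∈ Pl, (lc R p).card

theorem Base.good {R : RT V} {a Δ NL Na ω L : ℕ} {Pl : Finset V}
    (hB : Base R a Δ NL Na ω L Pl) {τ o : ℕ} {H0 Fz Z : Finset V} {O : V → Finset V}
    (hH0 : ∀ h ∈ H0, ω ≤ (lc R h).card) (hFz : ∀ v ∈ Fz, R.ch v = ∅) (hFzc : Fz.card ≤ 1)
    (hown : Own O) (hosub : ∀ v, O v ⊆ Z) (hobig : ∀ v, O v = ∅ ∨ o ≤ (O v).card)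
    (hoo : τ + o0 NL Na ≤ o) (hzL : Z.card ≤ a) :
    (mkP R a Δ NL Na τ o ω L Pl H0 Fz Z O).Good := by
  have hNa : 1 ≤ Na := by
    have h1 := hB.na
    have h2 := hB.n6
    by_contra hcon
    have h3 : Na = 0 := by omega
    rw [h3] at h1
    omega
  have hh1 := hB.h1
  exact
    { deg := hB.deg
      room := hB.room
      h1 := hB.h1
      h2 := hB.h2
      s20 := by show 20 ≤ 100 * Na; omega
      hsa := by
        show 100 * Fintype.card V ≤ 100 * Na * a
        have := hB.na
        rw [Nat.mul_assoc]
        omega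
      hcn := hB.n6
      hca := by show 2 * 3 ≤ a; omega
      c3 := le_rfl
      aL := hB.aL
      nL := hB.nL
      na := hB.na
      Naa := hB.Naa
      cw := hB.cw
      gG := by show 80 * NL + 10 * Na + 80 * NL + 2 ≤ 160 * NL + 10 * Na + 2; omega
      oo := by
        show τ + 100 * Na * (160 * NL + 10 * Na + 2 + 3) + (160 * NL + 10 * Na + 2) ≤ o
        unfold o0 at hoo
        omega
      uu := le_rfl
      zL := hzL
      ω1 := hB.ω1
      ωΔ := hB.ωΔ
      Pl_int := hB.Pl_int
      Pl_le := hB.Pl_le
      L_eq := hB.L_eq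
      H0_ge := hH0
      Fz_lvs := hFz
      Fz_card := hFzc
      own := hown
      osub := hosub
      obig := hobig }

theorem debtSum_zero {τ s g : ℕ} {O : V → Finset V} {M B : Finset (Sym2 V)} (hs : 0 < s)
    (h : ∀ v, bt O B v - τ < s) : debtSum τ s g O M B = 0 := by
  unfold debtSum
  apply Finset.sum_eq_zero
  intro v _
  unfold debt need
  rw [Nat.div_eq_of_lt (h v)]
  simp

theorem dg_le_card (B : Finset (Sym2 V)) (v : V) : dg B v ≤ B.card := by
  unfold dg
  apply Finset.card_le_card_of_injOn (fun x => s(v, x))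
  · intro x hx
    rw [Finset.mem_coe, mem_nb] at hx
    exact hx
  · intro x _ y _ hxy
    simp only [Sym2.eq_iff] at hxy
    rcases hxy with ⟨_, h⟩ | ⟨h, h'⟩
    · exact h
    · rw [h', h]

section

variable {R : RT V} {F : Set (Finset (Sym2 V))} {a Δ NL Na ω L : ℕ} {Pl : Finset V}

theorem hB_Na (hB : Base R a Δ NL Na ω L Pl) : 1 ≤ Na := by
  have h1 := hB.na
  have h2 := hB.n6
  by_contra hcon
  have h3 : Na = 0 := by omega
  rw [h3] at h1
  omega

/-- The start in the case of hubs with distinct parents. -/
theorem start_prox (hF : Goal R F) (hB : Base R a Δ NL Na ω L Pl) {H0 : Finset V}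
    (hH0 : ∀ h ∈ H0, ω ≤ (lc R h).card) (hH0c : 3 * o0 NL Na ≤ H0.card)
    (hpr : ∀ h ∈ H0, h ≠ R.r ∧ R.par h ≠ R.r) (sep : ∀ v, (R.ch v ∩ H0).card ≤ 1)
    (sep2 : ∀ h ∈ H0, R.ch h ∩ H0 = ∅) (ha : 3 * o0 NL Na ≤ a)
    (hn : 3 * o0 NL Na + 1 ≤ Fintype.card V) {B0 : Finset (Sym2 V)} (hB0 : B0.card ≤ 1) :
    Win F ∅ B0 := by
  have hNa := hB_Na hB
  have hh1 := hB.h1
  have ho : 0 < o0 NL Na := by unfold o0; omega
  obtain ⟨Z, hZsub, hZc⟩ := Finset.exists_subset_card_eq
    (s := (Finset.univ.erase R.r : Finset V)) (n := 3 * o0 NL Na) (by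
      rw [Finset.card_erase_of_mem (Finset.mem_univ _), Finset.card_univ]; omega)
  obtain ⟨Z0, hZ0, hZ0c⟩ := Finset.exists_subset_card_eq (s := Z) (n := o0 NL Na) (by omega)
  have hc1 : (Z \ Z0).card = 2 * o0 NL Na := by
    rw [Finset.card_sdiff_of_subset hZ0]; omega
  obtain ⟨Z1, hZ1, hZ1c⟩ := Finset.exists_subset_card_eq (s := Z \ Z0) (n := o0 NL Na) (by omega)
  set Z2 := (Z \ Z0) \ Z1 with hZ2
  have hZ2c : Z2.card = o0 NL Na := by
    rw [hZ2, Finset.card_sdiff_of_subset hZ1]; omega
  have hZ1Z : Z1 ⊆ Z := hZ1.trans Finset.sdiff_subset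
  have hZ2Z : Z2 ⊆ Z := Finset.sdiff_subset.trans Finset.sdiff_subset
  have d01 : ∀ x, x ∈ Z0 → x ∉ Z1 := fun x h0 h1 => (Finset.mem_sdiff.mp (hZ1 h1)).2 h0
  have d02 : ∀ x, x ∈ Z0 → x ∉ Z2 := fun x h0 h2 =>
    (Finset.mem_sdiff.mp (Finset.mem_sdiff.mp h2).1).2 h0
  have d12 : ∀ x, x ∈ Z1 → x ∉ Z2 := fun x h1 h2 => (Finset.mem_sdiff.mp h2).2 h1
  have hZall : ∀ x ∈ Z, x ∈ Z0 ∨ x ∈ Z1 ∨ x ∈ Z2 := by
    intro x hx
    by_cases h0 : x ∈ Z0
    · exact Or.inl h0
    · by_cases h1 : x ∈ Z1
      · exact Or.inr (Or.inl h1)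
      · exact Or.inr (Or.inr (Finset.mem_sdiff.mpr ⟨Finset.mem_sdiff.mpr ⟨hx, h0⟩, h1⟩))
  set O : V → Finset V := fun x => if x ∈ Z0 then Z1 else if x ∈ Z1 then Z2 else
    if x ∈ Z2 then Z0 else Z with hO
  have O0 : ∀ x ∈ Z0, O x = Z1 := fun x hx => by simp only [hO, if_pos hx]
  have O1 : ∀ x ∈ Z1, O x = Z2 := fun x hx => by
    simp only [hO, if_neg (fun h => d01 x h hx), if_pos hx]
  have O2 : ∀ x ∈ Z2, O x = Z0 := fun x hx => by
    simp only [hO, if_neg (fun h => d02 x h hx), if_neg (fun h => d12 x h hx), if_pos hx]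
  have O3 : ∀ x, x ∉ Z → O x = Z := fun x hx => by
    simp only [hO, if_neg (fun h => hx (hZ0 h)), if_neg (fun h => hx (hZ1Z h)),
      if_neg (fun h => hx (hZ2Z h))]
  have hosub : ∀ v, O v ⊆ Z := by
    intro v
    by_cases hv : v ∈ Z
    · rcases hZall v hv with h | h | h
      · rw [O0 v h]; exact hZ1Z
      · rw [O1 v h]; exact hZ2Z
      · rw [O2 v h]; exact hZ0
    · rw [O3 v hv]
  have hobig : ∀ v, o0 NL Na ≤ (O v).card := by
    intro v
    by_cases hv : v ∈ Z
    · rcases hZall v hv with h | h | h
      · rw [O0 v h]; omega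
      · rw [O1 v h]; omega
      · rw [O2 v h]; omega
    · rw [O3 v hv]; omega
  have hown : Own O := by
    refine ⟨?_, ?_⟩
    · intro v hvv
      by_cases hv : v ∈ Z
      · rcases hZall v hv with h | h | h
        · rw [O0 v h] at hvv; exact d01 v h hvv
        · rw [O1 v h] at hvv; exact d12 v h hvv
        · rw [O2 v h] at hvv; exact d02 v hvv h
      · rw [O3 v hv] at hvv; exact hv hvv
    · intro v z hz hv
      by_cases hvZ : v ∈ Z
      · rcases hZall v hvZ with h | h | h
        · rw [O0 v h] at hz
          rw [O1 z hz] at hv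
          exact d02 v h hv
        · rw [O1 v h] at hz
          rw [O2 z hz] at hv
          exact d01 v hv h
        · rw [O2 v h] at hz
          rw [O0 z hz] at hv
          exact d12 v hv h
      · exact hvZ (hosub z hv)
  have hP := hB.good (τ := 0) (o := o0 NL Na) (Fz := ∅) (Z := Z) hH0 (by simp) (by simp) hown hosub
    (fun v => Or.inr (hobig v)) (by omega) (by omega)
  have hOk : Ok (∅ : Finset (Sym2 V)) B0 := ⟨Finset.disjoint_empty_left _, by simp⟩
  have hemb : Emb R {R.r} (fun x => x) (∅ : Finset (Sym2 V)) := by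
    refine ⟨Finset.mem_singleton_self _, ?_, ?_, ?_⟩
    · intro v hv hr
      exact absurd (Finset.mem_singleton.mp hv) hr
    · intro x _ y _ h; exact h
    · intro v hv hr
      exact absurd (Finset.mem_singleton.mp hv) hr
  have hrZ : R.r ∉ Z := fun h => (Finset.mem_erase.mp (hZsub h)).1 rfl
  refine phase_one (D := {R.r}) (f := fun x => x) hF hP
    { ok := hOk
      emb := hemb
      fz := Finset.empty_subset _
      own := ?_
      clH := ?_
      onZ := ?_
      alive := Or.inl ⟨?_, ?_⟩
      lv := ?_
      sep := fun v _ => sep v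
      sep2 := fun h hh _ => sep2 h hh
      debt := ?_
      cardB := ?_
      deg := ?_ }
  · intro x hx
    exfalso
    have := hobig x
    have hx' : O x = ∅ := hx
    rw [hx'] at this
    simp at this
    omega
  · intro h hh _ hp
    rw [Finset.mem_singleton] at hp
    exact absurd hp (hpr h hh).2
  · intro v hv hvZ
    rw [Finset.mem_singleton] at hv
    exact absurd (hv ▸ hvZ) hrZ
  · show Z.card ≤ H0.card
    omega
  · intro h hh hhD
    rw [Finset.mem_singleton] at hhD
    exact absurd hhD (hpr h hh).1
  · have : (({R.r} : Finset V).filter fun v => R.ch v = ∅).card ≤ 1 :=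
      (Finset.card_filter_le _ _).trans (by simp)
    exact this.trans (by omega)
  · have : debtSum 0 (100 * Na) (160 * NL + 10 * Na + 2) O ∅ B0 = 0 := by
      apply debtSum_zero (by omega)
      intro v
      have h1 := Finset.single_le_sum (f := fun v => bt O B0 v) (fun _ _ => Nat.zero_le _)
        (Finset.mem_univ v)
      have h2 := sum_bt_le hown B0
      omega
    show debtSum 0 (100 * Na) (160 * NL + 10 * Na + 2) O ∅ B0 ≤ 3
    omega
  · show B0.card ≤ 3 * (({R.r} : Finset V).card + _) + 3
    omega
  · intro p hp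
    have := dg_le_card B0 p
    show dg B0 p ≤ a + _ + 3
    omega

/-- The intermediate positions while the star is being built. -/
structure Star (R : RT V) (h : ℕ → V) (B0 : Finset (Sym2 V)) (j : ℕ) (D : Finset V) (f : V → V)
    (M B : Finset (Sym2 V)) : Prop where
  ok : Ok M B
  emb : Emb R D f M
  D_eq : D = insert R.r ((Finset.range j).image h)
  sub : B0 ⊆ B
  card : B.card ≤ B0.card + j
  fr : ∀ x, s(f R.r, x) ∉ B0
  fz : ∀ i < j, ∀ x, s(f (h i), x) ∉ B0

theorem star_build {h : ℕ → V} {k : ℕ} (hinj : ∀ i ≤ k, ∀ j ≤ k, h i = h j → i = j)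
    (hch : ∀ i ≤ k, h i ∈ R.ch R.r) {B0 : Finset (Sym2 V)} (hB0 : B0.card ≤ 1)
    (hroom : 4 * k + 20 ≤ (brd V).card) (hn : 4 * k + 10 ≤ Fintype.card V)
    (K : ∀ D f M B, Star R h B0 k D f M B → Win F M B) (m : ℕ) :
    ∀ j, j + m = k → ∀ D f M B, Star R h B0 j D f M B → Win F M B := by
  induction m with
  | zero =>
    intro j hj D f M B hS
    have : j = k := by omega
    subst this
    exact K D f M B hS
  | succ m ih =>
    intro j hj D f M B hS
    have hc := hS.card
    have hr : R.r ∈ D := hS.emb.root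
    have hDc : D.card ≤ j + 1 := by
      rw [hS.D_eq]
      refine (Finset.card_insert_le _ _).trans ?_
      have := Finset.card_image_le (s := Finset.range j) (f := h)
      rw [Finset.card_range] at this
      omega
    have hun := hS.emb.card_unused
    obtain ⟨z, hz, hz'⟩ := exists_avoid (X := unused D f) (bad := hvy 1 B) (by
      have := card_hvy 1 B
      omega)
    have hz0 : ∀ x, s(z, x) ∉ B := by
      intro x hx
      apply hz'
      rw [mem_hvy]
      unfold dg
      exact Finset.card_pos.mpr ⟨x, mem_nb.mpr hx⟩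
    have hjD : h j ∉ D := by
      rw [hS.D_eq, Finset.mem_insert, Finset.mem_image]
      rintro (h1 | ⟨i, hi, h1⟩)
      · have := hch j (by omega)
        rw [RT.mem_ch] at this
        exact this.1 h1
      · rw [Finset.mem_range] at hi
        have := hinj i (by omega) j (by omega) h1
        omega
    have hpar : R.par (h j) = R.r := (RT.mem_ch.mp (hch j (by omega))).2
    refine ensure hS.ok (by omega) (a := f R.r) (b := z) (fun h' => not_unused hr (h' ▸ hz))
      (by rw [Sym2.eq_swap]; exact hz0 _) ?_
    intro M' B' hM' hE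
    have emb1 := (hS.emb.mono hE.subM).add hjD (by rw [hpar]; exact hr) hz
      (by rw [hpar]; exact hM')
    have hfne : ∀ q ∈ D, Function.update f (h j) z q = f q := by
      intro q hq
      rw [Function.update_of_ne (by rintro rfl; exact hjD hq)]
    refine ih (j + 1) (by omega) _ _ _ _ ⟨hE.ok, emb1, ?_, hS.sub.trans hE.subB, ?_, ?_, ?_⟩
    · rw [hS.D_eq, Finset.range_add_one, Finset.image_insert, Finset.insert_comm]
    · have := hE.card_le
      omega
    · rw [hfne _ hr]; exact hS.fr
    · intro i hi x
      by_cases hij : i = j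
      · subst hij
        rw [Function.update_self]
        exact fun h => hz0 x (hS.sub h)
      · have : h i ∈ D := by
          rw [hS.D_eq, Finset.mem_insert, Finset.mem_image]
          exact Or.inr ⟨i, Finset.mem_range.mpr (by omega), rfl⟩
        rw [hfne _ this]
        exact hS.fz i (by omega) x

/-- Two outside vertices share the new Breaker edges. -/
theorem two_small {N : Finset V} {B0 B : Finset (Sym2 V)} (hN : ∀ z ∈ N, ∀ x, s(z, x) ∉ B0)
    {v v' : V} (hvv : v ≠ v') (hv : v ∉ N) (hv' : v' ∉ N) :
    (N.filter fun z => s(v, z) ∈ B).card + (N.filter fun z => s(v', z) ∈ B).card ≤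
      (B \ B0).card := by
  have h1 : ∀ v, (N.filter fun z => s(v, z) ∈ B).card =
      ((N.filter fun z => s(v, z) ∈ B).image fun z => s(v, z)).card := by
    intro v
    rw [Finset.card_image_of_injOn]
    intro x _ y _ hxy
    simp only [Sym2.eq_iff] at hxy
    rcases hxy with ⟨_, h⟩ | ⟨h, h'⟩
    · exact h
    · rw [h', h]
  rw [h1 v, h1 v', ← Finset.card_union_of_disjoint]
  · apply Finset.card_le_card
    intro e he
    rw [Finset.mem_union, Finset.mem_image, Finset.mem_image] at he
    rw [Finset.mem_sdiff]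
    rcases he with ⟨z, hz, rfl⟩ | ⟨z, hz, rfl⟩ <;> rw [Finset.mem_filter] at hz
    · exact ⟨hz.2, by rw [Sym2.eq_swap]; exact hN z hz.1 _⟩
    · exact ⟨hz.2, by rw [Sym2.eq_swap]; exact hN z hz.1 _⟩
  · rw [Finset.disjoint_left]
    intro e he he'
    rw [Finset.mem_image] at he he'
    obtain ⟨z, hz, rfl⟩ := he
    obtain ⟨z', hz', h⟩ := he'
    rw [Finset.mem_filter] at hz hz'
    rw [Sym2.eq_iff] at h
    rcases h with ⟨h, _⟩ | ⟨h, h'⟩
    · exact hvv h.symm
    · exact hv' (h ▸ hz.1)

/-- Phase one can start from a star. -/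
theorem sib_go (hF : Goal R F) (hB : Base R a Δ NL Na ω L Pl) {h : ℕ → V} {k : ℕ}
    (hinj : ∀ i ≤ k, ∀ j ≤ k, h i = h j → i = j)
    (hch : ∀ i ≤ k, h i ∈ R.ch R.r) (hlc : ∀ i ≤ k, ω ≤ (lc R (h i)).card)
    (hk : 2 * o0 NL Na + 4 ≤ k) (ha : 4 * k + 20 ≤ a) {N X Fz D : Finset V} {f : V → V}
    {M B : Finset (Sym2 V)} (hok : Ok M B) (hemb : Emb R D f M) (hH : ∀ i < k, h i ∈ D)
    (hN : N = (Finset.range k).image fun i => f (h i))
    (hown : ∀ x ∈ N ∪ X, ∃ v ∈ D, (R.ch v ≠ ∅ ∨ v ∈ Fz) ∧ f v = x)
    (honZ : ∀ v ∈ D, f v ∈ N → ∃ i < k, h i = v)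
    (hlv : (D.filter fun v => R.ch v = ∅).card ≤ 1)
    (hβ : ∀ v, v ∉ N → v ∉ X → (N.filter fun z => s(v, z) ∈ B).card ≤ k / 2 + 1)
    (hFz : Fz ⊆ D) (hFzl : ∀ v ∈ Fz, R.ch v = ∅) (hFzc : Fz.card ≤ 1) (hBc : B.card ≤ k + 2) :
    Win F M B := by
  have hNa := hB_Na hB
  have hNc : N.card = k := by
    rw [hN, Finset.card_image_of_injOn, Finset.card_range]
    intro i hi j hj hij
    rw [Finset.mem_coe, Finset.mem_range] at hi hj
    exact hinj i (by omega) j (by omega) (hemb.inj (hH i hi) (hH j hj) hij)
  have hHc : ((Finset.range k).image h).card = k := by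
    rw [Finset.card_image_of_injOn, Finset.card_range]
    intro i hi j hj hij
    rw [Finset.mem_coe, Finset.mem_range] at hi hj
    exact hinj i (by omega) j (by omega) hij
  have hDc : k ≤ D.card := by
    rw [← hHc]
    apply Finset.card_le_card
    intro x hx
    rw [Finset.mem_image] at hx
    obtain ⟨i, hi, rfl⟩ := hx
    exact hH i (Finset.mem_range.mp hi)
  set O : V → Finset V := fun x => if x ∈ N ∪ X then ∅ else N with hO
  have Oin : ∀ x ∈ N ∪ X, O x = ∅ := fun x hx => by simp only [hO, if_pos hx]
  have Oout : ∀ x, x ∉ N ∪ X → O x = N := fun x hx => by simp only [hO, if_neg hx]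
  have hosub : ∀ v, O v ⊆ N := by
    intro v
    by_cases hv : v ∈ N ∪ X
    · rw [Oin v hv]; exact Finset.empty_subset _
    · rw [Oout v hv]
  have hOwn : Own O := by
    refine ⟨?_, ?_⟩
    · intro v hv
      by_cases hvN : v ∈ N ∪ X
      · rw [Oin v hvN] at hv; simp at hv
      · exact hvN (Finset.mem_union_left _ (hosub v hv))
    · intro v z hz hv
      have hzN : z ∈ N ∪ X := Finset.mem_union_left _ (hosub v hz)
      rw [Oin z hzN] at hv
      simp at hv
  have hP := hB.good (τ := k / 2 + 1) (o := k) (H0 := (Finset.range k).image h) (Fz := Fz) (Z := N)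
    (O := O)
    (by
      intro x hx
      rw [Finset.mem_image] at hx
      obtain ⟨i, hi, rfl⟩ := hx
      exact hlc i (by have := Finset.mem_range.mp hi; omega)) hFzl hFzc hOwn hosub
    (by
      intro v
      by_cases hv : v ∈ N ∪ X
      · left; exact Oin v hv
      · right; rw [Oout v hv, hNc])
    (by omega) (by omega)
  have hHmem : ∀ x ∈ (Finset.range k).image h, x ∈ D := by
    intro x hx
    rw [Finset.mem_image] at hx
    obtain ⟨i, hi, rfl⟩ := hx
    exact hH i (Finset.mem_range.mp hi)
  refine phase_one (D := D) (f := f) hF hP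
    { ok := hok
      emb := hemb
      fz := hFz
      own := ?_
      clH := fun x hx _ _ => hHmem x hx
      onZ := ?_
      alive := Or.inl ⟨?_, ?_⟩
      lv := hlv.trans (by omega)
      sep := ?_
      sep2 := fun x hx hxD => absurd (hHmem x hx) hxD
      debt := ?_
      cardB := ?_
      deg := ?_ }
  · intro x hx
    by_cases hxN : x ∈ N ∪ X
    · exact hown x hxN
    · exfalso
      have h1 : O x = ∅ := hx
      rw [Oout x hxN] at h1
      rw [h1] at hNc
      simp at hNc
      omega
  · intro v hv hvN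
    obtain ⟨i, hi, rfl⟩ := honZ v hv hvN
    exact Finset.mem_image_of_mem _ (Finset.mem_range.mpr hi)
  · show N.card ≤ ((Finset.range k).image h).card
    omega
  · intro x hx _
    show f x ∈ N
    have hx' : x ∈ (Finset.range k).image h := hx
    rw [Finset.mem_image] at hx'
    obtain ⟨i, hi, rfl⟩ := hx'
    rw [hN]
    exact Finset.mem_image_of_mem (fun i => f (h i)) hi
  · intro v hv
    have : R.ch v ∩ (Finset.range k).image h = ∅ := by
      rw [Finset.eq_empty_iff_forall_notMem]
      intro x hx
      rw [Finset.mem_inter] at hx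
      exact hemb.ch_notMem hv hx.1 (hHmem x hx.2)
    show (R.ch v ∩ (Finset.range k).image h).card ≤ 1
    rw [this]; simp
  · have : debtSum (k / 2 + 1) (100 * Na) (160 * NL + 10 * Na + 2) O M B = 0 := by
      apply debtSum_zero (by omega)
      intro v
      have h1 : bt O B v ≤ k / 2 + 1 := by
        unfold bt
        by_cases hv : v ∈ N ∪ X
        · rw [Oin v hv]; simp
        · rw [Oout v hv]
          rw [Finset.mem_union] at hv
          push Not at hv
          exact hβ v hv.1 hv.2
      omega
    show debtSum (k / 2 + 1) (100 * Na) (160 * NL + 10 * Na + 2) O M B ≤ 3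
    omega
  · show B.card ≤ 3 * (D.card + _) + 3
    omega
  · intro p hp
    have := dg_le_card B (f p)
    show dg B (f p) ≤ a + _ + 3
    omega

/-- The start in the case of many hubs with a common parent. -/
theorem start_sib (hF : Goal R F) (hB : Base R a Δ NL Na ω L Pl) {h : ℕ → V} {k : ℕ}
    (hinj : ∀ i ≤ k, ∀ j ≤ k, h i = h j → i = j)
    (hch : ∀ i ≤ k, h i ∈ R.ch R.r) (hlc : ∀ i ≤ k, ω ≤ (lc R (h i)).card)
    (hk : 2 * o0 NL Na + 4 ≤ k) (ha : 4 * k + 20 ≤ a) (hn : 4 * k + 10 ≤ Fintype.card V)
    {B0 : Finset (Sym2 V)} (hB0 : B0.card ≤ 1) :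
    Win F ∅ B0 := by
  have hroom := hB.room
  have hω1 := hB.ω1
  -- the host of the root
  obtain ⟨r', -, hr'⟩ := exists_avoid (X := (Finset.univ : Finset V)) (bad := hvy 1 B0) (by
    have := card_hvy 1 B0
    rw [Finset.card_univ]
    omega)
  have hr0 : ∀ x, s(r', x) ∉ B0 := by
    intro x hx
    apply hr'
    rw [mem_hvy]
    unfold dg
    exact Finset.card_pos.mpr ⟨x, mem_nb.mpr hx⟩
  refine star_build (R := R) (h := h) (k := k) hinj hch hB0 (by omega) hn ?_ k 0 (by omega) {R.r}
    (fun _ => r') ∅ B0 ⟨⟨Finset.disjoint_empty_left _, by simp⟩, ⟨Finset.mem_singleton_self _, ?_, ?_, ?_⟩,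
      by simp, Finset.Subset.refl _, by omega, fun x => hr0 x, by intro i hi; omega⟩
  · intro D f M B hS
    have hrD := hS.emb.root
    have hHD : ∀ i < k, h i ∈ D := by
      intro i hi
      rw [hS.D_eq, Finset.mem_insert, Finset.mem_image]
      exact Or.inr ⟨i, Finset.mem_range.mpr hi, rfl⟩
    have hDmem : ∀ v ∈ D, v = R.r ∨ ∃ i < k, h i = v := by
      intro v hv
      rw [hS.D_eq, Finset.mem_insert, Finset.mem_image] at hv
      rcases hv with hv | ⟨i, hi, hv⟩
      · exact Or.inl hv
      · exact Or.inr ⟨i, Finset.mem_range.mp hi, hv⟩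
    have hhr : ∀ i ≤ k, h i ≠ R.r := fun i hi => (RT.mem_ch.mp (hch i hi)).1
    have hhint : ∀ i ≤ k, R.ch (h i) ≠ ∅ := fun i hi => lc_pos_int (by have := hlc i hi; omega)
    have hrint : R.ch R.r ≠ ∅ := by
      intro h0
      have := hch 0 (by omega)
      rw [h0] at this
      simp at this
    set N := (Finset.range k).image fun i => f (h i) with hN
    have hNmem : ∀ z, z ∈ N ↔ ∃ i < k, f (h i) = z := by
      intro z
      rw [hN, Finset.mem_image]
      simp only [Finset.mem_range]
    have hNf : ∀ z ∈ N, ∀ x, s(z, x) ∉ B0 := by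
      intro z hz x
      obtain ⟨i, hi, rfl⟩ := (hNmem z).mp hz
      exact hS.fz i hi x
    have hNc : N.card = k := by
      rw [hN, Finset.card_image_of_injOn, Finset.card_range]
      intro i hi j hj hij
      rw [Finset.mem_coe, Finset.mem_range] at hi hj
      exact hinj i (by omega) j (by omega) (hS.emb.inj (hHD i hi) (hHD j hj) hij)
    have hsd : (B \ B0).card ≤ k := by
      have h1 := Finset.card_sdiff_add_card_eq_card hS.sub
      have h2 := hS.card
      omega
    have hBk := hS.card
    have hrN : f R.r ∉ N := by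
      intro h0
      obtain ⟨i, hi, h1⟩ := (hNmem _).mp h0
      exact hhr i (by omega) (hS.emb.inj (hHD i hi) hrD h1)
    have hownN : ∀ x ∈ N, ∃ v ∈ D, (R.ch v ≠ ∅ ∨ v ∈ (∅ : Finset V)) ∧ f v = x := by
      intro x hx
      obtain ⟨i, hi, rfl⟩ := (hNmem _).mp hx
      exact ⟨h i, hHD i hi, Or.inl (hhint i (by omega)), rfl⟩
    have honZ : ∀ v ∈ D, f v ∈ N → ∃ i < k, h i = v := by
      intro v hv hvN
      rcases hDmem v hv with rfl | h1
      · exact absurd hvN hrN
      · exact h1
    have hlv0 : (D.filter fun v => R.ch v = ∅) = ∅ := by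
      rw [Finset.filter_eq_empty_iff]
      intro v hv
      rcases hDmem v hv with rfl | ⟨i, hi, rfl⟩
      · exact hrint
      · exact hhint i (by omega)
    by_cases hex : ∃ v, v ∉ N ∧ k < 2 * (N.filter fun z => s(v, z) ∈ B).card
    · obtain ⟨v, hvN, hvk⟩ := hex
      -- the exceptional vertex is unused
      have hvr : v ≠ f R.r := by
        rintro rfl
        have : (N.filter fun z => s(f R.r, z) ∈ B) = ∅ := by
          rw [Finset.filter_eq_empty_iff]
          intro z hz hzB
          obtain ⟨i, hi, rfl⟩ := (hNmem _).mp hz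
          have h1 := hS.emb.edge (h i) (hHD i hi) (hhr i (by omega))
          rw [(RT.mem_ch.mp (hch i (by omega))).2] at h1
          exact Finset.disjoint_left.mp hS.ok.disj h1 hzB
        rw [this] at hvk
        simp at hvk
      have hvu : v ∈ unused D f := by
        rw [mem_unused]
        intro q hq hqv
        rcases hDmem q hq with rfl | ⟨i, hi, rfl⟩
        · exact hvr hqv.symm
        · exact hvN ((hNmem v).mpr ⟨i, hi, hqv⟩)
      by_cases hall : ∃ i < k, s(v, f (h i)) ∉ B
      · -- case B
        obtain ⟨i, hi, hiB⟩ := hall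
        have hvi : v ≠ f (h i) := fun h' => hvN ((hNmem v).mpr ⟨i, hi, h'.symm⟩)
        refine ensure hS.ok (by omega) (a := v) (b := f (h i)) hvi hiB ?_
        intro M' B' hM' hE
        obtain ⟨v1, hv1⟩ : (lc R (h i)).Nonempty := by
          rw [← Finset.card_pos]
          have := hlc i (by omega)
          omega
        unfold lc at hv1
        rw [Finset.mem_inter, mem_lvs] at hv1
        have hv1D : v1 ∉ D := by
          intro h1
          rcases hDmem v1 h1 with rfl | ⟨j, hj, rfl⟩
          · exact (RT.mem_ch.mp hv1.1).1 rfl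
          · exact hhint j (by omega) hv1.2
        have hpar : R.par v1 = h i := (RT.mem_ch.mp hv1.1).2
        have emb1 := (hS.emb.mono hE.subM).add hv1D (by rw [hpar]; exact hHD i hi) hvu
          (by rw [hpar, Sym2.eq_swap]; exact hM')
        have hfne : ∀ q ∈ D, Function.update f v1 v q = f q := by
          intro q hq
          rw [Function.update_of_ne (by rintro rfl; exact hv1D hq)]
        have hN' : N = (Finset.range k).image fun i => Function.update f v1 v (h i) := by
          rw [hN]
          apply Finset.image_congr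
          intro j hj
          exact (hfne _ (hHD j (Finset.mem_range.mp (Finset.mem_coe.mp hj)))).symm
        have hc' := hE.card_le
        refine sib_go hF hB hinj hch hlc hk ha (N := N) (X := {v}) (Fz := {v1}) hE.ok emb1
          (fun i hi => Finset.mem_insert_of_mem (hHD i hi)) hN' ?_ ?_ ?_ ?_ ?_ ?_ ?_ ?_
        · intro x hx
          rw [Finset.mem_union, Finset.mem_singleton] at hx
          rcases hx with hx | rfl
          · obtain ⟨q, hq, hq', hqx⟩ := hownN x hx
            refine ⟨q, Finset.mem_insert_of_mem hq, ?_, (hfne q hq).trans hqx⟩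
            rcases hq' with h1 | h1
            · exact Or.inl h1
            · simp at h1
          · exact ⟨v1, Finset.mem_insert_self _ _, Or.inr (Finset.mem_singleton_self _),
              Function.update_self _ _ _⟩
        · intro q hq hqN
          rw [Finset.mem_insert] at hq
          rcases hq with rfl | hq
          · rw [Function.update_self] at hqN
            exact absurd hqN hvN
          · rw [hfne q hq] at hqN
            exact honZ q hq hqN
        · rw [Finset.filter_insert, if_pos hv1.2, hlv0]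
          simp
        · intro q hqN hqX
          rw [Finset.mem_singleton] at hqX
          have h1 := two_small (B := B') hNf hqX hqN hvN
          have h2 : (N.filter fun z => s(v, z) ∈ B).card ≤ (N.filter fun z => s(v, z) ∈ B').card := by
            apply Finset.card_le_card
            intro z hz
            rw [Finset.mem_filter] at hz ⊢
            exact ⟨hz.1, hE.subB hz.2⟩
          have h3 : (B' \ B0).card ≤ k + 1 := by
            have h4 := Finset.card_sdiff_add_card_eq_card (hS.sub.trans hE.subB)
            omega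
          omega
        · intro x hx
          rw [Finset.mem_singleton] at hx
          rw [hx]; exact Finset.mem_insert_self _ _
        · intro x hx
          rw [Finset.mem_singleton] at hx
          rw [hx]; exact hv1.2
        · simp
        · omega
      · -- case C
        push Not at hall
        have hcB : s(f R.r, v) ∉ B := by
          intro hcB
          have h1 : insert s(f R.r, v) (N.image fun z => s(v, z)) ⊆ B \ B0 := by
            intro e he
            rw [Finset.mem_insert, Finset.mem_image] at he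
            rw [Finset.mem_sdiff]
            rcases he with rfl | ⟨z, hz, rfl⟩
            · exact ⟨hcB, hS.fr v⟩
            · obtain ⟨i, hi, rfl⟩ := (hNmem _).mp hz
              exact ⟨hall i hi, by rw [Sym2.eq_swap]; exact hNf _ hz _⟩
          have h2 := Finset.card_le_card h1
          rw [Finset.card_insert_of_notMem, Finset.card_image_of_injOn] at h2
          · omega
          · intro x _ y _ hxy
            simp only [Sym2.eq_iff] at hxy
            rcases hxy with ⟨_, h⟩ | ⟨h, h'⟩
            · exact h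
            · rw [h', h]
          · rw [Finset.mem_image]
            rintro ⟨z, hz, h3⟩
            rw [Sym2.eq_iff] at h3
            rcases h3 with ⟨h3, _⟩ | ⟨_, h3⟩
            · exact hvr h3
            · exact hrN (h3 ▸ hz)
        refine ensure hS.ok (by omega) (a := f R.r) (b := v) hvr.symm hcB ?_
        intro M' B' hM' hE
        have hkD : h k ∉ D := by
          intro h1
          rcases hDmem _ h1 with h2 | ⟨j, hj, h2⟩
          · exact hhr k le_rfl h2
          · have := hinj j (by omega) k le_rfl h2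
            omega
        have hpar : R.par (h k) = R.r := (RT.mem_ch.mp (hch k le_rfl)).2
        have emb1 := (hS.emb.mono hE.subM).add hkD (by rw [hpar]; exact hrD) hvu
          (by rw [hpar]; exact hM')
        have hfne : ∀ q ∈ D, Function.update f (h k) v q = f q := by
          intro q hq
          rw [Function.update_of_ne (by rintro rfl; exact hkD hq)]
        have hN' : N = (Finset.range k).image fun i => Function.update f (h k) v (h i) := by
          rw [hN]
          apply Finset.image_congr
          intro j hj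
          exact (hfne _ (hHD j (Finset.mem_range.mp (Finset.mem_coe.mp hj)))).symm
        have hc' := hE.card_le
        refine sib_go hF hB hinj hch hlc hk ha (N := N) (X := {v}) (Fz := ∅) hE.ok emb1
          (fun i hi => Finset.mem_insert_of_mem (hHD i hi)) hN' ?_ ?_ ?_ ?_ ?_ ?_ ?_ ?_
        · intro x hx
          rw [Finset.mem_union, Finset.mem_singleton] at hx
          rcases hx with hx | rfl
          · obtain ⟨q, hq, hq', hqx⟩ := hownN x hx
            exact ⟨q, Finset.mem_insert_of_mem hq, hq', (hfne q hq).trans hqx⟩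
          · exact ⟨h k, Finset.mem_insert_self _ _, Or.inl (hhint k le_rfl),
              Function.update_self _ _ _⟩
        · intro q hq hqN
          rw [Finset.mem_insert] at hq
          rcases hq with rfl | hq
          · rw [Function.update_self] at hqN
            exact absurd hqN hvN
          · rw [hfne q hq] at hqN
            exact honZ q hq hqN
        · rw [Finset.filter_insert, if_neg (hhint k le_rfl), hlv0]
          simp
        · intro q hqN hqX
          rw [Finset.mem_singleton] at hqX
          have h1 := two_small (B := B') hNf hqX hqN hvN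
          have h2 : (N.filter fun z => s(v, z) ∈ B).card ≤ (N.filter fun z => s(v, z) ∈ B').card := by
            apply Finset.card_le_card
            intro z hz
            rw [Finset.mem_filter] at hz ⊢
            exact ⟨hz.1, hE.subB hz.2⟩
          have h3 : (B' \ B0).card ≤ k + 1 := by
            have h4 := Finset.card_sdiff_add_card_eq_card (hS.sub.trans hE.subB)
            omega
          omega
        · simp
        · simp
        · simp
        · omega
    · -- case A
      push Not at hex
      refine sib_go hF hB hinj hch hlc hk ha (N := N) (X := ∅) (Fz := ∅) hS.ok hS.emb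
        hHD hN ?_ honZ ?_ ?_ ?_ ?_ ?_ ?_
      · intro x hx
        rw [Finset.union_empty] at hx
        exact hownN x hx
      · rw [hlv0]; simp
      · intro q hqN _
        have := hex q hqN
        omega
      · simp
      · simp
      · simp
      · omega
  · intro v hv hr
    exact absurd (Finset.mem_singleton.mp hv) hr
  · intro x hx y hy _
    rw [Finset.mem_coe, Finset.mem_singleton] at hx hy
    rw [hx, hy]
  · intro v hv hr
    exact absurd (Finset.mem_singleton.mp hv) hr

end

end Pool.Agent.Lib.MP_9916e0_co
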