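import Pool.Agent.Lib.MP_9916e0_co.Emb

set_option autoImplicit false
set_option linter.unusedSectionVars false

namespace Pool.Agent.Lib.MP_9916e0_co

open Classical in
/-- The child of a vertex having children. -/
noncomputable def RT.dn {V : Type*} [Fintype V] [DecidableEq V] (R : RT V) (v : V) : V :=
  if h : (R.ch v).Nonempty then h.choose else v

variable {V : Type*} [Fintype V] [DecidableEq V]

/-- A vertical path of single-child vertices `t 0, ..., t (k-1)`. -/
def Wd (R : RT V) (k : ℕ) (t : ℕ → V) : Prop := ∀ i < k, R.ch (t i) = {t (i + 1)}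

namespace Wd

variable {R : RT V} {k : ℕ} {t : ℕ → V}

theorem mem_ch (h : Wd R k t) {i : ℕ} (hi : i < k) : t (i + 1) ∈ R.ch (t i) := by
  rw [h i hi]; exact Finset.mem_singleton_self _

theorem par_eq (h : Wd R k t) {i : ℕ} (hi : i < k) : R.par (t (i + 1)) = t i :=
  (RT.mem_ch.mp (h.mem_ch hi)).2

theorem ne_root (h : Wd R k t) {i : ℕ} (hi : i < k) : t (i + 1) ≠ R.r :=
  (RT.mem_ch.mp (h.mem_ch hi)).1

theorem dep_eq (h : Wd R k t) {i : ℕ} (hi : i ≤ k) : R.dep (t i) = R.dep (t 0) + i := by
  induction i with
  | zero => rfl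
  | succ i ih =>
    rw [RT.dep_ch (h.mem_ch (by omega)), ih (by omega)]
    omega

theorem inj (h : Wd R k t) {i j : ℕ} (hi : i ≤ k) (hj : j ≤ k) (hij : t i = t j) : i = j := by
  have h1 := h.dep_eq hi
  have h2 := h.dep_eq hj
  rw [hij] at h1
  omega

end Wd

theorem RT.dn_spec {R : RT V} {v : V} (h : (R.ch v).card = 1) : R.ch v = {R.dn v} := by
  obtain ⟨c, hc⟩ := Finset.card_eq_one.mp h
  have hne : (R.ch v).Nonempty := by rw [hc]; exact Finset.singleton_nonempty c
  have : R.dn v ∈ R.ch v := by
    unfold RT.dn
    rw [dif_pos hne]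
    exact hne.choose_spec
  rw [hc, Finset.mem_singleton] at this
  rw [hc, this]

/-- Vertices without exactly one child. -/
def nonone (R : RT V) : Finset V := Finset.univ.filter fun v => (R.ch v).card ≠ 1

/-- Ancestors at distance less than `m` of a set. -/
def upset (R : RT V) (m : ℕ) (bad : Finset V) : Finset V :=
  (Finset.range m).biUnion fun i => bad.image (R.par^[i])

theorem card_upset (R : RT V) (m : ℕ) (bad : Finset V) : (upset R m bad).card ≤ m * bad.card := by
  unfold upset
  calc _ ≤ ∑ i ∈ Finset.range m, (bad.image (R.par^[i])).card := Finset.card_biUnion_le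
    _ ≤ ∑ _i ∈ Finset.range m, bad.card := Finset.sum_le_sum fun i _ => Finset.card_image_le
    _ = m * bad.card := by rw [Finset.sum_const, Finset.card_range, smul_eq_mul]

theorem mem_upset {R : RT V} {m : ℕ} {bad : Finset V} {i : ℕ} (hi : i < m) {u : V} (hu : u ∈ bad) :
    R.par^[i] u ∈ upset R m bad := by
  unfold upset
  rw [Finset.mem_biUnion]
  exact ⟨i, Finset.mem_range.mpr hi, Finset.mem_image_of_mem _ hu⟩

theorem iter_par {R : RT V} {v : V} (i : ℕ) (h : ∀ j < i, (R.ch (R.dn^[j] v)).card = 1) :
    R.par^[i] (R.dn^[i] v) = v := by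
  induction i with
  | zero => rfl
  | succ i ih =>
    rw [Function.iterate_succ_apply, Function.iterate_succ_apply' (f := R.dn)]
    have h1 : R.par (R.dn (R.dn^[i] v)) = R.dn^[i] v := by
      have h2 := RT.dn_spec (h i (by omega))
      have h3 : R.dn (R.dn^[i] v) ∈ R.ch (R.dn^[i] v) := by
        rw [h2]; exact Finset.mem_singleton_self _
      exact (RT.mem_ch.mp h3).2
    rw [h1]
    exact ih fun j hj => h j (by omega)

/-- A window avoiding `bad`, its first eight vertices also avoiding `fat`. -/
theorem exists_window (R : RT V) (k : ℕ) (hk : 8 ≤ k) (bad fat : Finset V)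
    (h : k * (nonone R).card + k * bad.card + 8 * fat.card < Fintype.card V) :
    ∃ t : ℕ → V, Wd R k t ∧ (∀ i < k, t i ∉ bad) ∧ (∀ i < 8, t i ∉ fat) := by
  have hc : (upset R k (nonone R) ∪ upset R k bad ∪ upset R 8 fat).card < (Finset.univ : Finset V).card := by
    rw [Finset.card_univ]
    have h1 := card_upset R k (nonone R)
    have h2 := card_upset R k bad
    have h3 := card_upset R 8 fat
    have h4 := Finset.card_union_le (upset R k (nonone R) ∪ upset R k bad) (upset R 8 fat)
    have h5 := Finset.card_union_le (upset R k (nonone R)) (upset R k bad)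
    omega
  obtain ⟨v, -, hv⟩ := exists_avoid hc
  rw [Finset.mem_union, Finset.mem_union] at hv
  push Not at hv
  obtain ⟨⟨h1, h2⟩, h3⟩ := hv
  have hone : ∀ i < k, (R.ch (R.dn^[i] v)).card = 1 := by
    intro i
    induction i using Nat.strong_induction_on with
    | _ i ih =>
      intro hi
      by_contra hcon
      apply h1
      have := mem_upset (R := R) (m := k) (bad := nonone R) hi (u := R.dn^[i] v)
        (by simp [nonone, hcon])
      rwa [iter_par i fun j hj => ih j hj (by omega)] at this
  refine ⟨fun i => R.dn^[i] v, ?_, ?_, ?_⟩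
  · intro i hi
    show R.ch (R.dn^[i] v) = {R.dn^[i + 1] v}
    rw [Function.iterate_succ_apply']
    exact RT.dn_spec (hone i hi)
  · intro i hi hbad
    apply h2
    have := mem_upset (R := R) hi hbad
    rwa [iter_par i fun j hj => hone j (by omega)] at this
  · intro i hi hbad
    apply h3
    have := mem_upset (R := R) hi hbad
    rwa [iter_par i fun j hj => hone j (by omega)] at this

/-- The leaves (childless vertices). -/
def lvs (R : RT V) : Finset V := Finset.univ.filter fun v => R.ch v = ∅

theorem mem_lvs {R : RT V} {v : V} : v ∈ lvs R ↔ R.ch v = ∅ := by simp [lvs]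

theorem sum_ch (R : RT V) : ∑ v, (R.ch v).card + 1 = Fintype.card V := by
  have h1 : ∑ v, (R.ch v).card = (Finset.univ.filter fun c => c ≠ R.r).card := by
    have := Finset.card_eq_sum_card_fiberwise (s := Finset.univ.filter fun c => c ≠ R.r)
      (t := Finset.univ) (f := R.par) (fun x _ => Finset.mem_coe.mpr (Finset.mem_univ _))
    rw [this]
    apply Finset.sum_congr rfl
    intro v _
    congr 1
    ext c
    simp [RT.mem_ch]
  rw [h1, Finset.filter_ne', Finset.card_erase_of_mem (Finset.mem_univ _), Finset.card_univ]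
  have : 0 < Fintype.card V := Fintype.card_pos_iff.mpr ⟨R.r⟩
  omega

/-- Few leaves imply few vertices without exactly one child. -/
theorem card_nonone (R : RT V) : (nonone R).card ≤ 2 * (lvs R).card := by
  have h1 := sum_ch R
  have h2 : Fintype.card V + (nonone R).card ≤ ∑ v, (R.ch v).card + 2 * (lvs R).card := by
    have e1 : Fintype.card V = ∑ _v : V, 1 := by simp
    have e2 : (nonone R).card = ∑ v : V, if (R.ch v).card ≠ 1 then 1 else 0 := by
      unfold nonone; rw [Finset.card_filter]
    have e3 : (lvs R).card = ∑ v : V, if R.ch v = ∅ then 1 else 0 := by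
      unfold lvs; rw [Finset.card_filter]
    rw [e1, e2, e3, Finset.mul_sum, ← Finset.sum_add_distrib, ← Finset.sum_add_distrib]
    apply Finset.sum_le_sum
    intro v _
    by_cases hv : R.ch v = ∅
    · simp [hv]
    · have : 0 < (R.ch v).card := Finset.card_pos.mpr (Finset.nonempty_iff_ne_empty.mpr hv)
      by_cases h1 : (R.ch v).card = 1
      · simp [h1, hv]
      · rw [if_pos h1, if_neg hv]
        omega
  omega

/-- If many vertices are unplaced, there is a chain of three unplaced ones below a placed one. -/
theorem exists_chain {R : RT V} {D : Finset V} {f : V → V} {M : Finset (Sym2 V)}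
    (h : Emb R D f M) (hc : 2 * (lvs R).card + D.card < Fintype.card V) :
    ∃ v₁ v₂ v₃, v₁ ∉ D ∧ R.par v₁ ∈ D ∧ v₂ ∈ R.ch v₁ ∧ v₃ ∈ R.ch v₂ := by
  by_contra hcon
  push Not at hcon
  -- every unplaced vertex is a child or a grandchild of a placed vertex
  have key : ∀ v, v ∉ D → R.par v ∉ D → v ∈ lvs R ∧ R.par (R.par v) ∈ D := by
    intro v hv hpv
    have hd : ∀ u, u ∉ D → R.par u ∉ D → R.par (R.par u) ∈ D := by
      intro u
      induction hd : R.dep u using Nat.strong_induction_on generalizing u with
      | _ d ih =>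
        intro hu hpu
        by_contra hppu
        by_cases hppp : R.par (R.par (R.par u)) ∈ D
        · exact hcon (R.par (R.par u)) (R.par u) u hppu hppp
            (RT.mem_ch.mpr ⟨h.ne_root hpu, rfl⟩) (RT.mem_ch.mpr ⟨h.ne_root hu, rfl⟩)
        · have := R.dep_par u (h.ne_root hu)
          exact hppp (ih (R.dep (R.par u)) (by omega) (R.par u) rfl hpu hppu)
    have h2 := hd v hv hpv
    refine ⟨?_, h2⟩
    rw [mem_lvs, Finset.eq_empty_iff_forall_notMem]
    intro c hc'
    exact hcon (R.par v) v c hpv h2 (RT.mem_ch.mpr ⟨h.ne_root hv, rfl⟩) hc'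
  -- map each unplaced vertex which is not a leaf to a leaf child
  set U := (Finset.univ \ D : Finset V) with hU
  have hUc : U.card + D.card = Fintype.card V := by
    rw [hU]
    have := Finset.card_sdiff_add_card_eq_card (Finset.subset_univ D)
    rw [Finset.card_univ] at this
    exact this
  have h1 : (U.filter fun v => v ∈ lvs R).card ≤ (lvs R).card :=
    Finset.card_le_card fun v hv => (Finset.mem_filter.mp hv).2
  have h2 : (U.filter fun v => v ∉ lvs R).card ≤ (lvs R).card := by
    apply Finset.card_le_card_of_injOn R.dn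
    · intro v hv
      rw [Finset.mem_coe, Finset.mem_filter] at hv
      have hvD : v ∉ D := by
        have := hv.1
        rw [hU, Finset.mem_sdiff] at this
        exact this.2
      have hne : (R.ch v).Nonempty := by
        rw [Finset.nonempty_iff_ne_empty]
        exact fun h' => hv.2 (mem_lvs.mpr h')
      have hmem : R.dn v ∈ R.ch v := by
        unfold RT.dn
        rw [dif_pos hne]
        exact hne.choose_spec
      have h3 : R.dn v ∉ D := h.ch_notMem hvD hmem
      have h4 : R.par (R.dn v) = v := (RT.mem_ch.mp hmem).2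
      exact (key (R.dn v) h3 (by rw [h4]; exact hvD)).1
    · intro v hv w hw hvw
      rw [Finset.mem_coe, Finset.mem_filter] at hv hw
      have hmem : ∀ v, v ∉ lvs R → R.par (R.dn v) = v := by
        intro v hv
        have hne : (R.ch v).Nonempty := by
          rw [Finset.nonempty_iff_ne_empty]
          exact fun h' => hv (mem_lvs.mpr h')
        have hmem : R.dn v ∈ R.ch v := by
          unfold RT.dn
          rw [dif_pos hne]
          exact hne.choose_spec
        exact (RT.mem_ch.mp hmem).2
      rw [← hmem v hv.2, ← hmem w hw.2, hvw]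
  have h3 : U.card = (U.filter fun v => v ∈ lvs R).card + (U.filter fun v => v ∉ lvs R).card :=
    (Finset.card_filter_add_card_filter_not _).symm
  omega

end Pool.Agent.Lib.MP_9916e0_co
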